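import Pool.Agent.Helper38.LL.Defs

/-!
LL-CN. Counting of the designs. For `w` and `L` (`L i ≤ P`, at most `(P+1)^n` choices) there are
`∏ (2N)^(L i) = (2N)^(∑ L i) ≤ (2N)^P` choices of the picks. `isPk_coef`: rows of a design are
`√(w i)` times vectors of `ℓ₁`-norm `≤ 1`.
-/

namespace Pool.Agent.LL

open Finset Matrix

theorem card_pk {N n : ℕ} (hN : 1 ≤ N) (w : Fin n → ℕ) (P : ℕ) :
    ∃ F : Finset (Fin n → Fin N → ℝ), (∀ b, IsPk w P b → b ∈ F) ∧
      F.card ≤ (P + 1) ^ n * (2 * N) ^ P := by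
  classical
  let f : (L : Fin n → Fin (P + 1)) → ((i : Fin n) → Fin (L i : ℕ) → Fin N × Bool) →
      (Fin n → Fin N → ℝ) := fun L p i k => Real.sqrt (w i) * (((L i : ℕ) : ℝ)⁻¹ *
        ∑ l, if (p i l).1 = k then sg (p i l).2 else 0)
  refine ⟨((univ : Finset (Fin n → Fin (P + 1))).filter
    (fun L => ∑ i, (L i : ℕ) ≤ P)).biUnion (fun L => univ.image (f L)), ?_, ?_⟩
  · rintro b ⟨L, _, hL2, p, hp⟩
    have hLP : ∀ i, L i < P + 1 := fun i => Nat.lt_succ_of_le
      ((Finset.single_le_sum (f := L) (fun _ _ => Nat.zero_le _) (mem_univ i)).trans hL2)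
    rw [mem_biUnion]
    refine ⟨fun i => ⟨L i, hLP i⟩, ?_, ?_⟩
    · rw [mem_filter]
      exact ⟨mem_univ _, hL2⟩
    · rw [mem_image]
      exact ⟨p, mem_univ _, by funext i; rw [hp i]⟩
  · refine card_biUnion_le.trans ?_
    refine (Finset.sum_le_card_nsmul _ _ ((2 * N) ^ P) ?_).trans ?_
    · intro L hL
      rw [mem_filter] at hL
      refine card_image_le.trans ?_
      rw [card_univ, Fintype.card_pi]
      simp only [Fintype.card_pi, Fintype.card_prod, Fintype.card_fin, Fintype.card_bool,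
        prod_const, card_univ]
      rw [Finset.prod_pow_eq_pow_sum, mul_comm N 2]
      exact Nat.pow_le_pow_right (by omega) hL.2
    · rw [smul_eq_mul]
      refine Nat.mul_le_mul_right _ ?_
      refine (card_filter_le _ _).trans ?_
      rw [card_univ, Fintype.card_fun, Fintype.card_fin, Fintype.card_fin]

theorem isPk_coef {N n : ℕ} {w : Fin n → ℕ} {P : ℕ} {b : Fin n → Fin N → ℝ}
    (h : IsPk w P b) : ∃ a : Fin n → Fin N → ℝ, (∀ i, ∑ k, |a i k| ≤ 1) ∧
      b = fun i k => Real.sqrt (w i) * a i k := by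
  classical
  obtain ⟨L, hL1, _, p, hp⟩ := h
  refine ⟨fun i k => (L i : ℝ)⁻¹ * ∑ l, if (p i l).1 = k then sg (p i l).2 else 0, ?_, ?_⟩
  · intro i
    have hL0 : (0 : ℝ) < L i := by exact_mod_cast hL1 i
    have h1 : ∀ k, |(L i : ℝ)⁻¹ * ∑ l, if (p i l).1 = k then sg (p i l).2 else 0| ≤
        (L i : ℝ)⁻¹ * ∑ l, if (p i l).1 = k then 1 else 0 := by
      intro k
      rw [abs_mul, abs_of_pos (inv_pos.2 hL0)]
      refine mul_le_mul_of_nonneg_left ?_ (inv_pos.2 hL0).le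
      refine (abs_sum_le_sum_abs _ _).trans (sum_le_sum fun l _ => ?_)
      split_ifs
      · rw [sg]
        split_ifs <;> norm_num
      · simp
    refine (sum_le_sum fun k _ => h1 k).trans ?_
    rw [← mul_sum, sum_comm]
    simp only [sum_ite_eq, mem_univ, if_true, sum_const, card_univ, Fintype.card_fin,
      nsmul_eq_mul, mul_one]
    rw [inv_mul_cancel₀ hL0.ne']
  · funext i
    rw [hp i]

/-- There is a design with `n` picks. -/
theorem exists_isPk {N n : ℕ} (hN : 1 ≤ N) (w : Fin n → ℕ) {P : ℕ} (hP : n ≤ P) :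
    ∃ b : Fin n → Fin N → ℝ, IsPk w P b := by
  refine ⟨_, fun _ => 1, fun _ => le_rfl, ?_, fun _ _ => (⟨0, hN⟩, true), fun i => rfl⟩
  simpa using hP

theorem isPk_mono {N n : ℕ} {w : Fin n → ℕ} {P P' : ℕ} (hP : P ≤ P')
    {b : Fin n → Fin N → ℝ} (h : IsPk w P b) : IsPk w P' b := by
  obtain ⟨L, hL1, hL2, p, hp⟩ := h
  exact ⟨L, hL1, hL2.trans hP, p, hp⟩

end Pool.Agent.LL
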