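import Pool.Agent.Helper38.LL.SU

/-!
LL-FS. The final step: additions without rounding. As move (1) of LL-PR with `U = univ` and all
`τ a = q`: either `q` additions are possible (second alternative), or after fewer than `q` additions
(set `J`, weights `β' = β + x⁻¹ 1_J`) all forms `qf (AG lam Γ (Hm (univ.erase i) b β')) (Γ k)` are
`≤ x`. Then by `leverage` and `qf_comb` (`qf A_i u_i ≤ w i x`)
`∑_i 1/(1 + w i x) ≤ lam ti A + ∑_k β' k qf A (Γ k) ≤ lam T + x ∑ β k + |J|`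
(`qf A (Γ k) ≤ qf A_i (Γ k) ≤ x`, `n ≥ 1`), and `∑ 1/(1 + w i x) ≥ n²/(n + W x)`.
-/

namespace Pool.Agent.LL

open Finset Matrix

/-- Cauchy-Schwarz: `n² ≤ (∑ 1/d) (∑ d)`. -/
theorem fs_cs {n : ℕ} (d : Fin n → ℝ) (hd : ∀ i, 0 < d i) :
    (n : ℝ) ^ 2 ≤ (∑ i, 1 / d i) * ∑ i, d i := by
  have h := Finset.sum_mul_sq_le_sq_mul_sq (univ : Finset (Fin n))
    (fun i => 1 / Real.sqrt (d i)) (fun i => Real.sqrt (d i))
  have h1 : ∑ i, (1 / Real.sqrt (d i)) * Real.sqrt (d i) = (n : ℝ) := by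
    have : ∀ i ∈ (univ : Finset (Fin n)), (1 / Real.sqrt (d i)) * Real.sqrt (d i) = 1 := by
      intro i _
      have := Real.sqrt_pos.mpr (hd i)
      field_simp
    rw [Finset.sum_congr rfl this]
    simp
  have h2 : ∑ i, (1 / Real.sqrt (d i)) ^ 2 = ∑ i, 1 / d i := by
    refine Finset.sum_congr rfl fun i _ => ?_
    rw [div_pow, Real.sq_sqrt (hd i).le, one_pow]
  have h3 : ∑ i, (Real.sqrt (d i)) ^ 2 = ∑ i, d i := by
    refine Finset.sum_congr rfl fun i _ => ?_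
    rw [Real.sq_sqrt (hd i).le]
  rw [h1, h2, h3] at h
  exact h

/-- The quadratic form of `AG lam Γ (Hm S b β)` is monotone in `β`. -/
theorem fs_mono {N n : ℕ} (lam : ℝ) (Γ : Matrix (Fin N) (Fin n) ℝ) (S : Finset (Fin n))
    (b : Fin n → Fin N → ℝ) {β β' : Fin N → ℝ} (h : ∀ k, β k ≤ β' k) (v : Fin n → ℝ) :
    v ⬝ᵥ (AG lam Γ (Hm S b β) *ᵥ v) ≤ v ⬝ᵥ (AG lam Γ (Hm S b β') *ᵥ v) := by
  refine AG_mono lam Γ (fun z => ?_) v
  unfold Hm
  rw [Matrix.add_mulVec, Matrix.add_mulVec, dotProduct_add, dotProduct_add]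
  gcongr
  simp only [dotProduct, Matrix.mulVec_diagonal]
  refine Finset.sum_le_sum fun k _ => ?_
  have : z k * (β' k * z k) - z k * (β k * z k) = (β' k - β k) * z k ^ 2 := by ring
  nlinarith [mul_nonneg (sub_nonneg.mpr (h k)) (sq_nonneg (z k))]

theorem fs_form {n : ℕ} (A : Matrix (Fin n) (Fin n) ℝ) (u v : Fin n → ℝ) :
    v ⬝ᵥ (A *ᵥ v) ≤ v ⬝ᵥ ((A + r1 u) *ᵥ v) := by
  rw [Matrix.add_mulVec, dotProduct_add]
  have : v ⬝ᵥ (r1 u *ᵥ v) = (u ⬝ᵥ v) ^ 2 := by
    unfold r1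
    rw [Matrix.vecMulVec_mulVec]
    rw [dotProduct_smul, dotProduct_comm v u, MulOpposite.smul_eq_mul_unop, MulOpposite.unop_op]
    ring
  rw [this]
  nlinarith [sq_nonneg (u ⬝ᵥ v)]

theorem fs_ti {N n : ℕ} (Γ : Matrix (Fin N) (Fin n) ℝ) {lam : ℝ} (hlam : 0 < lam)
    (b : Fin n → Fin N → ℝ) {β β' : Fin N → ℝ} (hβ : ∀ k, 0 ≤ β k) (h : ∀ k, β k ≤ β' k) :
    ti (AG lam Γ (Hm univ b β')) ≤ ti (AG lam Γ (Hm univ b β)) :=
  ti_anti (posDef_AG hlam Γ (posSemidef_Hm univ b hβ))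
    (posDef_AG hlam Γ (posSemidef_Hm univ b (fun k => (hβ k).trans (h k))))
    (fs_mono lam Γ univ b h)

/-- The first alternative, once no further addition is possible. -/
theorem fs_first {N n : ℕ} (hn : 1 ≤ n) (Γ : Matrix (Fin N) (Fin n) ℝ) {lam x : ℝ}
    (hlam : 0 < lam) (hx : 0 < x) (w : Fin n → ℕ) (a : Fin n → Fin N → ℝ)
    (ha : ∀ i, ∑ k, |a i k| ≤ 1) (β : Fin N → ℝ) (hβ : ∀ k, 0 ≤ β k) (q : ℕ) (T : ℝ)
    (hT : ti (AG lam Γ (Hm univ (fun i k => Real.sqrt (w i) * a i k) β)) ≤ T)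
    (c : Fin N → ℕ) (hc : ∑ k, c k ≤ q)
    (hf : ∀ i k, qf (AG lam Γ (Hm (univ.erase i) (fun i k => Real.sqrt (w i) * a i k)
      (fun k => β k + x⁻¹ * c k))) (Γ k) ≤ x) :
    (n : ℝ) ^ 2 / (n + (∑ i, (w i : ℝ)) * x) ≤ lam * T + x * ∑ k, β k + q := by
  set b : Fin n → Fin N → ℝ := fun i k => Real.sqrt (w i) * a i k with hb
  set β' : Fin N → ℝ := fun k => β k + x⁻¹ * c k with hβ'
  have hxi : 0 < x⁻¹ := inv_pos.mpr hx
  have hβle : ∀ k, β k ≤ β' k := fun k => by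
    simp only [hβ']
    have : (0 : ℝ) ≤ x⁻¹ * c k := mul_nonneg hxi.le (Nat.cast_nonneg _)
    linarith
  have hβ'0 : ∀ k, 0 ≤ β' k := fun k => (hβ k).trans (hβle k)
  have hpd : (AG lam Γ (Hm univ b β')).PosDef := posDef_AG hlam Γ (posSemidef_Hm univ b hβ'0)
  have hpdi : ∀ i, (AG lam Γ (Hm (univ.erase i) b β')).PosDef := fun i =>
    posDef_AG hlam Γ (posSemidef_Hm _ b hβ'0)
  -- the forms of the spikes
  have hq : ∀ k, qf (AG lam Γ (Hm univ b β')) (Γ k) ≤ x := by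
    intro k
    refine le_trans ?_ (hf ⟨0, hn⟩ k)
    refine qf_anti (hpdi _) hpd (fun v => ?_) (Γ k)
    rw [AG_Hm_erase lam Γ (mem_univ (⟨0, hn⟩ : Fin n)) b β']
    exact fs_form _ _ v
  have hlev := leverage hlam Γ b hβ'0
  have hW : 0 ≤ ∑ i, (w i : ℝ) := Finset.sum_nonneg fun i _ => Nat.cast_nonneg _
  have hn0 : (0 : ℝ) < n := by exact_mod_cast hn
  have hden : 0 < (n : ℝ) + (∑ i, (w i : ℝ)) * x := by positivity
  -- left side
  have hL : (n : ℝ) ^ 2 / (n + (∑ i, (w i : ℝ)) * x) ≤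
      ∑ i, 1 / (1 + qf (AG lam Γ (Hm (univ.erase i) b β')) (Γᵀ *ᵥ b i)) := by
    have hd : ∀ i, (0 : ℝ) < 1 + w i * x := fun i => by positivity
    have h1 : (n : ℝ) ^ 2 / (n + (∑ i, (w i : ℝ)) * x) ≤ ∑ i, 1 / (1 + (w i : ℝ) * x) := by
      rw [div_le_iff₀ hden]
      have := fs_cs (fun i => 1 + (w i : ℝ) * x) hd
      have h2 : ∑ i : Fin n, (1 + (w i : ℝ) * x) = n + (∑ i, (w i : ℝ)) * x := by
        rw [Finset.sum_add_distrib, Finset.sum_mul]
        simp
      rw [h2] at this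
      exact this
    refine h1.trans (Finset.sum_le_sum fun i _ => ?_)
    have hqi : qf (AG lam Γ (Hm (univ.erase i) b β')) (Γᵀ *ᵥ b i) ≤ w i * x :=
      qf_comb (hpdi i) Γ hx.le (hf i) (Nat.cast_nonneg _) (ha i)
    have hq0 := qf_nonneg (hpdi i) (Γᵀ *ᵥ b i)
    apply one_div_le_one_div_of_le
    · linarith
    · linarith
  -- right side
  have hR1 : ti (AG lam Γ (Hm univ b β')) ≤ T := (fs_ti Γ hlam b hβ hβle).trans hT
  have hR2 : ∑ k, β' k * qf (AG lam Γ (Hm univ b β')) (Γ k) ≤ x * ∑ k, β k + q := by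
    have h1 : ∑ k, β' k * qf (AG lam Γ (Hm univ b β')) (Γ k) ≤ ∑ k, β' k * x :=
      Finset.sum_le_sum fun k _ => mul_le_mul_of_nonneg_left (hq k) (hβ'0 k)
    refine h1.trans ?_
    have h2 : ∑ k, β' k * x = x * ∑ k, β k + ∑ k, (c k : ℝ) := by
      rw [Finset.mul_sum, ← Finset.sum_add_distrib]
      refine Finset.sum_congr rfl fun k _ => ?_
      simp only [hβ']
      field_simp
    rw [h2]
    have h3 : (∑ k, (c k : ℝ)) ≤ q := by exact_mod_cast hc
    linarith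
  calc (n : ℝ) ^ 2 / (n + (∑ i, (w i : ℝ)) * x) ≤ _ := hL
    _ = _ := hlev
    _ ≤ lam * T + (x * ∑ k, β k + q) :=
        add_le_add (mul_le_mul_of_nonneg_left hR1 hlam.le) hR2
    _ = _ := by ring

/-- The number of `s < r` with `g s = k`. -/
def fcnt {N : ℕ} (g : ℕ → Fin N) (r : ℕ) (k : Fin N) : ℕ :=
  ((range r).filter (fun s => g s = k)).card

theorem fcnt_sum {N : ℕ} (g : ℕ → Fin N) (r : ℕ) : ∑ k, fcnt g r k = r := by
  unfold fcnt
  rw [← Finset.card_eq_sum_card_fiberwise (f := g) (s := range r) (t := univ)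
    (fun _ _ => by simp)]
  simp

theorem fcnt_congr {N : ℕ} {g g' : ℕ → Fin N} {r : ℕ} (h : ∀ s < r, g s = g' s) (k : Fin N) :
    fcnt g r k = fcnt g' r k := by
  unfold fcnt
  congr 1
  refine Finset.filter_congr fun s hs => ?_
  rw [h s (Finset.mem_range.mp hs)]

theorem fcnt_pos {N : ℕ} {g : ℕ → Fin N} {r s : ℕ} (hs : s < r) {k : Fin N} (h : g s = k) :
    1 ≤ fcnt g r k := by
  unfold fcnt
  exact Finset.card_pos.mpr ⟨s, by simp [hs, h]⟩

theorem fs_induct {N n : ℕ} (hN : 0 < N) (hn : 1 ≤ n) (Γ : Matrix (Fin N) (Fin n) ℝ) {lam x : ℝ}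
    (hlam : 0 < lam) (hx : 0 < x) (w : Fin n → ℕ) (a : Fin n → Fin N → ℝ)
    (ha : ∀ i, ∑ k, |a i k| ≤ 1) (β : Fin N → ℝ) (hβ : ∀ k, 0 ≤ β k) (q : ℕ) (T : ℝ)
    (hT : ti (AG lam Γ (Hm univ (fun i k => Real.sqrt (w i) * a i k) β)) ≤ T) (r : ℕ)
    (hr : r ≤ q) :
    (n : ℝ) ^ 2 / (n + (∑ i, (w i : ℝ)) * x) ≤ lam * T + x * ∑ k, β k + q ∨
    (∃ (f : ℕ → Fin n) (g : ℕ → Fin N), (∀ s < r, ∀ s' < r, g s = g s' → s = s') ∧
      ∀ s < r, x < qf (AG lam Γ (Hm (univ.erase (f s)) (fun i k => Real.sqrt (w i) * a i k)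
        (fun k => β k + x⁻¹ * fcnt g s k))) (Γ (g s)) ∧
        ti (AG lam Γ (Hm (univ.erase (f s)) (fun i k => Real.sqrt (w i) * a i k)
        (fun k => β k + x⁻¹ * fcnt g s k))) ≤ T + 1 / lam) := by
  induction r with
  | zero =>
    right
    exact ⟨fun _ => ⟨0, hn⟩, fun _ => ⟨0, hN⟩, by simp, by simp⟩
  | succ r ih =>
    rcases ih (by omega) with h | ⟨f, g, hinj, hbad⟩
    · exact Or.inl h
    set b : Fin n → Fin N → ℝ := fun i k => Real.sqrt (w i) * a i k with hb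
    have hxi : 0 < x⁻¹ := inv_pos.mpr hx
    have hβ'0 : ∀ k, 0 ≤ β k + x⁻¹ * (fcnt g r k : ℝ) := fun k =>
      add_nonneg (hβ k) (mul_nonneg hxi.le (Nat.cast_nonneg _))
    by_cases hex : ∃ i k, x < qf (AG lam Γ (Hm (univ.erase i) b
        (fun k => β k + x⁻¹ * fcnt g r k))) (Γ k)
    · obtain ⟨i, k, hik⟩ := hex
      right
      have hnew : ∀ s < r, g s ≠ k := by
        intro s hs hsk
        have h1 : x⁻¹ ≤ β k + x⁻¹ * (fcnt g r k : ℝ) := by
          have h2 : (1 : ℝ) ≤ fcnt g r k := by exact_mod_cast fcnt_pos hs hsk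
          have h3 : x⁻¹ ≤ x⁻¹ * (fcnt g r k : ℝ) := le_mul_of_one_le_right hxi.le h2
          linarith [hβ k]
        have h4 := qf_le_inv hlam Γ (univ.erase i) b hβ'0 hxi h1
        rw [inv_inv] at h4
        linarith
      refine ⟨fun s => if s = r then i else f s, fun s => if s = r then k else g s, ?_, ?_⟩
      · intro s hs s' hs' hss
        by_cases h1 : s = r
        · by_cases h2 : s' = r
          · rw [h1, h2]
          · exfalso
            simp only [h1, h2, if_true, if_false] at hss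
            exact hnew s' (by omega) hss.symm
        · by_cases h2 : s' = r
          · exfalso
            simp only [h1, h2, if_true, if_false] at hss
            exact hnew s (by omega) hss
          · simp only [h1, h2, if_false] at hss
            exact hinj s (by omega) s' (by omega) hss
      · intro s hs
        have hcg : ∀ k', fcnt (fun s => if s = r then k else g s) s k' = fcnt g s k' := by
          intro k'
          refine fcnt_congr (fun s' hs' => ?_) k'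
          have : s' ≠ r := by omega
          simp [this]
        simp only [hcg]
        by_cases h1 : s = r
        · subst h1
          simp only [if_true]
          refine ⟨hik, ?_⟩
          have hpdi : (AG lam Γ (Hm (univ.erase i) b
            (fun k => β k + x⁻¹ * fcnt g s k))).PosDef :=
            posDef_AG hlam Γ (posSemidef_Hm _ b hβ'0)
          have h5 := ti_le_add hpdi hlam
            (le_AG lam Γ (posSemidef_Hm (univ.erase i) b hβ'0)) (Γᵀ *ᵥ b i)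
          rw [← AG_Hm_erase lam Γ (mem_univ i) b _] at h5
          have h6 := fs_ti Γ hlam b hβ (β' := fun k => β k + x⁻¹ * fcnt g s k) (fun k => by
            have : (0 : ℝ) ≤ x⁻¹ * fcnt g s k := mul_nonneg hxi.le (Nat.cast_nonneg _)
            linarith)
          linarith
        · simp only [h1, if_false]
          exact hbad s (by omega)
    · push Not at hex
      left
      exact fs_first hn Γ hlam hx w a ha β hβ q T hT (fcnt g r)
        (by rw [fcnt_sum]; omega) hex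

theorem final_step {N n : ℕ} (hn : 1 ≤ n) (Γ : Matrix (Fin N) (Fin n) ℝ) {lam x : ℝ}
    (hlam : 0 < lam) (hx : 0 < x) (w : Fin n → ℕ) (a : Fin n → Fin N → ℝ)
    (ha : ∀ i, ∑ k, |a i k| ≤ 1) (β : Fin N → ℝ) (hβ : ∀ k, 0 ≤ β k) (q : ℕ) (hq : 1 ≤ q) (T : ℝ)
    (hT : ti (AG lam Γ (Hm univ (fun i k => Real.sqrt (w i) * a i k) β)) ≤ T)
    (b' : Fin n → Fin N → ℝ) :
    (n : ℝ) ^ 2 / (n + (∑ i, (w i : ℝ)) * x) ≤ lam * T + x * ∑ k, β k + q ∨
    (∃ (i : Fin q → Fin n) (j : Fin q → Fin N), Function.Injective j ∧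
      Bad Γ lam x (T + 1 / lam) (fun i k => Real.sqrt (w i) * a i k) b' (fun _ => Fin.last q) β
        i j) := by
  rcases Nat.eq_zero_or_pos N with hN | hN
  · subst hN
    left
    exact fs_first hn Γ hlam hx w a ha β hβ q T hT (fun _ => 0) (by simp)
      (fun i k => k.elim0)
  rcases fs_induct hN hn Γ hlam hx w a ha β hβ q T hT q le_rfl with h | ⟨f, g, hinj, hbad⟩
  · exact Or.inl h
  right
  refine ⟨fun s => f s, fun s => g s, ?_, ?_⟩
  · intro s s' hss
    exact Fin.ext (hinj s s.2 s' s'.2 hss)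
  · intro r
    have hw' : wadd β x⁻¹ (fun s : Fin q => g s) r = fun k => β k + x⁻¹ * (fcnt g r k : ℝ) := by
      funext k
      unfold wadd fcnt
      congr 3
      refine Finset.card_bij (fun s _ => (s : ℕ)) ?_ ?_ ?_
      · intro s hs
        simp only [mem_filter, mem_univ, true_and, Finset.mem_range] at hs ⊢
        exact ⟨hs.1, hs.2⟩
      · intro s _ s' _ h
        exact Fin.ext h
      · intro s hs
        simp only [mem_filter, Finset.mem_range] at hs
        refine ⟨⟨s, hs.1.trans r.2⟩, ?_, rfl⟩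
        simp only [mem_filter, mem_univ, true_and]
        exact ⟨hs.1, hs.2⟩
    have hH : HA (fun i k => Real.sqrt (w i) * a i k) b' (fun _ => Fin.last q) β x⁻¹
        (fun s : Fin q => f s) (fun s : Fin q => g s) r =
        Hm (univ.erase (f r)) (fun i k => Real.sqrt (w i) * a i k)
          (fun k => β k + x⁻¹ * (fcnt g r k : ℝ)) := by
      unfold HA
      rw [hw']
      congr 1
      funext a'
      have : ¬ ((Fin.last q : Fin (q + 1)) : ℕ) ≤ (r : ℕ) := by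
        simp only [Fin.val_last, not_le]
        exact r.2
      rw [if_neg this]
    rw [hH]
    exact hbad r r.2

end Pool.Agent.LL
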