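import Pool.Agent.Helper38.LL.PR
import Pool.Agent.Helper38.LL.FS
import Pool.Agent.Helper38.LL.CN

/-!
LL-CH. The chain. `lam = n/(200 M²)`, `δ = 1/100`, levels `x s = 200 M²/2^s`, `16 M ≤ x S < 32 M`.
Stage 0: `process` with `x = x 0 = n/lam`, `β = 0`, `q = 1`, `P = pl 0`; an addition is impossible since
`qf .. (Γ k) ≤ |Γ k|²/lam = n/lam` (`qf_le_div`; the entries of `Γ = GM G` are signs).
Stage `1 ≤ s < S`: from a design `b` (`IsPk w (pl (s-1)) b`), weights `wJ n lam s J`, `(J t).card ≤ ql t`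
for `1 ≤ t < s`, `J 0 = ∅`, `ti ≤ M exp (2 ∑_{t<s} ε t)`: `process` with `x s`, `ε s = el s`, `q = ql s`,
`P = pl s` (`W ≤ 2n`); the second alternative contradicts `Good s`, because
`2 M + 1/lam ≤ 3 M`; `J s` := the new set. `2 ∑ ε t ≤ 2 δ · 0.86 ≤ log 2`.
End: `final_step` at `x S` (with `q = ql S`): the second alternative contradicts `Good S`; the first
one reads `n/(65 M) ≤ n²/(n + 2n x S) ≤ 2 lam M + x S ∑_{t<S} ql t/x t + ql S ≤ (2 + 0.2) lam M
= 2.2 n/(200 M)`: contradiction. (`ql t ≤ δ lam √(M x t)`, `∑_{t ≤ S} (x t)^(-1/2) ≤ 3.42 (x S)^(-1/2)`.)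
-/

namespace Pool.Agent.LL

open Finset Matrix

namespace CHaux

lemma sg_sq (b : Bool) : sg b * sg b = 1 := by
  cases b <;> simp [sg]

lemma GM_dot {N n : ℕ} (G : Fin N → Fin n → Bool) (k : Fin N) :
    GM G k ⬝ᵥ GM G k = n := by
  simp [dotProduct, GM, sg_sq]

lemma wadd_nonneg {N q : ℕ} {β : Fin N → ℝ} (hβ : ∀ k, 0 ≤ β k) {c : ℝ} (hc : 0 ≤ c)
    (j : Fin q → Fin N) (r : Fin q) (k : Fin N) : 0 ≤ wadd β c j r k := by
  unfold wadd
  have := hβ k
  positivity

lemma bad_mono {N n q : ℕ} {Γ : Matrix (Fin N) (Fin n) ℝ} {lam x T T' : ℝ}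
    {b b' : Fin n → Fin N → ℝ} {τ : Fin n → Fin (q + 1)} {β : Fin N → ℝ} {i : Fin q → Fin n}
    {j : Fin q → Fin N} (hT : T ≤ T') (h : Bad Γ lam x T b b' τ β i j) :
    Bad Γ lam x T' b b' τ β i j := fun r => ⟨(h r).1, (h r).2.trans hT⟩

lemma no_bad_zero {N n : ℕ} (G : Fin N → Fin n → Bool) {lam T : ℝ} (hlam : 0 < lam)
    (hn : (0 : ℝ) < n)
    {b b' : Fin n → Fin N → ℝ} {τ : Fin n → Fin (1 + 1)} {β : Fin N → ℝ} (hβ : ∀ k, 0 ≤ β k)
    {i : Fin 1 → Fin n} {j : Fin 1 → Fin N} {x : ℝ} (hx : x = n / lam)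
    (h : Bad (GM G) lam x T b b' τ β i j) : False := by
  have h1 := (h 0).1
  have hx0 : 0 < x := by rw [hx]; positivity
  have hH : (HA b b' τ β x⁻¹ i j 0).PosSemidef :=
    posSemidef_Hm _ _ (wadd_nonneg hβ (by positivity) j 0)
  have h2 := qf_le_div (posDef_AG hlam (GM G) hH) hlam (le_AG lam (GM G) hH) (GM G (j 0))
  rw [GM_dot, ← hx] at h2
  linarith

lemma wJ_nonneg {N : ℕ} {n : ℕ} {lam : ℝ} (hlam : 0 < lam) (s : ℕ) (J : ℕ → Finset (Fin N))
    (k : Fin N) : 0 ≤ wJ n lam s J k := by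
  unfold wJ
  refine Finset.sum_nonneg fun t _ => ?_
  split_ifs
  · unfold xl; positivity
  · exact le_rfl

lemma wJ_update {N : ℕ} {n : ℕ} {lam : ℝ} (s : ℕ) (J : ℕ → Finset (Fin N)) (J' : Finset (Fin N)) :
    wJ n lam (s + 1) (Function.update J s J') =
      fun k => wJ n lam s J k + if k ∈ J' then (xl n lam s)⁻¹ else 0 := by
  funext k
  unfold wJ
  rw [Finset.sum_range_succ, Function.update_self]
  congr 1
  refine Finset.sum_congr rfl fun t ht => ?_
  rw [Function.update_of_ne (ne_of_lt (Finset.mem_range.1 ht))]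

lemma sum_wJ {N : ℕ} {n : ℕ} {lam : ℝ} (s : ℕ) (J : ℕ → Finset (Fin N)) :
    ∑ k, wJ n lam s J k = ∑ t ∈ range s, ((J t).card : ℝ) * (xl n lam t)⁻¹ := by
  unfold wJ
  rw [Finset.sum_comm]
  refine Finset.sum_congr rfl fun t _ => ?_
  rw [Finset.sum_ite_mem, Finset.univ_inter, Finset.sum_const, nsmul_eq_mul]

/-- `√(M/x_t)`. -/
noncomputable def yy (n : ℕ) (lam M : ℝ) (t : ℕ) : ℝ := Real.sqrt (M / xl n lam t)

lemma yy_nonneg (n : ℕ) (lam M : ℝ) (t : ℕ) : 0 ≤ yy n lam M t := Real.sqrt_nonneg _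

lemma yy_succ (n : ℕ) (lam M : ℝ) (t : ℕ) : yy n lam M (t + 1) = Real.sqrt 2 * yy n lam M t := by
  unfold yy
  rw [← Real.sqrt_mul (by norm_num)]
  congr 1
  unfold xl
  rw [pow_succ, ← div_div, div_div_eq_mul_div]
  ring

lemma sum_yy (n : ℕ) (lam M : ℝ) (s : ℕ) :
    ∑ t ∈ range s, yy n lam M t ≤ 2.42 * yy n lam M s := by
  induction s with
  | zero => simp; exact mul_nonneg (by norm_num) (yy_nonneg _ _ _ _)
  | succ s ih =>
    rw [Finset.sum_range_succ, yy_succ]
    have h2 : (1.4142 : ℝ) ≤ Real.sqrt 2 := by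
      rw [Real.le_sqrt (by norm_num) (by norm_num)]; norm_num
    nlinarith [yy_nonneg n lam M s]

lemma sum_yy_mono {n : ℕ} {lam M : ℝ} {s S : ℕ} (h : s ≤ S) :
    ∑ t ∈ range s, yy n lam M t ≤ ∑ t ∈ range S, yy n lam M t :=
  Finset.sum_le_sum_of_subset_of_nonneg (Finset.range_mono h) fun _ _ _ => yy_nonneg _ _ _ _

end CHaux

open CHaux

theorem chain {N n : ℕ} (hN : 0 < N) (G : Fin N → Fin n → Bool) {M : ℝ} (hM : 1 ≤ M)
    (hn : 200 * M ≤ n) (hn3 : M ^ 3 ≤ n) (S : ℕ)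
    (hS1 : 16 * M ≤ xl n (n / (200 * M ^ 2)) S) (hS2 : xl n (n / (200 * M ^ 2)) S < 32 * M)
    (hgood : ∀ s, 1 ≤ s → s ≤ S → Good (GM G) (n / (200 * M ^ 2)) M (1 / 100) s)
    (hq : ∀ s, 1 ≤ s → s ≤ S → 1 ≤ ql n (n / (200 * M ^ 2)) M (1 / 100) s)
    (w : Fin n → ℕ) (hw : ∀ i, 1 ≤ w i) (hw2 : ∑ i, w i ≤ 2 * n)
    (a : Fin n → Fin N → ℝ) (ha : ∀ i, ∑ k, |a i k| ≤ 1)
    (hT : ti (AG (n / (200 * M ^ 2)) (GM G) (Hm univ (fun i k => Real.sqrt (w i) * a i k) 0)) ≤ M) :
    False := by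
  have hM0 : (0 : ℝ) < M := by linarith
  have hn0 : (0 : ℝ) < n := by linarith
  have hn1 : 1 ≤ n := by
    rcases Nat.eq_zero_or_pos n with h | h
    · subst h; simp at hn0
    · exact h
  obtain ⟨lam, hlamdef⟩ : ∃ lam : ℝ, lam = n / (200 * M ^ 2) := ⟨_, rfl⟩
  rw [← hlamdef] at hS1 hS2 hgood hq hT
  have hlam : 0 < lam := by rw [hlamdef]; positivity
  have hnl : (n : ℝ) / lam = 200 * M ^ 2 := by
    rw [hlamdef]; field_simp
  have hlamM : 1 / lam ≤ M := by
    rw [hlamdef, one_div_div, div_le_iff₀ hn0]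
    nlinarith
  have hx0 : ∀ t, 0 < xl n lam t := fun t => by unfold xl; rw [hnl]; positivity
  have hxl0 : xl n lam 0 = n / lam := by simp [xl]
  have hSne : S ≠ 0 := by
    rintro rfl
    rw [hxl0, hnl] at hS2
    nlinarith
  have hW : (∑ i, (w i : ℝ)) ≤ 2 * n := by exact_mod_cast hw2
  have hel : ∀ t, el n lam M (1 / 100) t = 1 / 100 * yy n lam M t := fun t => rfl
  have hyy : ∀ t, 0 < yy n lam M t := fun t => Real.sqrt_pos.2 (div_pos hM0 (hx0 t))
  have hel0 : ∀ t, 0 < el n lam M (1 / 100) t := fun t => by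
    rw [hel]; exact mul_pos (by norm_num) (hyy t)
  have hPl : ∀ s, (n : ℝ) + 2 * (∑ i, (w i : ℝ)) * xl n lam s / el n lam M (1 / 100) s <
      (pl n lam M (1 / 100) s : ℝ) + 1 := by
    intro s
    refine lt_of_le_of_lt ?_ (Nat.lt_floor_add_one _)
    have h1 : 2 * (∑ i, (w i : ℝ)) * xl n lam s ≤ 4 * n * xl n lam s :=
      mul_le_mul_of_nonneg_right (by linarith) (hx0 s).le
    have := div_le_div_of_nonneg_right h1 (hel0 s).le
    linarith
  -- the bound of `y_S`
  have hyS : yy n lam M S ≤ 1 / 4 := by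
    unfold yy
    rw [Real.sqrt_le_left (by norm_num), div_le_iff₀ (hx0 S)]
    nlinarith
  have hexp : ∀ s, s ≤ S → Real.exp (2 * ∑ t ∈ range s, el n lam M (1 / 100) t) ≤ 2 := by
    intro s hs
    have h1 := sum_yy_mono (n := n) (lam := lam) (M := M) hs
    have h2 := sum_yy n lam M S
    have h3 : 2 * ∑ t ∈ range s, el n lam M (1 / 100) t ≤ Real.log 2 := by
      simp only [hel]
      rw [← Finset.mul_sum]
      have := Real.log_two_gt_d9
      linarith
    calc Real.exp (2 * ∑ t ∈ range s, el n lam M (1 / 100) t) ≤ Real.exp (Real.log 2) :=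
          Real.exp_le_exp.2 h3
      _ = 2 := Real.exp_log (by norm_num)
  -- the claim
  have claim : ∀ s, 1 ≤ s → s ≤ S → ∃ (b : Fin n → Fin N → ℝ) (J : ℕ → Finset (Fin N)),
      IsPk w (pl n lam M (1 / 100) (s - 1)) b ∧
      (∀ t, t < s → (J t).card ≤ ql n lam M (1 / 100) t) ∧
      ti (AG lam (GM G) (Hm univ b (wJ n lam s J))) ≤
        M * Real.exp (2 * ∑ t ∈ range s, el n lam M (1 / 100) t) := by
    intro s hs1
    induction s, hs1 using Nat.le_induction with
    | base =>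
      intro _
      rcases process hN (GM G) hlam (hx0 0) (hel0 0) w hw a ha 0 (fun _ => le_rfl) 1 le_rfl
        (pl n lam M (1 / 100) 0) (hPl 0) M hT with ⟨b', J, hb', hJ, ht⟩ | ⟨b', τ, i, j, _, _, hbad⟩
      · refine ⟨b', fun _ => J, by simpa using hb', ?_, ?_⟩
        · intro t ht
          have : J.card = 0 := by omega
          simp [this]
        · have : wJ n lam 1 (fun _ => J) =
              fun k => (0 : Fin N → ℝ) k + if k ∈ J then (xl n lam 0)⁻¹ else 0 := by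
            funext k
            simp [wJ]
          rw [this]
          simpa using ht
      · exact (no_bad_zero G hlam hn0 (fun _ => le_rfl) hxl0 hbad).elim
    | succ s hs1 ih =>
      intro hsS
      obtain ⟨b, J, hb, hJ, ht⟩ := ih (by omega)
      obtain ⟨a', ha', rfl⟩ := isPk_coef hb
      rcases process hN (GM G) hlam (hx0 s) (hel0 s) w hw a' ha' (wJ n lam s J)
        (wJ_nonneg hlam s J) (ql n lam M (1 / 100) s) (hq s hs1 (by omega))
        (pl n lam M (1 / 100) s) (hPl s) _ ht with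
        ⟨b', J', hb', hJ', ht'⟩ | ⟨b', τ, i, j, hb', hj, hbad⟩
      · refine ⟨b', Function.update J s J', by simpa using hb', ?_, ?_⟩
        · intro t hts
          rcases Nat.lt_succ_iff_lt_or_eq.1 hts with h | h
          · rw [Function.update_of_ne (ne_of_lt h)]
            exact hJ t h
          · rw [h, Function.update_self]
            exact hJ'.le
        · rw [wJ_update]
          refine ht'.trans (le_of_eq ?_)
          rw [mul_assoc, ← Real.exp_add, Finset.sum_range_succ, mul_add]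
      · exfalso
        refine hgood s hs1 (by omega) w _ b' hw2 hb hb' τ J i j hj (bad_mono ?_ hbad)
        have h1 := hexp (s + 1) hsS
        rw [Finset.sum_range_succ, mul_add, Real.exp_add] at h1
        rw [mul_assoc]
        nlinarith
  obtain ⟨b, J, hb, hJ, ht⟩ := claim S (by omega) le_rfl
  obtain ⟨a', ha', rfl⟩ := isPk_coef hb
  have hnP : n ≤ pl n lam M (1 / 100) S := by
    unfold pl
    apply Nat.le_floor
    have : 0 ≤ 4 * n * xl n lam S / el n lam M (1 / 100) S :=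
      div_nonneg (mul_nonneg (by positivity) (hx0 S).le) (hel0 S).le
    linarith
  obtain ⟨b', hb'⟩ := exists_isPk (N := N) (by omega) w hnP
  have hT2 : M * Real.exp (2 * ∑ t ∈ range S, el n lam M (1 / 100) t) ≤ 2 * M := by
    nlinarith [hexp S le_rfl]
  rcases final_step hn1 (GM G) hlam (hx0 S) w a' ha' (wJ n lam S J) (wJ_nonneg hlam S J)
    (ql n lam M (1 / 100) S) (hq S (by omega) le_rfl) (2 * M) (ht.trans hT2) b' with
    hfin | ⟨i, j, hj, hbad⟩
  · -- the numerics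
    have hql : ∀ t, (ql n lam M (1 / 100) t : ℝ) ≤
        1 / 100 * lam * (yy n lam M t * xl n lam t) := by
      intro t
      refine (Nat.floor_le (by positivity)).trans (le_of_eq ?_)
      congr 1
      unfold yy
      rw [Real.sqrt_div hM0.le, Real.sqrt_mul hM0.le, div_mul_eq_mul_div, eq_div_iff]
      · rw [mul_assoc, Real.mul_self_sqrt (hx0 t).le]
      · exact (Real.sqrt_pos.2 (hx0 t)).ne'
    have h1 : xl n lam S * ∑ k, wJ n lam S J k ≤
        xl n lam S * (1 / 100 * lam * ∑ t ∈ range S, yy n lam M t) := by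
      refine mul_le_mul_of_nonneg_left ?_ (hx0 S).le
      rw [sum_wJ, Finset.mul_sum]
      refine Finset.sum_le_sum fun t htS => ?_
      have h2 : ((J t).card : ℝ) ≤ 1 / 100 * lam * (yy n lam M t * xl n lam t) :=
        le_trans (by exact_mod_cast hJ t (Finset.mem_range.1 htS)) (hql t)
      calc ((J t).card : ℝ) * (xl n lam t)⁻¹
          ≤ 1 / 100 * lam * (yy n lam M t * xl n lam t) * (xl n lam t)⁻¹ :=
            mul_le_mul_of_nonneg_right h2 (inv_nonneg.2 (hx0 t).le)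
        _ = 1 / 100 * lam * yy n lam M t := by
            field_simp [(hx0 t).ne']
    have h2 := sum_yy n lam M S
    have h3 : xl n lam S * (1 / 100 * lam * ∑ t ∈ range S, yy n lam M t) ≤
        xl n lam S * (1 / 100 * lam * (2.42 * yy n lam M S)) :=
      mul_le_mul_of_nonneg_left (mul_le_mul_of_nonneg_left h2 (by positivity)) (hx0 S).le
    have h4 := hql S
    have h5 : yy n lam M S * xl n lam S ≤ 5.66 * M := by
      have h6 : yy n lam M S * xl n lam S = Real.sqrt (M * xl n lam S) := by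
        unfold yy
        rw [Real.sqrt_div hM0.le, Real.sqrt_mul hM0.le, div_mul_eq_mul_div, div_eq_iff]
        · rw [mul_assoc, Real.mul_self_sqrt (hx0 S).le]
        · exact (Real.sqrt_pos.2 (hx0 S)).ne'
      rw [h6, Real.sqrt_le_left (by positivity)]
      nlinarith
    have h7 : xl n lam S * ∑ k, wJ n lam S J k + ql n lam M (1 / 100) S ≤ 0.2 * (lam * M) := by
      have h8 : lam * (yy n lam M S * xl n lam S) ≤ lam * (5.66 * M) :=
        mul_le_mul_of_nonneg_left h5 hlam.le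
      nlinarith
    have hlM : lam * M = n / (200 * M) := by
      rw [hlamdef]; field_simp
    have h9 : (n : ℝ) ^ 2 / (n + (∑ i, (w i : ℝ)) * xl n lam S) ≤ 2.2 * (n / (200 * M)) := by
      rw [← hlM]
      linarith
    have hWpos : 0 ≤ ∑ i, (w i : ℝ) := Finset.sum_nonneg fun i _ => by positivity
    have h10 : (n : ℝ) + (∑ i, (w i : ℝ)) * xl n lam S ≤ 65 * (n * M) := by
      have : (∑ i, (w i : ℝ)) * xl n lam S ≤ (2 * n) * (32 * M) :=
        mul_le_mul hW hS2.le (hx0 S).le (by positivity)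
      nlinarith
    have h11 : 0 < (n : ℝ) + (∑ i, (w i : ℝ)) * xl n lam S := by
      have := mul_nonneg hWpos (hx0 S).le
      linarith
    rw [div_le_iff₀ h11] at h9
    have h12 : 2.2 * ((n : ℝ) / (200 * M)) * (n + (∑ i, (w i : ℝ)) * xl n lam S) ≤
        2.2 * (n / (200 * M)) * (65 * (n * M)) :=
      mul_le_mul_of_nonneg_left h10 (by positivity)
    have h13 : 2.2 * ((n : ℝ) / (200 * M)) * (65 * (n * M)) = 0.715 * n ^ 2 := by
      field_simp
      ring
    nlinarith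
  · refine hgood S (by omega) le_rfl w _ b' hw2 hb hb' (fun _ => Fin.last _) J i j hj
      (bad_mono ?_ hbad)
    linarith

end Pool.Agent.LL
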