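import Mathlib

/-!
Lossless lower bound for the maximal Banach-Mazur distance to the cube (MP_a64d16_an, helper38):
definitions. Everything is finite: the spikes are vectors of signs.
-/

namespace Pool.Agent.LL

open Finset Matrix

noncomputable section

/-- The sign of a boolean. -/
def sg (b : Bool) : ℝ := if b then 1 else -1

/-- The vector of signs of a vector of booleans. -/
def sv {n : ℕ} (a : Fin n → Bool) : Fin n → ℝ := fun i => sg (a i)

/-- The matrix whose row `j` is the spike number `j`. -/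
def GM {N n : ℕ} (G : Fin N → Fin n → Bool) : Matrix (Fin N) (Fin n) ℝ := fun j i => sg (G j i)

/-- The rank one matrix `v vᵀ`. -/
def r1 {n : ℕ} (v : Fin n → ℝ) : Matrix (Fin n) (Fin n) ℝ := vecMulVec v v

/-- The quadratic form of the inverse, `vᵀ A⁻¹ v`. -/
def qf {n : ℕ} (A : Matrix (Fin n) (Fin n) ℝ) (v : Fin n → ℝ) : ℝ := v ⬝ᵥ (A⁻¹ *ᵥ v)

/-- The trace of the inverse. -/
def ti {n : ℕ} (A : Matrix (Fin n) (Fin n) ℝ) : ℝ := (A⁻¹).trace

/-- `lam + Γᵀ H Γ`. -/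
def AG {N n : ℕ} (lam : ℝ) (Γ : Matrix (Fin N) (Fin n) ℝ) (H : Matrix (Fin N) (Fin N) ℝ) :
    Matrix (Fin n) (Fin n) ℝ :=
  lam • (1 : Matrix (Fin n) (Fin n) ℝ) + Γᵀ * H * Γ

/-- The coefficient matrix of a design: rows `b a`, `a ∈ S`, and weights `β k` on the spikes. -/
def Hm {N n : ℕ} (S : Finset (Fin n)) (b : Fin n → Fin N → ℝ) (β : Fin N → ℝ) :
    Matrix (Fin N) (Fin N) ℝ :=
  ∑ a ∈ S, r1 (b a) + diagonal β

/-- `b'` consists of means of picks: row `i` is `√(w i)` times the mean of `L i ≥ 1` signed unit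
vectors, and there are at most `P` picks altogether. -/
def IsPk {N n : ℕ} (w : Fin n → ℕ) (P : ℕ) (b : Fin n → Fin N → ℝ) : Prop :=
  ∃ L : Fin n → ℕ, (∀ i, 1 ≤ L i) ∧ ∑ i, L i ≤ P ∧
    ∃ p : ∀ i, Fin (L i) → Fin N × Bool,
      ∀ i, b i = fun k => Real.sqrt (w i) * ((L i : ℝ)⁻¹ *
        ∑ l, if (p i l).1 = k then sg (p i l).2 else 0)

/-- The weights of the added spikes: `β` plus `c` on each of `j s`, `s < r`. -/
def wadd {N q : ℕ} (β : Fin N → ℝ) (c : ℝ) (j : Fin q → Fin N) (r : Fin q) : Fin N → ℝ :=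
  fun k => β k + c * (((univ : Finset (Fin q)).filter (fun s => s < r ∧ j s = k)).card : ℝ)

/-- The coefficient matrix of the design at the addition number `r`: the row `i r` is removed, the
rows `a` with `τ a ≤ r` are the new ones. -/
def HA {N n q : ℕ} (b b' : Fin n → Fin N → ℝ) (τ : Fin n → Fin (q + 1)) (β : Fin N → ℝ) (c : ℝ)
    (i : Fin q → Fin n) (j : Fin q → Fin N) (r : Fin q) : Matrix (Fin N) (Fin N) ℝ :=
  Hm (univ.erase (i r)) (fun a => if (τ a : ℕ) ≤ r then b' a else b a) (wadd β c j r)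

/-- `q` consecutive additions at threshold `x`: each added spike has a form `> x`, and the trace of
the inverse is at most `T`. -/
def Bad {N n q : ℕ} (Γ : Matrix (Fin N) (Fin n) ℝ) (lam x T : ℝ) (b b' : Fin n → Fin N → ℝ)
    (τ : Fin n → Fin (q + 1)) (β : Fin N → ℝ) (i : Fin q → Fin n) (j : Fin q → Fin N) : Prop :=
  ∀ r : Fin q, x < qf (AG lam Γ (HA b b' τ β x⁻¹ i j r)) (Γ (j r)) ∧
    ti (AG lam Γ (HA b b' τ β x⁻¹ i j r)) ≤ T

/-- The levels `x s = (n / lam) / 2 ^ s`. -/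
def xl (n : ℕ) (lam : ℝ) (s : ℕ) : ℝ := n / lam / 2 ^ s

/-- The accuracy at level `s`: `δ √(M / x s)`. -/
def el (n : ℕ) (lam M δ : ℝ) (s : ℕ) : ℝ := δ * Real.sqrt (M / xl n lam s)

/-- The number of additions allowed at level `s`: `⌊δ lam √(M x s)⌋`. -/
def ql (n : ℕ) (lam M δ : ℝ) (s : ℕ) : ℕ := ⌊δ * lam * Real.sqrt (M * xl n lam s)⌋₊

/-- The number of picks produced by the stage `s` (from level `s` on): `⌊n + 4 n x s / ε s⌋`. -/
def pl (n : ℕ) (lam M δ : ℝ) (s : ℕ) : ℕ := ⌊n + 4 * n * xl n lam s / el n lam M δ s⌋₊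

/-- The weights of the spikes added in the stages `t < s`. -/
def wJ {N : ℕ} (n : ℕ) (lam : ℝ) (s : ℕ) (J : ℕ → Finset (Fin N)) : Fin N → ℝ :=
  fun k => ∑ t ∈ range s, if k ∈ J t then (xl n lam t)⁻¹ else 0

/-- The event of stage `s ≥ 1`: there is no bad configuration. -/
def Good {N n : ℕ} (Γ : Matrix (Fin N) (Fin n) ℝ) (lam M δ : ℝ) (s : ℕ) : Prop :=
  ∀ (w : Fin n → ℕ) (b b' : Fin n → Fin N → ℝ), ∑ i, w i ≤ 2 * n →
    IsPk w (pl n lam M δ (s - 1)) b → IsPk w (pl n lam M δ s) b' →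
    ∀ (τ : Fin n → Fin (ql n lam M δ s + 1)) (J : ℕ → Finset (Fin N))
      (i : Fin (ql n lam M δ s) → Fin n) (j : Fin (ql n lam M δ s) → Fin N),
      Function.Injective j → ¬ Bad Γ lam (xl n lam s) (3 * M) b b' τ (wJ n lam s J) i j

end

end Pool.Agent.LL
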