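import Pool.Agent.Helper38.LL.Defs

/-!
LL-IS. Isotropy of random signs. By homogeneity `|v| = 1`. Let `K = 320 n` and
`v'_i = ⌊K v_i⌋ / K`; then `|v - v'|_1 ≤ n/K = 1/320`, `|v'| ≥ 0.99`, and there are at most
`(2K+1)^n ≤ (641 n)^n` possible `v'`. As `|⟨g, v - v'⟩| ≤ |v - v'|_1`, it is enough that
`∑_j |⟨g_j, v'⟩| ≥ N/160` for all `v'`. For fixed `z = v'`, `s = |z|`, `t = ⟨g, z⟩`:
`E t² = s²`, `E t⁴ ≤ 3 s⁴`, `|t| ≥ s ((3/4)(t/s)² - (t/s)⁴/16)` (since `(y-2)²(y+4) ≥ 0`), so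
`E |t| ≥ (9/16) s`, `E exp (-τ|t|) ≤ 1 - (9/16) τ s + τ² s²/2 = 1 - 81/512` for `τ = 9/(16 s)`, and
`P (∑ |t_j| < N/160) ≤ exp (τ N/160) (1 - 81/512)^N ≤ exp (-N/10)`. Union bound.
-/

namespace Pool.Agent.LL

open Finset Matrix

private lemma is_moments : ∀ (n : ℕ) (z : Fin n → ℝ),
    (∑ g : Fin n → Bool, (∑ i, sg (g i) * z i) ^ 2 = 2 ^ n * ∑ i, z i ^ 2) ∧
    (∑ g : Fin n → Bool, (∑ i, sg (g i) * z i) ^ 4 ≤ 3 * 2 ^ n * (∑ i, z i ^ 2) ^ 2) := by
  intro n
  induction n with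
  | zero => intro z; simp
  | succ n ih =>
    intro z
    have hsplit : ∀ F : ℝ → ℝ, ∑ g : Fin (n + 1) → Bool, F (∑ i, sg (g i) * z i)
        = ∑ g : Fin n → Bool, (F (z 0 + ∑ i, sg (g i) * z i.succ)
          + F (-z 0 + ∑ i, sg (g i) * z i.succ)) := by
      intro F
      rw [← (Fin.consEquiv (fun _ : Fin (n + 1) => Bool)).sum_comp, Fintype.sum_prod_type,
        Fintype.sum_bool, ← Finset.sum_add_distrib]
      refine Finset.sum_congr rfl fun g _ => ?_
      simp only [Fin.consEquiv_apply, Fin.sum_univ_succ, Fin.cons_zero, Fin.cons_succ]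
      simp [sg]
    obtain ⟨ih2, ih4⟩ := ih (fun i => z i.succ)
    rw [hsplit (fun t => t ^ 2), hsplit (fun t => t ^ 4), Fin.sum_univ_succ]
    set S := ∑ i : Fin n, z i.succ ^ 2 with hS
    have hS0 : 0 ≤ S := Finset.sum_nonneg fun i _ => sq_nonneg _
    have hcard : ∑ _g : Fin n → Bool, (1 : ℝ) = 2 ^ n := by simp
    constructor
    · have h1 : ∀ g : Fin n → Bool, ((z 0 + ∑ i, sg (g i) * z i.succ) ^ 2
          + (-z 0 + ∑ i, sg (g i) * z i.succ) ^ 2)
          = 2 * z 0 ^ 2 * 1 + 2 * (∑ i, sg (g i) * z i.succ) ^ 2 := fun g => by ring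
      rw [Finset.sum_congr rfl fun g _ => h1 g, Finset.sum_add_distrib, ← Finset.mul_sum,
        ← Finset.mul_sum, ih2, hcard]
      ring
    · have h1 : ∀ g : Fin n → Bool, ((z 0 + ∑ i, sg (g i) * z i.succ) ^ 4
          + (-z 0 + ∑ i, sg (g i) * z i.succ) ^ 4)
          = 2 * z 0 ^ 4 * 1 + (12 * z 0 ^ 2) * (∑ i, sg (g i) * z i.succ) ^ 2
            + 2 * (∑ i, sg (g i) * z i.succ) ^ 4 := fun g => by ring
      rw [Finset.sum_congr rfl fun g _ => h1 g, Finset.sum_add_distrib, Finset.sum_add_distrib,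
        ← Finset.mul_sum, ← Finset.mul_sum, ← Finset.mul_sum, ih2, hcard]
      have h2 : (0 : ℝ) < 2 ^ n := by positivity
      have h3 : 2 * ∑ g : Fin n → Bool, (∑ i, sg (g i) * z i.succ) ^ 4
          ≤ 2 * (3 * 2 ^ n * S ^ 2) := by linarith
      have h4 : 0 ≤ z 0 ^ 4 := by positivity
      calc 2 * z 0 ^ 4 * 2 ^ n + 12 * z 0 ^ 2 * (2 ^ n * S)
            + 2 * ∑ g : Fin n → Bool, (∑ i, sg (g i) * z i.succ) ^ 4
          ≤ 2 * z 0 ^ 4 * 2 ^ n + 12 * z 0 ^ 2 * (2 ^ n * S) + 2 * (3 * 2 ^ n * S ^ 2) := by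
            linarith
        _ ≤ 3 * 2 ^ (n + 1) * (z 0 ^ 2 + S) ^ 2 := by
            have h5 : 3 * 2 ^ (n + 1) * (z 0 ^ 2 + S) ^ 2
                - (2 * z 0 ^ 4 * 2 ^ n + 12 * z 0 ^ 2 * (2 ^ n * S) + 2 * (3 * 2 ^ n * S ^ 2))
                = 4 * (2 ^ n * z 0 ^ 4) := by ring
            have h6 : 0 ≤ 2 ^ n * z 0 ^ 4 := by positivity
            linarith

private lemma is_exp_neg {y : ℝ} (hy : 0 ≤ y) : Real.exp (-y) ≤ 1 - y + y ^ 2 / 2 := by
  have h1 : 1 + y + y ^ 2 / 2 ≤ Real.exp y := Real.quadratic_le_exp_of_nonneg hy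
  have h2 : 0 < 1 + y + y ^ 2 / 2 := by positivity
  rw [Real.exp_neg]
  calc (Real.exp y)⁻¹ ≤ (1 + y + y ^ 2 / 2)⁻¹ := inv_anti₀ h2 h1
    _ ≤ 1 - y + y ^ 2 / 2 := by
        rw [inv_le_iff_one_le_mul₀ h2]
        nlinarith [sq_nonneg (y ^ 2)]

private lemma is_one (n : ℕ) (z : Fin n → ℝ) {s : ℝ} (hs : 0 < s) (hz : ∑ i, z i ^ 2 = s ^ 2) :
    ∑ g : Fin n → Bool, Real.exp (-(9 / (16 * s) * |∑ i, sg (g i) * z i|))
      ≤ 2 ^ n * (431 / 512) := by
  obtain ⟨h2, h4⟩ := is_moments n z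
  rw [hz] at h2 h4
  have hτ : 0 < 9 / (16 * s) := by positivity
  set τ := 9 / (16 * s) with hτdef
  have hτs : τ * s = 9 / 16 := by rw [hτdef]; field_simp
  have hcard : ∑ _g : Fin n → Bool, (1 : ℝ) = 2 ^ n := by simp
  set t : (Fin n → Bool) → ℝ := fun g => ∑ i, sg (g i) * z i with ht
  have habs : 2 ^ n * (9 / 16) * s ≤ ∑ g, |t g| := by
    have h5 : ∀ g, 3 / 4 * s ^ 2 * t g ^ 2 - 1 / 16 * t g ^ 4 ≤ s ^ 3 * |t g| := by
      intro g
      have h6 : 0 ≤ |t g| * ((|t g| - 2 * s) ^ 2 * (|t g| + 4 * s)) := by positivity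
      have h7 : t g ^ 2 = |t g| ^ 2 := (sq_abs _).symm
      have h8 : t g ^ 4 = |t g| ^ 4 := by
        rw [show (4 : ℕ) = 2 * 2 from rfl, pow_mul, pow_mul, sq_abs]
      rw [h7, h8]
      nlinarith
    have h9 := Finset.sum_le_sum fun g (_ : g ∈ (Finset.univ : Finset (Fin n → Bool))) => h5 g
    rw [Finset.sum_sub_distrib, ← Finset.mul_sum, ← Finset.mul_sum, ← Finset.mul_sum, h2] at h9
    have hs3 : 0 < s ^ 3 := by positivity
    have h10 : s ^ 3 * (2 ^ n * (9 / 16) * s) ≤ s ^ 3 * ∑ g, |t g| := by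
      refine le_trans ?_ h9
      have : 3 / 4 * s ^ 2 * (2 ^ n * s ^ 2) - 1 / 16 * (3 * 2 ^ n * (s ^ 2) ^ 2)
          ≤ 3 / 4 * s ^ 2 * (2 ^ n * s ^ 2) - 1 / 16 * ∑ g, t g ^ 4 := by linarith
      refine le_trans (le_of_eq ?_) this
      ring
    exact le_of_mul_le_mul_left h10 hs3
  calc ∑ g, Real.exp (-(τ * |t g|))
      ≤ ∑ g, (1 - τ * |t g| + τ ^ 2 / 2 * t g ^ 2) := by
        refine Finset.sum_le_sum fun g _ => ?_
        refine (is_exp_neg (by positivity)).trans (le_of_eq ?_)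
        rw [mul_pow, sq_abs]; ring
    _ = 2 ^ n - τ * ∑ g, |t g| + τ ^ 2 / 2 * (2 ^ n * s ^ 2) := by
        rw [Finset.sum_add_distrib, Finset.sum_sub_distrib, hcard, ← Finset.mul_sum,
          ← Finset.mul_sum, h2]
    _ ≤ 2 ^ n - τ * (2 ^ n * (9 / 16) * s) + τ ^ 2 / 2 * (2 ^ n * s ^ 2) := by
        have := mul_le_mul_of_nonneg_left habs hτ.le
        linarith
    _ = 2 ^ n * (1 - 9 / 16 * (τ * s) + (τ * s) ^ 2 / 2) := by ring
    _ = 2 ^ n * (431 / 512) := by rw [hτs]; norm_num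

open Classical in
private lemma is_fixed {N n : ℕ} (z : Fin n → ℝ) {s : ℝ} (hs : 99 / 100 ≤ s)
    (hz : ∑ i, z i ^ 2 = s ^ 2) :
    (((univ : Finset (Fin N → Fin n → Bool)).filter (fun G =>
      ∑ j, |GM G j ⬝ᵥ z| < (N : ℝ) / 160)).card : ℝ) ≤ 2 ^ (N * n) * Real.exp (-(N / 10 : ℝ)) := by
  have hs0 : 0 < s := by linarith
  set τ := 9 / (16 * s) with hτdef
  have hτ : 0 < τ := by positivity
  have hτ1 : τ ≤ 4 / 7 := by
    rw [hτdef, div_le_div_iff₀ (by positivity) (by norm_num)]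
    linarith
  have h1 := is_one n z hs0 hz
  have hdot : ∀ (G : Fin N → Fin n → Bool) (j : Fin N),
      GM G j ⬝ᵥ z = ∑ i, sg (G j i) * z i := fun G j => rfl
  calc (((univ : Finset (Fin N → Fin n → Bool)).filter (fun G =>
      ∑ j, |GM G j ⬝ᵥ z| < (N : ℝ) / 160)).card : ℝ)
      = ∑ G ∈ (univ : Finset (Fin N → Fin n → Bool)).filter (fun G =>
      ∑ j, |GM G j ⬝ᵥ z| < (N : ℝ) / 160), (1 : ℝ) := by simp
    _ ≤ ∑ G ∈ (univ : Finset (Fin N → Fin n → Bool)).filter (fun G =>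
      ∑ j, |GM G j ⬝ᵥ z| < (N : ℝ) / 160),
        Real.exp (τ * (N / 160)) * ∏ j, Real.exp (-(τ * |∑ i, sg (G j i) * z i|)) := by
        refine Finset.sum_le_sum fun G hG => ?_
        rw [Finset.mem_filter] at hG
        rw [← Real.exp_sum, ← Real.exp_add]
        apply Real.one_le_exp
        rw [Finset.sum_neg_distrib, ← Finset.mul_sum]
        have h2 := hG.2
        simp only [hdot] at h2
        nlinarith
    _ ≤ ∑ G : Fin N → Fin n → Bool,
        Real.exp (τ * (N / 160)) * ∏ j, Real.exp (-(τ * |∑ i, sg (G j i) * z i|)) := by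
        refine Finset.sum_le_sum_of_subset_of_nonneg (Finset.filter_subset _ _) fun G _ _ => ?_
        exact mul_nonneg (Real.exp_nonneg _) (Finset.prod_nonneg fun j _ => Real.exp_nonneg _)
    _ = Real.exp (τ * (N / 160)) *
        (∑ g : Fin n → Bool, Real.exp (-(τ * |∑ i, sg (g i) * z i|))) ^ N := by
        rw [← Finset.mul_sum, Fintype.sum_pow]
    _ ≤ Real.exp (τ * (N / 160)) * (2 ^ n * (431 / 512)) ^ N := by
        refine mul_le_mul_of_nonneg_left ?_ (Real.exp_nonneg _)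
        exact pow_le_pow_left₀ (Finset.sum_nonneg fun g _ => Real.exp_nonneg _) h1 N
    _ = 2 ^ (N * n) * (Real.exp (τ / 160) * (431 / 512)) ^ N := by
        rw [show τ * (N / 160) = N * (τ / 160) by ring, Real.exp_nat_mul, mul_pow, mul_pow,
          ← pow_mul, mul_comm n N]
        ring
    _ ≤ 2 ^ (N * n) * (Real.exp (-(1 / 10))) ^ N := by
        refine mul_le_mul_of_nonneg_left ?_ (by positivity)
        refine pow_le_pow_left₀ (by positivity) ?_ N
        have h3 : Real.exp (τ / 160) * Real.exp (1 / 10) ≤ 512 / 431 := by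
          rw [← Real.exp_add]
          have h4 : τ / 160 + 1 / 10 ≤ 11 / 100 := by linarith
          refine (Real.exp_le_exp.mpr h4).trans ?_
          have h5 : Real.exp (-(11 / 100)) ≥ 1 - 11 / 100 := by
            have := Real.add_one_le_exp (-(11 / 100) : ℝ)
            linarith
          rw [Real.exp_neg] at h5
          have h6 : 0 < Real.exp (11 / 100) := Real.exp_pos _
          have h7 : Real.exp (11 / 100) * (1 - 11 / 100) ≤ 1 := by
            calc Real.exp (11 / 100) * (1 - 11 / 100)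
                ≤ Real.exp (11 / 100) * (Real.exp (11 / 100))⁻¹ :=
                  mul_le_mul_of_nonneg_left h5 h6.le
              _ = 1 := mul_inv_cancel₀ h6.ne'
          linarith
        have h8 : 0 < Real.exp (1 / 10) := Real.exp_pos _
        rw [Real.exp_neg, ← one_div, le_div_iff₀ h8]
        calc Real.exp (τ / 160) * (431 / 512) * Real.exp (1 / 10)
            = (Real.exp (τ / 160) * Real.exp (1 / 10)) * (431 / 512) := by ring
          _ ≤ 512 / 431 * (431 / 512) := by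
              refine mul_le_mul_of_nonneg_right h3 (by norm_num)
          _ = 1 := by norm_num
    _ = 2 ^ (N * n) * Real.exp (-(N / 10 : ℝ)) := by
        rw [← Real.exp_nat_mul]
        congr 2
        ring

private lemma is_round {N n : ℕ} (hn : 1 ≤ n) (G : Fin N → Fin n → Bool) (v : Fin n → ℝ)
    (hv : ∑ j, |GM G j ⬝ᵥ v| < (N : ℝ) / 320 * Real.sqrt (v ⬝ᵥ v)) :
    ∃ m : Fin n → ℤ, (∀ i, m i ∈ Finset.Icc (-(320 * n : ℤ)) (320 * n)) ∧
      99 / 100 ≤ ∑ i, ((m i : ℝ) / (320 * n)) ^ 2 ∧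
      ∑ j, |GM G j ⬝ᵥ (fun i => (m i : ℝ) / (320 * n))| < (N : ℝ) / 160 := by
  have hn0 : (0 : ℝ) < n := by exact_mod_cast hn
  have hK : (0 : ℝ) < 320 * n := by positivity
  set r := Real.sqrt (v ⬝ᵥ v) with hr
  have hvv : 0 ≤ v ⬝ᵥ v := Finset.sum_nonneg fun i _ => mul_self_nonneg _
  have hr0 : 0 < r := by
    rcases (Real.sqrt_nonneg (v ⬝ᵥ v)).eq_or_lt with h | h
    · rw [← hr] at h
      rw [← h, mul_zero] at hv
      exact absurd hv (not_lt.mpr (Finset.sum_nonneg fun j _ => abs_nonneg _))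
    · exact h
  set u : Fin n → ℝ := fun i => v i / r with hu
  have hr2 : r ^ 2 = v ⬝ᵥ v := Real.sq_sqrt hvv
  have hu2 : ∑ i, u i ^ 2 = 1 := by
    simp only [hu, div_pow]
    rw [← Finset.sum_div, hr2, div_eq_one_iff_eq (by rw [← hr2]; positivity)]
    simp only [dotProduct]
    exact Finset.sum_congr rfl fun i _ => by ring
  have hu1 : ∀ i, |u i| ≤ 1 := by
    intro i
    rw [← sq_le_one_iff_abs_le_one, ← hu2]
    exact Finset.single_le_sum (f := fun i => u i ^ 2) (fun j _ => sq_nonneg _) (Finset.mem_univ i)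
  have huv : ∑ j, |GM G j ⬝ᵥ u| < (N : ℝ) / 320 := by
    have h1 : ∀ j, |GM G j ⬝ᵥ u| = |GM G j ⬝ᵥ v| / r := by
      intro j
      have h2 : GM G j ⬝ᵥ u = (GM G j ⬝ᵥ v) / r := by
        simp only [dotProduct, hu, Finset.sum_div]
        exact Finset.sum_congr rfl fun i _ => by ring
      rw [h2, abs_div, abs_of_pos hr0]
    rw [Finset.sum_congr rfl fun j _ => h1 j, ← Finset.sum_div, div_lt_iff₀ hr0]
    exact hv
  set m : Fin n → ℤ := fun i => ⌊(320 * n : ℝ) * u i⌋ with hm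
  set z : Fin n → ℝ := fun i => (m i : ℝ) / (320 * n) with hz
  have hz1 : ∀ i, |u i - z i| ≤ 1 / (320 * n) := by
    intro i
    have h1 := Int.floor_le ((320 * n : ℝ) * u i)
    have h2 := Int.lt_floor_add_one ((320 * n : ℝ) * u i)
    have h3 : u i - z i = ((320 * n : ℝ) * u i - m i) / (320 * n) := by
      simp only [hz]; field_simp
    rw [h3, abs_div, abs_of_pos hK]
    refine div_le_div_of_nonneg_right ?_ hK.le
    rw [abs_le]
    constructor <;> simp only [hm] <;> linarith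
  have hsum : ∑ i, |u i - z i| ≤ 1 / 320 := by
    calc ∑ i, |u i - z i| ≤ ∑ _i : Fin n, 1 / (320 * n : ℝ) := Finset.sum_le_sum fun i _ => hz1 i
      _ = 1 / 320 := by
          rw [Finset.sum_const, Finset.card_univ, Fintype.card_fin, nsmul_eq_mul]
          field_simp
  refine ⟨m, ?_, ?_, ?_⟩
  · intro i
    rw [Finset.mem_Icc]
    have h1 := abs_le.mp (hu1 i)
    constructor
    · simp only [hm]
      rw [Int.le_floor]
      push_cast
      nlinarith [h1.1]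
    · have h2 : (m i : ℝ) ≤ 320 * n := by
        refine (Int.floor_le _).trans ?_
        nlinarith [h1.2]
      exact_mod_cast h2
  · show 99 / 100 ≤ ∑ i, z i ^ 2
    have h1 : ∑ i, z i ^ 2 = ∑ i, u i ^ 2 - 2 * ∑ i, u i * (u i - z i) + ∑ i, (u i - z i) ^ 2 := by
      rw [Finset.mul_sum, ← Finset.sum_sub_distrib, ← Finset.sum_add_distrib]
      exact Finset.sum_congr rfl fun i _ => by ring
    have h2 : ∑ i, u i * (u i - z i) ≤ 1 / 320 := by
      refine le_trans (Finset.sum_le_sum fun i _ => ?_) hsum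
      calc u i * (u i - z i) ≤ |u i * (u i - z i)| := le_abs_self _
        _ = |u i| * |u i - z i| := abs_mul _ _
        _ ≤ 1 * |u i - z i| := mul_le_mul_of_nonneg_right (hu1 i) (abs_nonneg _)
        _ = |u i - z i| := one_mul _
    have h3 : 0 ≤ ∑ i, (u i - z i) ^ 2 := Finset.sum_nonneg fun i _ => sq_nonneg _
    rw [h1, hu2]
    linarith
  · show ∑ j, |GM G j ⬝ᵥ z| < (N : ℝ) / 160
    have h1 : ∀ j, |GM G j ⬝ᵥ z| ≤ |GM G j ⬝ᵥ u| + 1 / 320 := by
      intro j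
      have h2 : GM G j ⬝ᵥ z = GM G j ⬝ᵥ u - ∑ i, GM G j i * (u i - z i) := by
        simp only [dotProduct]
        rw [← Finset.sum_sub_distrib]
        exact Finset.sum_congr rfl fun i _ => by ring
      have h3 : |∑ i, GM G j i * (u i - z i)| ≤ 1 / 320 := by
        refine (Finset.abs_sum_le_sum_abs _ _).trans (le_trans (Finset.sum_le_sum fun i _ => ?_) hsum)
        rw [abs_mul]
        have h4 : |GM G j i| = 1 := by
          simp only [GM, sg]
          split_ifs <;> simp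
        rw [h4, one_mul]
      rw [h2]
      calc |GM G j ⬝ᵥ u - ∑ i, GM G j i * (u i - z i)|
          ≤ |GM G j ⬝ᵥ u| + |∑ i, GM G j i * (u i - z i)| := abs_sub _ _
        _ ≤ _ := by linarith
    calc ∑ j, |GM G j ⬝ᵥ z| ≤ ∑ j, (|GM G j ⬝ᵥ u| + 1 / 320) := Finset.sum_le_sum fun j _ => h1 j
      _ = ∑ j, |GM G j ⬝ᵥ u| + N / 320 := by
          rw [Finset.sum_add_distrib, Finset.sum_const, Finset.card_univ, Fintype.card_fin,
            nsmul_eq_mul]
          ring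
      _ < (N : ℝ) / 160 := by linarith

open Classical in
theorem iso {N n : ℕ} (hn : 1 ≤ n) (hN : 10 * (n * Real.log (641 * n) + 2) ≤ N) :
    (((univ : Finset (Fin N → Fin n → Bool)).filter (fun G => ∃ v : Fin n → ℝ,
      ∑ j, |GM G j ⬝ᵥ v| < (N : ℝ) / 320 * Real.sqrt (v ⬝ᵥ v))).card : ℝ) ≤
      1 / 4 * 2 ^ (N * n) := by
  have hn0 : (0 : ℝ) < n := by exact_mod_cast hn
  set Z : Finset (Fin n → ℤ) := (Fintype.piFinset fun _ : Fin n =>
    Finset.Icc (-(320 * n : ℤ)) (320 * n)).filter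
      (fun m => 99 / 100 ≤ ∑ i, ((m i : ℝ) / (320 * n)) ^ 2) with hZ
  set B : (Fin n → ℤ) → Finset (Fin N → Fin n → Bool) := fun m =>
    (univ : Finset (Fin N → Fin n → Bool)).filter (fun G =>
      ∑ j, |GM G j ⬝ᵥ (fun i => (m i : ℝ) / (320 * n))| < (N : ℝ) / 160) with hB
  have hsub : (univ : Finset (Fin N → Fin n → Bool)).filter (fun G => ∃ v : Fin n → ℝ,
      ∑ j, |GM G j ⬝ᵥ v| < (N : ℝ) / 320 * Real.sqrt (v ⬝ᵥ v)) ⊆ Z.biUnion B := by
    intro G hG
    rw [Finset.mem_filter] at hG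
    obtain ⟨v, hv⟩ := hG.2
    obtain ⟨m, h1, h2, h3⟩ := is_round hn G v hv
    rw [Finset.mem_biUnion]
    refine ⟨m, ?_, ?_⟩
    · rw [hZ, Finset.mem_filter, Fintype.mem_piFinset]
      exact ⟨h1, h2⟩
    · rw [hB, Finset.mem_filter]
      exact ⟨Finset.mem_univ _, h3⟩
  have hZcard : (Z.card : ℝ) ≤ (641 * n : ℝ) ^ n := by
    have h1 : Z.card ≤ (641 * n) ^ n := by
      refine (Finset.card_filter_le _ _).trans ?_
      rw [Fintype.card_piFinset, Finset.prod_const, Finset.card_univ, Fintype.card_fin,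
        Int.card_Icc]
      refine Nat.pow_le_pow_left ?_ n
      omega
    calc (Z.card : ℝ) ≤ (((641 * n) ^ n : ℕ) : ℝ) := by exact_mod_cast h1
      _ = (641 * n : ℝ) ^ n := by push_cast; ring
  have hBcard : ∀ m ∈ Z, ((B m).card : ℝ) ≤ 2 ^ (N * n) * Real.exp (-(N / 10 : ℝ)) := by
    intro m hm
    rw [hZ, Finset.mem_filter] at hm
    have h1 : 0 ≤ ∑ i, ((m i : ℝ) / (320 * n)) ^ 2 := by linarith [hm.2]
    refine is_fixed (fun i => (m i : ℝ) / (320 * n))
      (s := Real.sqrt (∑ i, ((m i : ℝ) / (320 * n)) ^ 2)) ?_ (Real.sq_sqrt h1).symm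
    apply Real.le_sqrt_of_sq_le
    refine le_trans ?_ hm.2
    norm_num
  have hmain : (((univ : Finset (Fin N → Fin n → Bool)).filter (fun G => ∃ v : Fin n → ℝ,
      ∑ j, |GM G j ⬝ᵥ v| < (N : ℝ) / 320 * Real.sqrt (v ⬝ᵥ v))).card : ℝ)
      ≤ (641 * n : ℝ) ^ n * (2 ^ (N * n) * Real.exp (-(N / 10 : ℝ))) := by
    calc (((univ : Finset (Fin N → Fin n → Bool)).filter (fun G => ∃ v : Fin n → ℝ,
      ∑ j, |GM G j ⬝ᵥ v| < (N : ℝ) / 320 * Real.sqrt (v ⬝ᵥ v))).card : ℝ)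
        ≤ ((Z.biUnion B).card : ℝ) := by exact_mod_cast Finset.card_le_card hsub
      _ ≤ ((∑ m ∈ Z, (B m).card : ℕ) : ℝ) := by exact_mod_cast Finset.card_biUnion_le
      _ = ∑ m ∈ Z, ((B m).card : ℝ) := by push_cast; rfl
      _ ≤ ∑ _m ∈ Z, 2 ^ (N * n) * Real.exp (-(N / 10 : ℝ)) := Finset.sum_le_sum hBcard
      _ = (Z.card : ℝ) * (2 ^ (N * n) * Real.exp (-(N / 10 : ℝ))) := by
          rw [Finset.sum_const, nsmul_eq_mul]
      _ ≤ _ := mul_le_mul_of_nonneg_right hZcard (by positivity)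
  refine hmain.trans ?_
  have h641 : (0 : ℝ) < 641 * n := by positivity
  have h5 : (641 * n : ℝ) ^ n = Real.exp (n * Real.log (641 * n)) := by
    rw [Real.exp_nat_mul, Real.exp_log h641]
  rw [h5]
  have h6 : Real.exp (n * Real.log (641 * n)) * Real.exp (-(N / 10 : ℝ)) ≤ 1 / 4 := by
    rw [← Real.exp_add]
    have h7 : n * Real.log (641 * n) + -(N / 10 : ℝ) ≤ -2 := by linarith
    refine (Real.exp_le_exp.mpr h7).trans ?_
    have h8 : (4 : ℝ) ≤ Real.exp 2 := by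
      have h9 : (2 : ℝ) ≤ Real.exp 1 := by
        have := Real.add_one_le_exp (1 : ℝ); linarith
      have h10 : Real.exp 2 = Real.exp 1 * Real.exp 1 := by rw [← Real.exp_add]; norm_num
      rw [h10]
      nlinarith
    rw [Real.exp_neg, ← one_div]
    exact one_div_le_one_div_of_le (by norm_num) h8
  calc Real.exp (n * Real.log (641 * n)) * (2 ^ (N * n) * Real.exp (-(N / 10 : ℝ)))
      = (Real.exp (n * Real.log (641 * n)) * Real.exp (-(N / 10 : ℝ))) * 2 ^ (N * n) := by ring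
    _ ≤ 1 / 4 * 2 ^ (N * n) := mul_le_mul_of_nonneg_right h6 (by positivity)

end Pool.Agent.LL
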