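import Pool.Agent.Helper38.LL.Defs

/-!
LL-NU. The numerics of the union bound. `N = ⌈10 (n log (641 n) + 2)⌉`, `M³ = c n/log n` with a small
absolute constant `c` (`c = 10⁻¹²` is enough), `lam = n/(200 M²)`, `δ = 1/100`, `x = xl s = 200 M²/2^s`,
`x ≥ 16 M`, `xl (s-1) = 2 x`, `s ≤ 2 log n + 10`.
With `r = √(x/M) ≥ 4`: `x = M r²`, `pl (s-1) ≤ n + 1140 n M r³`, `pl s ≤ n + 400 n M r³`,
`log (2N) ≤ 2 log n`, and the product without the exponential, times `exp n`, is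
`≤ exp (1600 n M r³ log (2N))`. On the other side `ql ≥ n r/(40000 M)`, so
`ql lam x/8 ≥ n² r³/(64·10⁶ M²)`.
-/

namespace Pool.Agent.LL

open Finset Matrix Filter

private lemma NU_pow_le_exp {a b : ℝ} (ha : 0 ≤ a) (h : a ≤ Real.exp b) (k : ℕ) :
    a ^ k ≤ Real.exp (k * b) := by
  calc a ^ k ≤ (Real.exp b) ^ k := pow_le_pow_left₀ ha h k
    _ = _ := by rw [← Real.exp_nat_mul]

private lemma NU_ev : ∃ n0 : ℕ, ∀ n : ℕ, n0 ≤ n → 1000 ≤ Real.log n ∧
    (Real.log n) ^ 4 ≤ 1 / 10 ^ 12 * n ∧ (10 : ℝ) ^ 7 ≤ n := by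
  have h1 : ∀ᶠ n : ℕ in atTop, 1000 ≤ Real.log n :=
    (Real.tendsto_log_atTop.comp tendsto_natCast_atTop_atTop).eventually_ge_atTop _
  have h2 : ∀ᶠ n : ℕ in atTop, (Real.log n) ^ 4 ≤ 1 / 10 ^ 12 * n := by
    have h := (Real.isLittleO_pow_log_id_atTop (n := 4)).comp_tendsto
      (tendsto_natCast_atTop_atTop (R := ℝ))
    have h3 := h.bound (show (0 : ℝ) < 1 / 10 ^ 12 by positivity)
    filter_upwards [h3] with n hn
    simp only [Function.comp, id, Real.norm_eq_abs] at hn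
    rw [abs_of_nonneg (by positivity), abs_of_nonneg (by positivity)] at hn
    exact hn
  have h3 : ∀ᶠ n : ℕ in atTop, (10 : ℝ) ^ 7 ≤ n :=
    (tendsto_natCast_atTop_atTop (R := ℝ)).eventually_ge_atTop _
  obtain ⟨n0, hn0⟩ := (h1.and (h2.and h3)).exists_forall_of_atTop
  exact ⟨n0, fun n hn => hn0 n hn⟩

/-- The union bound, given the parameters. -/
private lemma NU_core {n N s p p' q : ℕ} {L M r ℓ : ℝ} (hL : 1000 ≤ L) (hLM : L ≤ M) (hr : 4 ≤ r)
    (hr2 : r ^ 2 ≤ 100 * M) (hM3 : M ^ 3 * L = 1 / 10 ^ 12 * n) (hn : (10 : ℝ) ^ 7 ≤ n)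
    (hNn : 20 * (n : ℝ) ≤ N) (hN : (N : ℝ) ≤ 21 * n * L) (hℓ : Real.exp ℓ = 2 * N) (hLℓ : L ≤ ℓ)
    (hℓL : ℓ ≤ 2 * L) (hs : (s : ℝ) * Real.log 2 ≤ L)
    (hp : (p : ℝ) ≤ n + 400 * n * M * r ^ 3) (hp' : (p' : ℝ) ≤ n + 1140 * n * M * r ^ 3)
    (hq1 : (q : ℝ) ≤ n * r / (20000 * M)) (hq2 : n * r / (40000 * M) ≤ q) :
    (2 * n + 1 : ℝ) ^ n * ((p' + 1 : ℝ) ^ n * (2 * N : ℝ) ^ p') * ((p + 1 : ℝ) ^ n * (2 * N : ℝ) ^ p) *
      (q + 1 : ℝ) ^ n * (2 : ℝ) ^ (N * s) * (n : ℝ) ^ q * (N : ℝ) ^ q *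
      Real.exp (-(q * (n / (200 * M ^ 2)) * (M * r ^ 2) / 8)) ≤ Real.exp (-n) := by
  have hM : 1000 ≤ M := hL.trans hLM
  have hM0 : 0 < M := by linarith
  have hn0 : (0 : ℝ) < n := by
    have : (0 : ℝ) < 10 ^ 7 := by norm_num
    linarith
  have hn1 : (1 : ℝ) ≤ n := by
    have : (1 : ℝ) ≤ 10 ^ 7 := by norm_num
    linarith
  have hN0 : (0 : ℝ) < N := by linarith
  have hr0 : 0 < r := by linarith
  have hr3 : 64 ≤ r ^ 3 := by
    calc (64 : ℝ) = 4 ^ 3 := by norm_num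
      _ ≤ r ^ 3 := pow_le_pow_left₀ (by norm_num) hr 3
  have hℓ1 : 1000 ≤ ℓ := hL.trans hLℓ
  have hM3n : M ^ 3 ≤ n := by
    have h1 : M ^ 3 * 1 ≤ M ^ 3 * L := by
      apply mul_le_mul_of_nonneg_left (by linarith) (by positivity)
    have h2 : 1 / 10 ^ 12 * (n : ℝ) ≤ n := by
      have : (1 : ℝ) / 10 ^ 12 ≤ 1 := by norm_num
      nlinarith
    linarith
  -- r^3 ≤ 2500 M^2
  have hr3' : r ^ 3 ≤ 2500 * M ^ 2 := by
    have h1 : r ^ 4 ≤ 10000 * M ^ 2 := by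
      calc r ^ 4 = (r ^ 2) ^ 2 := by ring
        _ ≤ (100 * M) ^ 2 := pow_le_pow_left₀ (by positivity) hr2 2
        _ = _ := by ring
    have h2 : 4 * r ^ 3 ≤ r ^ 4 := by
      calc 4 * r ^ 3 ≤ r * r ^ 3 := by gcongr
        _ = _ := by ring
    linarith
  have hY : n * M * r ^ 3 ≤ 2500 * (n : ℝ) ^ 2 := by
    calc n * M * r ^ 3 ≤ n * M * (2500 * M ^ 2) := by gcongr
      _ = 2500 * n * M ^ 3 := by ring
      _ ≤ 2500 * n * n := by gcongr
      _ = _ := by ring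
  have hn2 : (n : ℝ) ≤ n ^ 2 := by nlinarith
  have hn3 : (10 : ℝ) ^ 7 * n ^ 2 ≤ n ^ 3 := by
    calc (10 : ℝ) ^ 7 * n ^ 2 ≤ n * n ^ 2 := by gcongr
      _ = _ := by ring
  have hexp3 : (n : ℝ) ^ 3 ≤ Real.exp (3 * ℓ) := by
    have h1 : Real.exp (3 * ℓ) = (2 * N : ℝ) ^ 3 := by
      rw [← hℓ, ← Real.exp_nat_mul]
      norm_num
    rw [h1]
    exact pow_le_pow_left₀ hn0.le (by linarith) 3
  have hp'1 : (p' : ℝ) + 1 ≤ Real.exp (3 * ℓ) := by
    refine le_trans ?_ hexp3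
    have : (p' : ℝ) ≤ n + 1140 * (2500 * (n : ℝ) ^ 2) := by
      have h2 : n + 1140 * n * M * r ^ 3 = n + 1140 * (n * M * r ^ 3) := by ring
      rw [h2] at hp'
      linarith
    nlinarith
  have hp1 : (p : ℝ) + 1 ≤ Real.exp (3 * ℓ) := by
    refine le_trans ?_ hexp3
    have : (p : ℝ) ≤ n + 400 * (2500 * (n : ℝ) ^ 2) := by
      have h2 : n + 400 * n * M * r ^ 3 = n + 400 * (n * M * r ^ 3) := by ring
      rw [h2] at hp
      linarith
    nlinarith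
  have hrM : r ≤ M := by
    have h1 : r ^ 2 ≤ M ^ 2 := by nlinarith
    exact (pow_le_pow_iff_left₀ hr0.le hM0.le (by norm_num)).1 h1
  have hqn : (q : ℝ) ≤ n := by
    refine hq1.trans ?_
    rw [div_le_iff₀ (by positivity)]
    have : n * r ≤ n * (20000 * M) := mul_le_mul_of_nonneg_left (by linarith) hn0.le
    linarith
  have f1 : (2 * n + 1 : ℝ) ^ n ≤ Real.exp (n * ℓ) :=
    NU_pow_le_exp (by positivity) (by rw [hℓ]; linarith) n
  have f2 : (p' + 1 : ℝ) ^ n ≤ Real.exp (n * (3 * ℓ)) := NU_pow_le_exp (by positivity) hp'1 n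
  have f3 : (2 * N : ℝ) ^ p' ≤ Real.exp (p' * ℓ) := NU_pow_le_exp (by positivity) hℓ.ge p'
  have f4 : (p + 1 : ℝ) ^ n ≤ Real.exp (n * (3 * ℓ)) := NU_pow_le_exp (by positivity) hp1 n
  have f5 : (2 * N : ℝ) ^ p ≤ Real.exp (p * ℓ) := NU_pow_le_exp (by positivity) hℓ.ge p
  have f6 : (q + 1 : ℝ) ^ n ≤ Real.exp (n * ℓ) :=
    NU_pow_le_exp (by positivity) (by rw [hℓ]; linarith) n
  have f7 : (2 : ℝ) ^ (N * s) ≤ Real.exp ((N * s : ℕ) * Real.log 2) :=
    NU_pow_le_exp (by norm_num) (by rw [Real.exp_log (by norm_num)]) _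
  have f8 : (n : ℝ) ^ q ≤ Real.exp (q * ℓ) :=
    NU_pow_le_exp (by positivity) (by rw [hℓ]; linarith) q
  have f9 : (N : ℝ) ^ q ≤ Real.exp (q * ℓ) :=
    NU_pow_le_exp (by positivity) (by rw [hℓ]; linarith) q
  have hbig : (2 * n + 1 : ℝ) ^ n * ((p' + 1 : ℝ) ^ n * (2 * N : ℝ) ^ p') *
      ((p + 1 : ℝ) ^ n * (2 * N : ℝ) ^ p) *
      (q + 1 : ℝ) ^ n * (2 : ℝ) ^ (N * s) * (n : ℝ) ^ q * (N : ℝ) ^ q *
      Real.exp (-(q * (n / (200 * M ^ 2)) * (M * r ^ 2) / 8)) ≤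
      Real.exp (n * ℓ) * (Real.exp (n * (3 * ℓ)) * Real.exp (p' * ℓ)) *
      (Real.exp (n * (3 * ℓ)) * Real.exp (p * ℓ)) * Real.exp (n * ℓ) *
      Real.exp ((N * s : ℕ) * Real.log 2) * Real.exp (q * ℓ) * Real.exp (q * ℓ) *
      Real.exp (-(q * (n / (200 * M ^ 2)) * (M * r ^ 2) / 8)) := by
    gcongr
  refine hbig.trans ?_
  simp only [← Real.exp_add]
  apply Real.exp_le_exp.2
  -- the exponents
  have hA : (N * s : ℕ) * Real.log 2 ≤ 21 * n * M * ℓ := by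
    push_cast
    calc (N : ℝ) * s * Real.log 2 = N * (s * Real.log 2) := by ring
      _ ≤ (21 * n * L) * L := by gcongr
      _ ≤ (21 * n * M) * ℓ := by gcongr
  have hB : 1600 * n * M * r ^ 3 * ℓ ≤ q * (n / (200 * M ^ 2)) * (M * r ^ 2) / 8 := by
    have h1 : n * r / (40000 * M) * (n / (200 * M ^ 2)) * (M * r ^ 2) / 8 ≤
        q * (n / (200 * M ^ 2)) * (M * r ^ 2) / 8 := by gcongr
    refine le_trans ?_ h1
    have h2 : n * r / (40000 * M) * (n / (200 * M ^ 2)) * (M * r ^ 2) / 8 =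
        n ^ 2 * r ^ 3 / (64000000 * M ^ 2) := by
      field_simp
      ring
    rw [h2, le_div_iff₀ (by positivity)]
    have h3 : M ^ 3 * ℓ ≤ 2 * (1 / 10 ^ 12 * n) := by
      rw [← hM3]
      calc M ^ 3 * ℓ ≤ M ^ 3 * (2 * L) := by gcongr
        _ = _ := by ring
    calc 1600 * n * M * r ^ 3 * ℓ * (64000000 * M ^ 2)
        = 1600 * 64000000 * n * r ^ 3 * (M ^ 3 * ℓ) := by ring
      _ ≤ 1600 * 64000000 * n * r ^ 3 * (2 * (1 / 10 ^ 12 * n)) := by gcongr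
      _ = (1600 * 64000000 * 2 / 10 ^ 12) * (n ^ 2 * r ^ 3) := by ring
      _ ≤ 1 * (n ^ 2 * r ^ 3) := by
          apply mul_le_mul_of_nonneg_right (by norm_num) (by positivity)
      _ = _ := by ring
  have hC : (p' : ℝ) * ℓ ≤ (n + 1140 * n * M * r ^ 3) * ℓ := by gcongr
  have hD : (p : ℝ) * ℓ ≤ (n + 400 * n * M * r ^ 3) * ℓ := by gcongr
  have hE : (q : ℝ) * ℓ ≤ n * ℓ := by gcongr
  have hF : (n : ℝ) * 1 ≤ n * ℓ := by gcongr; linarith
  have hG : n * ℓ ≤ n * M * ℓ := by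
    have : n * 1 * ℓ ≤ n * M * ℓ := by gcongr; linarith
    linarith
  have hH : n * M * ℓ * 64 ≤ n * M * r ^ 3 * ℓ := by
    have : n * M * ℓ * 64 ≤ n * M * ℓ * r ^ 3 := by gcongr
    linarith
  nlinarith

theorem numerics : ∃ c : ℝ, 0 < c ∧ ∃ n0 : ℕ, ∀ n : ℕ, n0 ≤ n → ∀ (M : ℝ) (N : ℕ),
    M = (c * n / Real.log n) ^ (1 / 3 : ℝ) → N = ⌈10 * (n * Real.log (641 * n) + 2)⌉₊ →
    1 ≤ M ∧ 200 * M ≤ n ∧ M ^ 3 ≤ n ∧ ∀ s : ℕ, 1 ≤ s → 16 * M ≤ xl n (n / (200 * M ^ 2)) s →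
      s ≤ n ∧
      4 * (3 * M + ql n (n / (200 * M ^ 2)) M (1 / 100) s / (n / (200 * M ^ 2))) ≤
        xl n (n / (200 * M ^ 2)) s ∧
      1 ≤ ql n (n / (200 * M ^ 2)) M (1 / 100) s ∧
      (2 * n + 1 : ℝ) ^ n *
      ((pl n (n / (200 * M ^ 2)) M (1 / 100) (s - 1) + 1 : ℝ) ^ n *
        (2 * N : ℝ) ^ pl n (n / (200 * M ^ 2)) M (1 / 100) (s - 1)) *
      ((pl n (n / (200 * M ^ 2)) M (1 / 100) s + 1 : ℝ) ^ n *
        (2 * N : ℝ) ^ pl n (n / (200 * M ^ 2)) M (1 / 100) s) *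
      (ql n (n / (200 * M ^ 2)) M (1 / 100) s + 1 : ℝ) ^ n * (2 : ℝ) ^ (N * s) *
      (n : ℝ) ^ ql n (n / (200 * M ^ 2)) M (1 / 100) s *
      (N : ℝ) ^ ql n (n / (200 * M ^ 2)) M (1 / 100) s *
      Real.exp (-(ql n (n / (200 * M ^ 2)) M (1 / 100) s * (n / (200 * M ^ 2)) *
        xl n (n / (200 * M ^ 2)) s / 8)) ≤ Real.exp (-n) := by
  refine ⟨1 / 10 ^ 12, by positivity, ?_⟩
  obtain ⟨n0, hn0⟩ := NU_ev
  refine ⟨n0, fun n hn M N hM hN => ?_⟩
  obtain ⟨hL, hL4, hn7⟩ := hn0 n hn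
  set L := Real.log n with hLdef
  have hnpos : (0 : ℝ) < n := by
    have : (0 : ℝ) < 10 ^ 7 := by norm_num
    linarith
  have hL0 : 0 < L := by linarith
  have hbase : 0 ≤ 1 / 10 ^ 12 * (n : ℝ) / L := by positivity
  have hM3 : M ^ 3 = 1 / 10 ^ 12 * n / L := by
    rw [hM, ← Real.rpow_natCast, ← Real.rpow_mul hbase]
    norm_num
  have hMnn : 0 ≤ M := by
    rw [hM]
    positivity
  have hLM : L ≤ M := by
    have h1 : L ^ 3 ≤ M ^ 3 := by
      rw [hM3, le_div_iff₀ hL0]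
      calc L ^ 3 * L = L ^ 4 := by ring
        _ ≤ _ := hL4
    exact (pow_le_pow_iff_left₀ hL0.le hMnn (by norm_num)).1 h1
  have hM1000 : 1000 ≤ M := hL.trans hLM
  have hM0 : 0 < M := by linarith
  have hM3L : M ^ 3 * L = 1 / 10 ^ 12 * n := by
    rw [hM3]
    field_simp
  have hM3n : M ^ 3 ≤ n := by
    have h1 : M ^ 3 * 1 ≤ M ^ 3 * L := by
      apply mul_le_mul_of_nonneg_left (by linarith) (by positivity)
    have h2 : 1 / 10 ^ 12 * (n : ℝ) ≤ n := by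
      have : (1 : ℝ) / 10 ^ 12 ≤ 1 := by norm_num
      nlinarith
    linarith
  have hMn : 1000000 * M ≤ n := by
    have h1 : 1000000 * M ≤ M ^ 3 := by
      calc 1000000 * M = 1000 ^ 2 * M := by norm_num
        _ ≤ M ^ 2 * M := by gcongr
        _ = _ := by ring
    linarith
  refine ⟨by linarith, by linarith, hM3n, fun s hs hx => ?_⟩
  have hlam : (0 : ℝ) < n / (200 * M ^ 2) := by positivity
  have hxs : xl n (n / (200 * M ^ 2)) s = 200 * M ^ 2 / 2 ^ s := by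
    rw [xl]
    congr 1
    field_simp
  have hxs1 : xl n (n / (200 * M ^ 2)) (s - 1) = 2 * xl n (n / (200 * M ^ 2)) s := by
    rw [xl, xl]
    obtain ⟨t, rfl⟩ : ∃ t, s = t + 1 := ⟨s - 1, by omega⟩
    rw [Nat.add_sub_cancel, pow_succ (2 : ℝ) t]
    generalize (n : ℝ) / (n / (200 * M ^ 2)) = A
    have h2t : (2 : ℝ) ^ t ≠ 0 := by positivity
    field_simp
  set x := xl n (n / (200 * M ^ 2)) s with hxdef
  have hx0 : 0 < x := by
    rw [hxs]
    positivity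
  have h2s : (2 : ℝ) ^ s ≤ n := by
    have h1 : 16 * M * 2 ^ s ≤ 200 * M ^ 2 := by
      rw [hxs, le_div_iff₀ (by positivity)] at hx
      exact hx
    have h2 : (2 : ℝ) ^ s ≤ 12.5 * M := by
      have h3 : 16 * M * 2 ^ s ≤ 16 * M * (12.5 * M) := by
        calc 16 * M * 2 ^ s ≤ 200 * M ^ 2 := h1
          _ = _ := by ring
      exact le_of_mul_le_mul_left h3 (by positivity)
    linarith
  have hsn : s ≤ n := by
    have h1 : s < 2 ^ s := Nat.lt_two_pow_self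
    have h2 : (2 : ℕ) ^ s ≤ n := by exact_mod_cast h2s
    omega
  -- r
  set r := Real.sqrt (x / M) with hrdef
  have hr2 : r ^ 2 = x / M := Real.sq_sqrt (by positivity)
  have hxr : x = M * r ^ 2 := by
    rw [hr2]
    field_simp
  have hr4 : 4 ≤ r := by
    apply Real.le_sqrt_of_sq_le
    rw [le_div_iff₀ hM0]
    linarith
  have hr0 : 0 < r := by linarith
  have hx100 : x ≤ 100 * M ^ 2 := by
    rw [hxs, div_le_iff₀ (by positivity)]
    have h1 : (2 : ℝ) ^ 1 ≤ 2 ^ s := pow_le_pow_right₀ (by norm_num) hs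
    nlinarith [sq_nonneg M]
  have hr100 : r ^ 2 ≤ 100 * M := by
    rw [hr2, div_le_iff₀ hM0]
    calc x ≤ 100 * M ^ 2 := hx100
      _ = _ := by ring
  have hsq1 : Real.sqrt (M * x) = M * r := by
    rw [hxr, show M * (M * r ^ 2) = (M * r) ^ 2 by ring]
    exact Real.sqrt_sq (by positivity)
  have hsq2 : Real.sqrt (M / x) = 1 / r := by
    rw [hxr, show M / (M * r ^ 2) = (1 / r) ^ 2 by field_simp]
    exact Real.sqrt_sq (by positivity)
  have hsqrt2 : Real.sqrt 2 ≤ 1.42 := by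
    rw [Real.sqrt_le_left (by norm_num)]
    norm_num
  have hsqrt2' : 1.4 ≤ Real.sqrt 2 := Real.le_sqrt_of_sq_le (by norm_num)
  have hsq3 : Real.sqrt (M / (2 * x)) = 1 / (Real.sqrt 2 * r) := by
    rw [hxr, show M / (2 * (M * r ^ 2)) = (1 / (Real.sqrt 2 * r)) ^ 2 by
      rw [div_pow, mul_pow, Real.sq_sqrt (by norm_num : (0 : ℝ) ≤ 2)]
      field_simp]
    exact Real.sqrt_sq (by positivity)
  -- ql
  have hqval : 1 / 100 * (n / (200 * M ^ 2)) * Real.sqrt (M * x) = n * r / (20000 * M) := by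
    rw [hsq1]
    field_simp
    norm_num
  have hqdef : ql n (n / (200 * M ^ 2)) M (1 / 100) s = ⌊n * r / (20000 * M)⌋₊ := by
    rw [ql, ← hxdef, hqval]
  have hqnn : 0 ≤ n * r / (20000 * M) := by positivity
  have hq1 : (ql n (n / (200 * M ^ 2)) M (1 / 100) s : ℝ) ≤ n * r / (20000 * M) := by
    rw [hqdef]
    exact Nat.floor_le hqnn
  have hqbig : 2 ≤ n * r / (20000 * M) := by
    rw [le_div_iff₀ (by positivity)]
    nlinarith
  have hq2 : n * r / (40000 * M) ≤ (ql n (n / (200 * M ^ 2)) M (1 / 100) s : ℝ) := by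
    rw [hqdef]
    have h1 := Nat.lt_floor_add_one (n * r / (20000 * M))
    have h2 : n * r / (40000 * M) = (n * r / (20000 * M)) / 2 := by
      field_simp
      norm_num
    rw [h2]
    linarith
  refine ⟨hsn, ?_, ?_, ?_⟩
  · have h1 : (ql n (n / (200 * M ^ 2)) M (1 / 100) s : ℝ) / (n / (200 * M ^ 2)) ≤ M * r / 100 := by
      rw [div_le_iff₀ hlam]
      refine hq1.trans (le_of_eq ?_)
      field_simp
      norm_num
    have h2 : M * r ≤ x / 4 := by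
      rw [hxr]
      nlinarith
    linarith
  · rw [hqdef, Nat.one_le_floor_iff]
    linarith
  · -- N
    have hlog641 : Real.log (641 * n) ≤ 2 * L := by
      rw [Real.log_mul (by norm_num) hnpos.ne']
      have : Real.log 641 ≤ L := Real.log_le_log (by norm_num) (by linarith [show (641 : ℝ) ≤ 10 ^ 7 by norm_num])
      linarith
    have hlog641' : L ≤ Real.log (641 * n) := Real.log_le_log hnpos (by linarith)
    have hNlow : 20 * (n : ℝ) ≤ N := by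
      rw [hN]
      refine le_trans ?_ (Nat.le_ceil _)
      have : n * 1000 ≤ n * Real.log (641 * n) := by gcongr; linarith
      linarith
    have hN21 : (N : ℝ) ≤ 21 * n * L := by
      have h1 : 0 ≤ 10 * (n * Real.log (641 * n) + 2) := by
        have : 0 ≤ n * Real.log (641 * n) := mul_nonneg hnpos.le (by linarith)
        linarith
      have h2 := Nat.ceil_lt_add_one h1
      rw [← hN] at h2
      have h3 : n * Real.log (641 * n) ≤ n * (2 * L) := by gcongr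
      have h4 : (10 : ℝ) ^ 7 * 1000 ≤ n * L := by gcongr
      nlinarith
    have hN0 : (0 : ℝ) < 2 * N := by linarith
    have hp' : (pl n (n / (200 * M ^ 2)) M (1 / 100) (s - 1) : ℝ) ≤ n + 1140 * n * M * r ^ 3 := by
      have hval : 4 * n * xl n (n / (200 * M ^ 2)) (s - 1) / el n (n / (200 * M ^ 2)) M (1 / 100) (s - 1)
          = 800 * Real.sqrt 2 * (n * M * r ^ 3) := by
        rw [el, hxs1, hsq3, hxr]
        field_simp
        norm_num
      have hnn : (0 : ℝ) ≤ n + 800 * Real.sqrt 2 * (n * M * r ^ 3) := by positivity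
      rw [pl, hval]
      refine (Nat.floor_le hnn).trans ?_
      have hY : 0 ≤ n * M * r ^ 3 := by positivity
      have h1 : 800 * Real.sqrt 2 * (n * M * r ^ 3) ≤ 1140 * (n * M * r ^ 3) :=
        mul_le_mul_of_nonneg_right (by linarith) hY
      have h2 : (1140 : ℝ) * n * M * r ^ 3 = 1140 * (n * M * r ^ 3) := by ring
      rw [h2]
      linarith
    have hp : (pl n (n / (200 * M ^ 2)) M (1 / 100) s : ℝ) ≤ n + 400 * n * M * r ^ 3 := by
      have hval : 4 * n * x / el n (n / (200 * M ^ 2)) M (1 / 100) s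
          = 400 * (n * M * r ^ 3) := by
        rw [el, ← hxdef, hsq2, hxr]
        field_simp
        norm_num
      have hnn : (0 : ℝ) ≤ n + 400 * (n * M * r ^ 3) := by positivity
      rw [pl, ← hxdef, hval]
      refine (Nat.floor_le hnn).trans (le_of_eq ?_)
      ring
    have hlog2 : (s : ℝ) * Real.log 2 ≤ L := by
      rw [← Real.log_pow]
      exact Real.log_le_log (by positivity) h2s
    have h2N : (2 * N : ℝ) ≤ n ^ 2 := by
      have h1 : 42 * L ≤ n := by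
        have : 42 * L ≤ 42 * M := by gcongr
        linarith
      calc (2 * N : ℝ) ≤ n * (42 * L) := by linarith
        _ ≤ n * n := by gcongr
        _ = _ := by ring
    have hfin := NU_core (n := n) (N := N) (s := s) (L := L) (M := M) (r := r)
      (ℓ := Real.log (2 * N)) hL hLM hr4 hr100 hM3L hn7 hNlow hN21 (Real.exp_log hN0)
      (Real.log_le_log hnpos (by linarith))
      (by
        calc Real.log (2 * N) ≤ Real.log (n ^ 2) := Real.log_le_log hN0 h2N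
          _ = 2 * L := by
            rw [Real.log_pow, hLdef]
            norm_num) hlog2 hp hp' hq1 hq2
    rw [← hxr] at hfin
    exact hfin

end Pool.Agent.LL
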