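import Pool.Agent.Helper38.LL.UB
import Pool.Agent.Helper38.LL.IS
import Pool.Agent.Helper38.LL.NU

/-!
LL-EX. Existence of good spikes: `iso` (probability `≤ 1/4`), `stage_bound` and `numerics` (probability
`≤ exp (-n)` for each of the `S ≤ n` stages; `n exp (-n) < 1/2`). `S` is the number with
`16 M ≤ xl S < 32 M` (`xl 0 = 200 M² ≥ 32 M`, `xl (s+1) = xl s/2`). Proof: helper30.
-/

namespace Pool.Agent.LL

open Finset Matrix

private theorem xl_eq {n : ℕ} {M : ℝ} (hn : (0 : ℝ) < n) (hM : 1 ≤ M) (s : ℕ) :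
    xl n (n / (200 * M ^ 2)) s = 200 * M ^ 2 / 2 ^ s := by
  unfold xl
  have hM0 : 0 < M := by linarith
  field_simp

private theorem exists_level {n : ℕ} {M : ℝ} (hn : (0 : ℝ) < n) (hM : 1 ≤ M) :
    ∃ S : ℕ, 1 ≤ S ∧ 16 * M ≤ xl n (n / (200 * M ^ 2)) S ∧
      xl n (n / (200 * M ^ 2)) S < 32 * M := by
  have hM0 : 0 < M := by linarith
  have hex : ∃ s : ℕ, 200 * M ^ 2 / 2 ^ s < 32 * M := by
    obtain ⟨k, hk⟩ := pow_unbounded_of_one_lt (200 * M ^ 2 / (32 * M)) (one_lt_two (α := ℝ))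
    refine ⟨k, ?_⟩
    rw [div_lt_iff₀ (by positivity)]
    rw [div_lt_iff₀ (by positivity)] at hk
    linarith
  classical
  have h1 := Nat.find_spec hex
  have h0 : 1 ≤ Nat.find hex := by
    by_contra h
    have h2 : Nat.find hex = 0 := by omega
    rw [h2] at h1
    norm_num at h1
    nlinarith
  have h2 := Nat.find_min hex (m := Nat.find hex - 1) (by omega)
  push Not at h2
  generalize Nat.find hex = S at h0 h1 h2
  refine ⟨S, h0, ?_, ?_⟩
  · rw [xl_eq hn hM]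
    obtain ⟨k, rfl⟩ : ∃ k, S = k + 1 := ⟨S - 1, by omega⟩
    rw [Nat.add_sub_cancel] at h2
    have h3 : 200 * M ^ 2 / 2 ^ (k + 1) = 200 * M ^ 2 / 2 ^ k / 2 := by
      rw [pow_succ (2 : ℝ) k, div_div]
    rw [h3]
    linarith
  · rw [xl_eq hn hM]; exact h1

theorem exists_good : ∃ c : ℝ, 0 < c ∧ ∃ n0 : ℕ, ∀ n : ℕ, n0 ≤ n → ∀ M : ℝ,
    M = (c * n / Real.log n) ^ (1 / 3 : ℝ) →
    ∃ (N : ℕ) (G : Fin N → Fin n → Bool) (S : ℕ), 0 < N ∧ 1 ≤ M ∧ 200 * M ≤ n ∧ M ^ 3 ≤ n ∧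
      16 * M ≤ xl n (n / (200 * M ^ 2)) S ∧ xl n (n / (200 * M ^ 2)) S < 32 * M ∧
      (∀ v : Fin n → ℝ, (N : ℝ) / 320 * Real.sqrt (v ⬝ᵥ v) ≤ ∑ j, |GM G j ⬝ᵥ v|) ∧
      (∀ s, 1 ≤ s → s ≤ S → Good (GM G) (n / (200 * M ^ 2)) M (1 / 100) s) ∧
      (∀ s, 1 ≤ s → s ≤ S → 1 ≤ ql n (n / (200 * M ^ 2)) M (1 / 100) s) := by
  obtain ⟨c, hc, n0, hnum⟩ := numerics
  refine ⟨c, hc, max n0 1, fun n hn M hM => ?_⟩
  have hn1 : 1 ≤ n := le_trans (le_max_right _ _) hn
  have hn1' : (1 : ℝ) ≤ n := by exact_mod_cast hn1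
  have hn0' : (0 : ℝ) < n := by linarith
  obtain ⟨N, hN⟩ : ∃ N : ℕ, N = ⌈10 * (n * Real.log (641 * n) + 2)⌉₊ := ⟨_, rfl⟩
  obtain ⟨hM1, hM2, hM3, hst⟩ := hnum n (le_trans (le_max_left _ _) hn) M N hM hN
  have hM0 : 0 < M := by linarith
  obtain ⟨S, hS1, hS16, hS32⟩ := exists_level hn0' hM1
  have hNle : 10 * (n * Real.log (641 * n) + 2) ≤ (N : ℝ) := by
    rw [hN]; exact Nat.le_ceil _
  have hlog : 0 ≤ Real.log (641 * n) := Real.log_nonneg (by linarith)
  have hNpos : 0 < N := by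
    have : (0 : ℝ) < N := by
      have : 0 ≤ (n : ℝ) * Real.log (641 * n) := by positivity
      linarith
    exact_mod_cast this
  have hlam : (0 : ℝ) < n / (200 * M ^ 2) := by positivity
  have hlev : ∀ s, s ≤ S → 16 * M ≤ xl n (n / (200 * M ^ 2)) s := by
    intro s hs
    refine hS16.trans ?_
    rw [xl_eq hn0' hM1, xl_eq hn0' hM1]
    gcongr
    norm_num
  have hSn : S ≤ n := (hst S hS1 hS16).1
  classical
  -- the bad events
  set B0 : Finset (Fin N → Fin n → Bool) := (univ : Finset (Fin N → Fin n → Bool)).filter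
    (fun G => ∃ v : Fin n → ℝ,
      ∑ j, |GM G j ⬝ᵥ v| < (N : ℝ) / 320 * Real.sqrt (v ⬝ᵥ v)) with hB0
  set Bs : ℕ → Finset (Fin N → Fin n → Bool) := fun s =>
    (univ : Finset (Fin N → Fin n → Bool)).filter
      (fun G => ¬ Good (GM G) (n / (200 * M ^ 2)) M (1 / 100) s) with hBs
  have h0 : (B0.card : ℝ) ≤ 1 / 4 * 2 ^ (N * n) := by
    have := iso (N := N) (n := n) hn1 hNle
    rw [hB0]
    convert this
  have hs : ∀ s ∈ Finset.Icc 1 S, ((Bs s).card : ℝ) ≤ Real.exp (-n) * 2 ^ (N * n) := by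
    intro s hs
    rw [Finset.mem_Icc] at hs
    obtain ⟨_, hx, _, hprod⟩ := hst s hs.1 (hlev s hs.2)
    have hx0 : 0 < xl n (n / (200 * M ^ 2)) s := by
      have := hlev s hs.2; linarith
    have := stage_bound (N := N) (n := n) hNpos hlam s hx hx0
    refine le_trans (le_of_eq ?_) (this.trans ?_)
    · rw [hBs]
    · rw [← mul_assoc]
      exact mul_le_mul_of_nonneg_right hprod (by positivity)
  have hcard : (Fintype.card (Fin N → Fin n → Bool) : ℝ) = 2 ^ (N * n) := by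
    simp [Fintype.card_pi, ← pow_mul, mul_comm]
  have hunion : ((B0 ∪ (Finset.Icc 1 S).biUnion Bs).card : ℝ) <
      (univ : Finset (Fin N → Fin n → Bool)).card := by
    rw [Finset.card_univ, hcard]
    have h1 : ((B0 ∪ (Finset.Icc 1 S).biUnion Bs).card : ℝ) ≤
        B0.card + ∑ s ∈ Finset.Icc 1 S, ((Bs s).card : ℝ) := by
      have h2 := Finset.card_union_le B0 ((Finset.Icc 1 S).biUnion Bs)
      have h3 := Finset.card_biUnion_le (s := Finset.Icc 1 S) (t := Bs)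
      have : (B0 ∪ (Finset.Icc 1 S).biUnion Bs).card ≤
        B0.card + ∑ s ∈ Finset.Icc 1 S, (Bs s).card := by omega
      exact_mod_cast this
    have h2 : ∑ s ∈ Finset.Icc 1 S, ((Bs s).card : ℝ) ≤ S * (Real.exp (-n) * 2 ^ (N * n)) := by
      have := Finset.sum_le_card_nsmul (Finset.Icc 1 S) (fun s => ((Bs s).card : ℝ)) _ hs
      simpa using this
    have h3 : (S : ℝ) * (Real.exp (-n) * 2 ^ (N * n)) ≤ 1 / 2 * 2 ^ (N * n) := by
      rw [← mul_assoc]
      refine mul_le_mul_of_nonneg_right ?_ (by positivity)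
      have hSn' : (S : ℝ) ≤ n := by exact_mod_cast hSn
      have h4 : (n : ℝ) * Real.exp (-n) ≤ 1 / 2 := by
        have h5 : 2 * (n : ℝ) ≤ Real.exp n := by
          have h6 := Real.add_one_le_exp ((n : ℝ) - 1)
          have h7 : Real.exp n = Real.exp 1 * Real.exp (n - 1) := by
            rw [← Real.exp_add]; ring_nf
          have h8 := Real.exp_one_gt_d9
          rw [h7]
          have h9 : (n : ℝ) ≤ Real.exp (n - 1) := by linarith
          nlinarith [Real.exp_pos ((n : ℝ) - 1)]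
        rw [Real.exp_neg]
        rw [← div_eq_mul_inv, div_le_iff₀ (Real.exp_pos _)]
        linarith
      exact (mul_le_mul_of_nonneg_right hSn' (Real.exp_pos _).le).trans h4
    have h4 : (0 : ℝ) < 2 ^ (N * n) := by positivity
    linarith
  have hunion' : (B0 ∪ (Finset.Icc 1 S).biUnion Bs).card <
      (univ : Finset (Fin N → Fin n → Bool)).card := by exact_mod_cast hunion
  obtain ⟨G, _, hG⟩ := Finset.exists_mem_notMem_of_card_lt_card hunion'
  rw [Finset.mem_union, not_or] at hG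
  obtain ⟨hG0, hG1⟩ := hG
  refine ⟨N, G, S, hNpos, hM1, hM2, hM3, hS16, hS32, ?_, ?_, ?_⟩
  · intro v
    by_contra hv
    push Not at hv
    exact hG0 (by rw [hB0, Finset.mem_filter]; exact ⟨Finset.mem_univ _, v, hv⟩)
  · intro s h1 h2
    by_contra hv
    apply hG1
    rw [Finset.mem_biUnion]
    exact ⟨s, Finset.mem_Icc.mpr ⟨h1, h2⟩, by
      rw [hBs, Finset.mem_filter]; exact ⟨Finset.mem_univ _, hv⟩⟩
  · intro s h1 h2
    exact (hst s h1 (hlev s h2)).2.2.1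

end Pool.Agent.LL
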