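import Pool.Agent.Helper38.LL.Defs

/-!
LL-LB. The matrices `AG lam Γ H` and `Hm S b β`: positivity and rank one updates
(`Γᵀ (b bᵀ) Γ = (Γᵀ b)(Γᵀ b)ᵀ`; `Γᵀ diagonal β Γ = ∑ β k • (Γ k)(Γ k)ᵀ`).
-/

namespace Pool.Agent.LL

open Finset Matrix

private lemma lb_form {N n : ℕ} (lam : ℝ) (Γ : Matrix (Fin N) (Fin n) ℝ)
    (H : Matrix (Fin N) (Fin N) ℝ) (v : Fin n → ℝ) :
    v ⬝ᵥ (AG lam Γ H *ᵥ v) = lam * (v ⬝ᵥ v) + (Γ *ᵥ v) ⬝ᵥ (H *ᵥ (Γ *ᵥ v)) := by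
  unfold AG
  rw [add_mulVec, dotProduct_add, smul_mulVec, one_mulVec, dotProduct_smul, smul_eq_mul]
  congr 1
  rw [Matrix.mul_assoc, ← mulVec_mulVec, ← mulVec_mulVec, dotProduct_mulVec, vecMul_transpose]

private lemma lb_psd {N : ℕ} {H : Matrix (Fin N) (Fin N) ℝ} (hH : H.PosSemidef)
    (z : Fin N → ℝ) : 0 ≤ z ⬝ᵥ (H *ᵥ z) := by
  have h := hH.dotProduct_mulVec_nonneg z
  simpa using h

private lemma lb_r1_psd {N : ℕ} (b : Fin N → ℝ) : (r1 b).PosSemidef := by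
  have h := Matrix.posSemidef_vecMulVec_self_star b
  simpa [r1] using h

theorem posDef_AG {N n : ℕ} {lam : ℝ} (hlam : 0 < lam) (Γ : Matrix (Fin N) (Fin n) ℝ)
    {H : Matrix (Fin N) (Fin N) ℝ} (hH : H.PosSemidef) : (AG lam Γ H).PosDef := by
  unfold AG
  have h1 : (lam • (1 : Matrix (Fin n) (Fin n) ℝ)).PosDef := Matrix.PosDef.one.smul hlam
  have h2 : (Γᵀ * H * Γ).PosSemidef := by
    have := hH.conjTranspose_mul_mul_same Γ
    rwa [conjTranspose_eq_transpose_of_trivial] at this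
  exact h1.add_posSemidef h2

theorem le_AG {N n : ℕ} (lam : ℝ) (Γ : Matrix (Fin N) (Fin n) ℝ)
    {H : Matrix (Fin N) (Fin N) ℝ} (hH : H.PosSemidef) (v : Fin n → ℝ) :
    lam * (v ⬝ᵥ v) ≤ v ⬝ᵥ (AG lam Γ H *ᵥ v) := by
  rw [lb_form]
  have := lb_psd hH (Γ *ᵥ v)
  linarith

theorem AG_add_r1 {N n : ℕ} (lam : ℝ) (Γ : Matrix (Fin N) (Fin n) ℝ)
    (H : Matrix (Fin N) (Fin N) ℝ) (b : Fin N → ℝ) :
    AG lam Γ (H + r1 b) = AG lam Γ H + r1 (Γᵀ *ᵥ b) := by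
  unfold AG r1
  rw [Matrix.mul_add, Matrix.add_mul, Matrix.mul_vecMulVec, Matrix.vecMulVec_mul,
    ← mulVec_transpose, add_assoc]

/-- Monotonicity in `H`. -/
theorem AG_mono {N n : ℕ} (lam : ℝ) (Γ : Matrix (Fin N) (Fin n) ℝ)
    {H H' : Matrix (Fin N) (Fin N) ℝ} (h : ∀ z, z ⬝ᵥ (H' *ᵥ z) ≤ z ⬝ᵥ (H *ᵥ z)) (v : Fin n → ℝ) :
    v ⬝ᵥ (AG lam Γ H' *ᵥ v) ≤ v ⬝ᵥ (AG lam Γ H *ᵥ v) := by
  rw [lb_form, lb_form]
  have := h (Γ *ᵥ v)
  linarith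

theorem posSemidef_Hm {N n : ℕ} (S : Finset (Fin n)) (b : Fin n → Fin N → ℝ) {β : Fin N → ℝ}
    (hβ : ∀ k, 0 ≤ β k) : (Hm S b β).PosSemidef := by
  unfold Hm
  refine PosSemidef.add ?_ (PosSemidef.diagonal hβ)
  exact Matrix.posSemidef_sum S fun a _ => lb_r1_psd (b a)

/-- Split off the row `i`. -/
theorem AG_Hm_erase {N n : ℕ} (lam : ℝ) (Γ : Matrix (Fin N) (Fin n) ℝ) {S : Finset (Fin n)}
    {i : Fin n} (hi : i ∈ S) (b : Fin n → Fin N → ℝ) (β : Fin N → ℝ) :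
    AG lam Γ (Hm S b β) = AG lam Γ (Hm (S.erase i) b β) + r1 (Γᵀ *ᵥ b i) := by
  rw [← AG_add_r1]
  congr 1
  unfold Hm
  rw [← Finset.sum_erase_add S _ hi]
  abel

/-- The explicit form. -/
theorem AG_Hm {N n : ℕ} (lam : ℝ) (Γ : Matrix (Fin N) (Fin n) ℝ) (S : Finset (Fin n))
    (b : Fin n → Fin N → ℝ) (β : Fin N → ℝ) :
    AG lam Γ (Hm S b β) = lam • (1 : Matrix (Fin n) (Fin n) ℝ) + ∑ k, β k • r1 (Γ k) +
      ∑ a ∈ S, r1 (Γᵀ *ᵥ b a) := by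
  induction S using Finset.induction_on with
  | empty =>
    unfold AG Hm
    rw [Finset.sum_empty, Finset.sum_empty, zero_add, add_zero]
    congr 1
    ext i j
    rw [Matrix.mul_apply, Matrix.sum_apply]
    refine Finset.sum_congr rfl fun k _ => ?_
    rw [Matrix.mul_diagonal, transpose_apply, Matrix.smul_apply, smul_eq_mul, r1, vecMulVec_apply]
    ring
  | insert a S ha ih =>
    rw [Finset.sum_insert ha, AG_Hm_erase lam Γ (Finset.mem_insert_self a S) b β,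
      Finset.erase_insert ha, ih]
    abel

/-- Adding the weight `c` to the spike `k`. -/
theorem AG_Hm_add {N n : ℕ} (lam : ℝ) (Γ : Matrix (Fin N) (Fin n) ℝ) (S : Finset (Fin n))
    (b : Fin n → Fin N → ℝ) (β : Fin N → ℝ) {c : ℝ} (hc : 0 ≤ c) (k : Fin N) :
    AG lam Γ (Hm S b (fun l => β l + if l = k then c else 0)) =
      AG lam Γ (Hm S b β) + r1 (Real.sqrt c • Γ k) := by
  rw [AG_Hm, AG_Hm]
  have h1 : ∑ l, (β l + if l = k then c else 0) • r1 (Γ l)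
      = ∑ l, β l • r1 (Γ l) + c • r1 (Γ k) := by
    simp_rw [add_smul]
    rw [Finset.sum_add_distrib]
    congr 1
    simp_rw [ite_smul, zero_smul]
    rw [Finset.sum_ite_eq' univ k]
    simp
  have h2 : r1 (Real.sqrt c • Γ k) = c • r1 (Γ k) := by
    unfold r1
    rw [Matrix.smul_vecMulVec, Matrix.vecMulVec_smul, smul_smul, Real.mul_self_sqrt hc]
  rw [h1, h2]
  abel

/-- A spike with weight `c > 0` in the design has a form `≤ c⁻¹`. -/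
theorem qf_le_inv {N n : ℕ} {lam : ℝ} (hlam : 0 < lam) (Γ : Matrix (Fin N) (Fin n) ℝ)
    (S : Finset (Fin n)) (b : Fin n → Fin N → ℝ) {β : Fin N → ℝ} (hβ : ∀ k, 0 ≤ β k) {c : ℝ}
    (hc : 0 < c) {k : Fin N} (hk : c ≤ β k) : qf (AG lam Γ (Hm S b β)) (Γ k) ≤ c⁻¹ := by
  have hA := posDef_AG hlam Γ (posSemidef_Hm S b hβ)
  set A := AG lam Γ (Hm S b β) with hAdef
  set z := A⁻¹ *ᵥ Γ k with hz
  have hAz : A *ᵥ z = Γ k := by
    rw [hz, mulVec_mulVec, Matrix.mul_nonsing_inv _ hA.det_pos.ne'.isUnit, one_mulVec]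
  have hq : qf A (Γ k) = z ⬝ᵥ (A *ᵥ z) := by
    rw [hAz, qf, dotProduct_comm]
  have hq2 : qf A (Γ k) = Γ k ⬝ᵥ z := rfl
  -- lower bound
  have hlow : c * (Γ k ⬝ᵥ z) ^ 2 ≤ z ⬝ᵥ (A *ᵥ z) := by
    rw [hAdef, lb_form]
    have h1 : 0 ≤ lam * (z ⬝ᵥ z) := mul_nonneg hlam.le (by
      simpa using dotProduct_star_self_nonneg z)
    have h2 : (Γ *ᵥ z) ⬝ᵥ (Hm S b β *ᵥ (Γ *ᵥ z)) = (Γ *ᵥ z) ⬝ᵥ ((∑ a ∈ S, r1 (b a)) *ᵥ (Γ *ᵥ z))
        + ∑ l, β l * (Γ *ᵥ z) l ^ 2 := by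
      unfold Hm
      rw [add_mulVec, dotProduct_add]
      congr 1
      simp only [dotProduct, mulVec_diagonal]
      refine Finset.sum_congr rfl fun l _ => ?_
      ring
    have h3 : 0 ≤ (Γ *ᵥ z) ⬝ᵥ ((∑ a ∈ S, r1 (b a)) *ᵥ (Γ *ᵥ z)) :=
      lb_psd (Matrix.posSemidef_sum S fun a _ => lb_r1_psd (b a)) _
    have h4 : β k * (Γ *ᵥ z) k ^ 2 ≤ ∑ l, β l * (Γ *ᵥ z) l ^ 2 :=
      Finset.single_le_sum (f := fun l => β l * (Γ *ᵥ z) l ^ 2)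
        (fun l _ => mul_nonneg (hβ l) (sq_nonneg _)) (Finset.mem_univ k)
    have h5 : (Γ *ᵥ z) k = Γ k ⬝ᵥ z := rfl
    rw [h2]
    rw [h5] at h4
    have h6 : c * (Γ k ⬝ᵥ z) ^ 2 ≤ β k * (Γ k ⬝ᵥ z) ^ 2 :=
      mul_le_mul_of_nonneg_right hk (sq_nonneg _)
    linarith
  rw [← hq, ← hq2] at hlow
  have hq0 : 0 ≤ qf A (Γ k) := le_trans (by positivity) hlow
  rcases hq0.eq_or_lt with h | h
  · rw [← h]; positivity
  · have h7 : c * qf A (Γ k) ≤ 1 := by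
      have : c * qf A (Γ k) * qf A (Γ k) ≤ 1 * qf A (Γ k) := by
        rw [one_mul]; calc c * qf A (Γ k) * qf A (Γ k) = c * qf A (Γ k) ^ 2 := by ring
          _ ≤ _ := hlow
      exact le_of_mul_le_mul_right this h
    rw [← one_div, le_div_iff₀ hc]
    linarith

/-- Convexity: the form of a combination. -/
theorem qf_comb {N n : ℕ} {A : Matrix (Fin n) (Fin n) ℝ} (hA : A.PosDef)
    (Γ : Matrix (Fin N) (Fin n) ℝ) {x : ℝ} (hx0 : 0 ≤ x) (hx : ∀ k, qf A (Γ k) ≤ x)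
    {w : ℝ} (hw : 0 ≤ w) {a : Fin N → ℝ} (ha : ∑ k, |a k| ≤ 1) :
    qf A (Γᵀ *ᵥ (fun k => Real.sqrt w * a k)) ≤ w * x := by
  have hI := hA.inv
  have hsym : ∀ u v : Fin n → ℝ, u ⬝ᵥ (A⁻¹ *ᵥ v) = v ⬝ᵥ (A⁻¹ *ᵥ u) := by
    intro u v
    have hT : A⁻¹ᵀ = A⁻¹ := by
      have := hI.isHermitian.eq
      rwa [conjTranspose_eq_transpose_of_trivial] at this
    rw [dotProduct_mulVec, ← mulVec_transpose, hT, dotProduct_comm]
  have hnn : ∀ u : Fin n → ℝ, 0 ≤ u ⬝ᵥ (A⁻¹ *ᵥ u) := fun u => lb_psd hI.posSemidef u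
  have hB : ∀ k l, |Γ k ⬝ᵥ (A⁻¹ *ᵥ Γ l)| ≤ x := by
    intro k l
    have h1 := hnn (Γ k + Γ l)
    have h2 := hnn (Γ k - Γ l)
    have h3 := hx k
    have h4 := hx l
    unfold qf at h3 h4
    rw [mulVec_add, add_dotProduct, dotProduct_add, dotProduct_add, hsym (Γ l) (Γ k)] at h1
    rw [mulVec_sub, sub_dotProduct, dotProduct_sub, dotProduct_sub, hsym (Γ l) (Γ k)] at h2
    rw [abs_le]
    constructor <;> linarith
  have hexp : Γᵀ *ᵥ (fun k => Real.sqrt w * a k) = ∑ k, (Real.sqrt w * a k) • Γ k := by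
    ext i
    simp only [mulVec, dotProduct, Finset.sum_apply, Pi.smul_apply, smul_eq_mul, transpose_apply]
    exact Finset.sum_congr rfl fun k _ => by ring
  have hq : qf A (Γᵀ *ᵥ (fun k => Real.sqrt w * a k))
      = ∑ k, ∑ l, (Real.sqrt w * a k) * (Real.sqrt w * a l) * (Γ k ⬝ᵥ (A⁻¹ *ᵥ Γ l)) := by
    rw [qf, hexp, mulVec_sum, sum_dotProduct]
    refine Finset.sum_congr rfl fun k _ => ?_
    rw [dotProduct_sum]
    refine Finset.sum_congr rfl fun l _ => ?_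
    rw [mulVec_smul, dotProduct_smul, smul_dotProduct, smul_eq_mul, smul_eq_mul]
    ring
  rw [hq]
  have hw2 : Real.sqrt w * Real.sqrt w = w := Real.mul_self_sqrt hw
  calc ∑ k, ∑ l, (Real.sqrt w * a k) * (Real.sqrt w * a l) * (Γ k ⬝ᵥ (A⁻¹ *ᵥ Γ l))
      ≤ ∑ k, ∑ l, w * x * (|a k| * |a l|) := by
        refine Finset.sum_le_sum fun k _ => Finset.sum_le_sum fun l _ => ?_
        calc (Real.sqrt w * a k) * (Real.sqrt w * a l) * (Γ k ⬝ᵥ (A⁻¹ *ᵥ Γ l))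
            = (Real.sqrt w * Real.sqrt w) * (a k * a l * (Γ k ⬝ᵥ (A⁻¹ *ᵥ Γ l))) := by ring
          _ = w * (a k * a l * (Γ k ⬝ᵥ (A⁻¹ *ᵥ Γ l))) := by rw [hw2]
          _ ≤ w * (|a k| * |a l| * x) := by
              refine mul_le_mul_of_nonneg_left ?_ hw
              calc a k * a l * (Γ k ⬝ᵥ (A⁻¹ *ᵥ Γ l)) ≤ |a k * a l * (Γ k ⬝ᵥ (A⁻¹ *ᵥ Γ l))| :=
                    le_abs_self _
                _ = |a k| * |a l| * |Γ k ⬝ᵥ (A⁻¹ *ᵥ Γ l)| := by rw [abs_mul, abs_mul]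
                _ ≤ |a k| * |a l| * x := mul_le_mul_of_nonneg_left (hB k l) (by positivity)
          _ = w * x * (|a k| * |a l|) := by ring
    _ = w * x * ((∑ k, |a k|) * (∑ l, |a l|)) := by
        rw [Finset.sum_mul_sum, Finset.mul_sum]
        exact Finset.sum_congr rfl fun k _ => by rw [Finset.mul_sum]
    _ ≤ w * x * (1 * 1) := by
        refine mul_le_mul_of_nonneg_left ?_ (mul_nonneg hw hx0)
        have h0 : 0 ≤ ∑ k, |a k| := Finset.sum_nonneg fun k _ => abs_nonneg _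
        exact mul_le_mul ha ha h0 zero_le_one
    _ = w * x := by ring

end Pool.Agent.LL
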