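import Pool.Agent.Helper38.LL.LA
import Pool.Agent.Helper38.LL.LB

/-!
LL-HP. Removing the columns in `J`. Induction on `J`: for one `j`, if `H j j = 0` then the row and the
column `j` vanish (positive semidefinite) and `H' = H`; otherwise
`H' = H - (H j j)⁻¹ (column j)(column j)ᵀ`, which is positive semidefinite by Cauchy-Schwarz
(`(e_jᵀ H x)² ≤ H j j · xᵀ H x`), has zero row and column `j`, and keeps zero rows and columns. So
`H = H' + r1 v`, `AG lam Γ H = AG lam Γ H' + r1 (Γᵀ v)` (`AG_add_r1`), and `ti_le_add`, `qf_anti`.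
-/

namespace Pool.Agent.LL

open Finset Matrix

theorem psd_quad {N : ℕ} {H : Matrix (Fin N) (Fin N) ℝ} (hH : H.PosSemidef) (x : Fin N → ℝ)
    (j : Fin N) (c : ℝ) :
    0 ≤ x ⬝ᵥ (H *ᵥ x) - 2 * c * (H *ᵥ x) j + c ^ 2 * H j j := by
  have h := hH.dotProduct_mulVec_nonneg (x - c • Pi.single j (1 : ℝ))
  have hs : Hᵀ = H := by
    have := hH.isHermitian
    rwa [Matrix.IsHermitian, Matrix.conjTranspose_eq_transpose_of_trivial] at this
  have h1 : x ⬝ᵥ (H *ᵥ Pi.single j (1 : ℝ)) = (H *ᵥ x) j := by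
    rw [Matrix.dotProduct_mulVec, ← Matrix.mulVec_transpose, hs]
    simp
  have h2 : (Pi.single j (1 : ℝ) : Fin N → ℝ) ⬝ᵥ (H *ᵥ x) = (H *ᵥ x) j := by
    simp
  have h3 : (Pi.single j (1 : ℝ) : Fin N → ℝ) ⬝ᵥ (H *ᵥ Pi.single j (1 : ℝ)) = H j j := by
    simp [Matrix.mulVec_single]
  simp only [star_trivial, Matrix.mulVec_sub, Matrix.mulVec_smul, dotProduct_sub, sub_dotProduct,
    dotProduct_smul, smul_dotProduct, h1, h2, h3, smul_eq_mul] at h
  nlinarith [h]

theorem exists_zero_one {N : ℕ} (H : Matrix (Fin N) (Fin N) ℝ) (hH : H.PosSemidef) (j : Fin N) :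
    ∃ (H' : Matrix (Fin N) (Fin N) ℝ) (v : Fin N → ℝ), H'.PosSemidef ∧ H = H' + r1 v ∧
      (∀ k, H' j k = 0 ∧ H' k j = 0) ∧
      (∀ i, (∀ k, H i k = 0 ∧ H k i = 0) → ∀ k, H' i k = 0 ∧ H' k i = 0) := by
  have hs : ∀ a b, H a b = H b a := by
    intro a b
    have := hH.isHermitian.apply a b
    simpa using this.symm
  rcases (hH.diag_nonneg (i := j)).eq_or_lt with h0 | h0
  · -- the row vanishes
    have hz : ∀ k, H j k = 0 := by
      intro k
      by_contra hne
      have hk := fun c : ℝ => psd_quad hH (Pi.single k (1 : ℝ)) j c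
      have e1 : (Pi.single k (1 : ℝ) : Fin N → ℝ) ⬝ᵥ (H *ᵥ Pi.single k (1 : ℝ)) = H k k := by
        simp [Matrix.mulVec_single]
      have e2 : (H *ᵥ (Pi.single k (1 : ℝ) : Fin N → ℝ)) j = H j k := by
        simp [Matrix.mulVec_single]
      have := hk ((H k k + 1) / (2 * H j k))
      rw [e1, e2, ← h0] at this
      have h3 : 2 * ((H k k + 1) / (2 * H j k)) * H j k = H k k + 1 := by
        field_simp
      rw [h3] at this
      linarith
    refine ⟨H, 0, hH, ?_, ?_, fun i hi => hi⟩
    · ext a b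
      simp [r1]
    · intro k
      exact ⟨hz k, by rw [hs]; exact hz k⟩
  · set v : Fin N → ℝ := fun k => H k j / Real.sqrt (H j j) with hv
    have hsq : Real.sqrt (H j j) * Real.sqrt (H j j) = H j j := Real.mul_self_sqrt h0.le
    have hsp : 0 < Real.sqrt (H j j) := Real.sqrt_pos.2 h0
    have hr : ∀ a b, r1 v a b = H a j * H b j / H j j := by
      intro a b
      simp only [r1, vecMulVec_apply, hv]
      rw [div_mul_div_comm, hsq]
    refine ⟨H - r1 v, v, ?_, by simp, ?_, ?_⟩
    · apply Matrix.PosSemidef.of_dotProduct_mulVec_nonneg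
      · ext a b
        simp only [conjTranspose_apply, star_trivial, Matrix.sub_apply, hr]
        rw [hs b a]
        ring
      · intro x
        have h := psd_quad hH x j ((H *ᵥ x) j / H j j)
        have e1 : r1 v *ᵥ x = (v ⬝ᵥ x) • v := by
          ext a
          simp only [r1, vecMulVec, mulVec, dotProduct, of_apply, Pi.smul_apply, smul_eq_mul,
            Finset.sum_mul]
          apply Finset.sum_congr rfl
          intro b _
          ring
        have e2 : (v ⬝ᵥ x) = (H *ᵥ x) j / Real.sqrt (H j j) := by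
          simp only [dotProduct, mulVec, hv, Finset.sum_div]
          apply Finset.sum_congr rfl
          intro b _
          rw [hs b j]
          ring
        have e3 : x ⬝ᵥ (r1 v *ᵥ x) = ((H *ᵥ x) j) ^ 2 / H j j := by
          rw [e1, dotProduct_smul, dotProduct_comm x v, e2, smul_eq_mul, div_mul_div_comm, hsq]
          ring
        simp only [star_trivial, sub_mulVec, dotProduct_sub, e3]
        have e4 : 2 * ((H *ᵥ x) j / H j j) * (H *ᵥ x) j = 2 * (((H *ᵥ x) j) ^ 2 / H j j) := by
          ring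
        have e5 : ((H *ᵥ x) j / H j j) ^ 2 * H j j = ((H *ᵥ x) j) ^ 2 / H j j := by
          field_simp
        rw [e4, e5] at h
        linarith
    · intro k
      simp only [Matrix.sub_apply, hr]
      constructor
      · rw [hs k j]
        field_simp
        ring
      · field_simp
        ring
    · intro i hi k
      simp only [Matrix.sub_apply, hr]
      constructor
      · rw [(hi k).1, (hi j).1]
        simp
      · rw [(hi k).2, (hi j).1]
        simp

theorem exists_zero {N : ℕ} (H : Matrix (Fin N) (Fin N) ℝ) (hH : H.PosSemidef)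
    (J : Finset (Fin N)) :
    ∃ H' : Matrix (Fin N) (Fin N) ℝ, H'.PosSemidef ∧ (∀ j ∈ J, ∀ k, H' j k = 0 ∧ H' k j = 0) ∧
      ∀ (n : ℕ) (Γ : Matrix (Fin N) (Fin n) ℝ) (lam : ℝ), 0 < lam →
        (∀ v, qf (AG lam Γ H) v ≤ qf (AG lam Γ H') v) ∧
          ti (AG lam Γ H') ≤ ti (AG lam Γ H) + J.card / lam := by
  classical
  induction J using Finset.induction_on with
  | empty =>
    refine ⟨H, hH, by simp, ?_⟩
    intro n Γ lam hlam
    simp
  | insert j J hj ih =>
    obtain ⟨H₁, hp, hz, hc⟩ := ih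
    obtain ⟨H', v, hp', he, hz', hk⟩ := exists_zero_one H₁ hp j
    refine ⟨H', hp', ?_, ?_⟩
    · intro i hi
      rcases Finset.mem_insert.1 hi with rfl | hi
      · exact hz'
      · exact hk i (hz i hi)
    · intro n Γ lam hlam
      obtain ⟨h1, h2⟩ := hc n Γ lam hlam
      have hA := posDef_AG hlam Γ hp'
      have hB := posDef_AG hlam Γ hp
      have hadd : AG lam Γ H₁ = AG lam Γ H' + r1 (Γᵀ *ᵥ v) := by
        rw [← AG_add_r1, ← he]
      constructor
      · intro u
        refine (h1 u).trans ?_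
        apply qf_anti hA hB
        intro w
        rw [hadd, add_mulVec, dotProduct_add]
        have e1 : w ⬝ᵥ (r1 (Γᵀ *ᵥ v) *ᵥ w) = ((Γᵀ *ᵥ v) ⬝ᵥ w) ^ 2 := by
          have e2 : r1 (Γᵀ *ᵥ v) *ᵥ w = ((Γᵀ *ᵥ v) ⬝ᵥ w) • (Γᵀ *ᵥ v) := by
            ext a
            simp only [r1, vecMulVec, mulVec, dotProduct, of_apply, Pi.smul_apply, smul_eq_mul]
            rw [Finset.sum_mul]
            apply Finset.sum_congr rfl
            intro b _
            ring
          rw [e2, dotProduct_smul, dotProduct_comm w, smul_eq_mul, sq]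
        rw [e1]
        nlinarith [sq_nonneg ((Γᵀ *ᵥ v) ⬝ᵥ w)]
      · have h3 := ti_le_add hA hlam (le_AG lam Γ hp') (Γᵀ *ᵥ v)
        rw [← hadd] at h3
        rw [Finset.card_insert_of_notMem hj]
        push_cast
        rw [add_div]
        linarith

end Pool.Agent.LL
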