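import Pool.Agent.Helper38.LL.Defs

/-!
LL-LA. Rank one updates of the inverse.
`ti_add_r1`, `qf_add_r1`, `inv_mulVec_add_r1`: Sherman-Morrison,
`(A + v vᵀ)⁻¹ = A⁻¹ - A⁻¹ v vᵀ A⁻¹ / (1 + vᵀ A⁻¹ v)` (multiply out; `A⁻¹` is symmetric).
`qf_anti`: `2 vᵀ w - wᵀ A w ≤ vᵀ A⁻¹ v` for all `w` (complete the square); take `w = B⁻¹ v`.
`ti_anti`: sum over the unit vectors. `qf_le_div`: `qf_anti` for `lam • 1`.
`ti_le_add`: by `ti_add_r1` the difference is `|C⁻¹ v|² / (1 + vᵀ C⁻¹ v)`, and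
`|C⁻¹ v|² ≤ lam⁻¹ vᵀ C⁻¹ v` (put `z = C⁻¹ v`: `lam |z|² ≤ zᵀ C z = vᵀ C⁻¹ v`).
-/

namespace Pool.Agent.LL

open Finset Matrix

private lemma LA_tr {n : ℕ} {A : Matrix (Fin n) (Fin n) ℝ} (hA : A.PosDef) : Aᵀ = A := by
  have h := hA.isHermitian
  rwa [Matrix.IsHermitian, conjTranspose_eq_transpose_of_trivial] at h

private lemma LA_pos {n : ℕ} {A : Matrix (Fin n) (Fin n) ℝ} (hA : A.PosDef) (w : Fin n → ℝ) :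
    0 ≤ w ⬝ᵥ (A *ᵥ w) := by
  have h := hA.posSemidef.dotProduct_mulVec_nonneg w
  simpa using h

private lemma LA_symm {n : ℕ} {A : Matrix (Fin n) (Fin n) ℝ} (hA : A.PosDef) (u v : Fin n → ℝ) :
    u ⬝ᵥ (A *ᵥ v) = v ⬝ᵥ (A *ᵥ u) := by
  have h := LA_tr hA
  rw [dotProduct_mulVec, dotProduct_comm, ← mulVec_transpose, h]

private lemma LA_mul_inv {n : ℕ} {A : Matrix (Fin n) (Fin n) ℝ} (hA : A.PosDef) : A * A⁻¹ = 1 :=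
  mul_nonsing_inv A ((Matrix.isUnit_iff_isUnit_det A).mp hA.isUnit)

private lemma LA_mulVec_inv {n : ℕ} {A : Matrix (Fin n) (Fin n) ℝ} (hA : A.PosDef)
    (v : Fin n → ℝ) : A *ᵥ (A⁻¹ *ᵥ v) = v := by
  rw [mulVec_mulVec, LA_mul_inv hA, one_mulVec]

private lemma LA_r1_mulVec {n : ℕ} (z w : Fin n → ℝ) : r1 z *ᵥ w = (z ⬝ᵥ w) • z := by
  rw [r1, vecMulVec_mulVec, op_smul_eq_smul]

private lemma LA_qf_nonneg {n : ℕ} {A : Matrix (Fin n) (Fin n) ℝ} (hA : A.PosDef)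
    (v : Fin n → ℝ) : 0 ≤ qf A v := LA_pos hA.inv v

/-- Sherman-Morrison -/
private lemma LA_inv {n : ℕ} {A : Matrix (Fin n) (Fin n) ℝ} (hA : A.PosDef) (v : Fin n → ℝ) :
    (A + r1 v)⁻¹ = A⁻¹ - (1 + qf A v)⁻¹ • r1 (A⁻¹ *ᵥ v) := by
  have hq := LA_qf_nonneg hA v
  have hq1 : (1 + qf A v) ≠ 0 := by positivity
  apply inv_eq_right_inv
  have e1 : r1 v * A⁻¹ = vecMulVec v (A⁻¹ *ᵥ v) := by
    rw [r1, vecMulVec_mul, ← mulVec_transpose, LA_tr hA.inv]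
  have e2 : A * r1 (A⁻¹ *ᵥ v) = vecMulVec v (A⁻¹ *ᵥ v) := by
    rw [r1, mul_vecMulVec, LA_mulVec_inv hA]
  have e3 : r1 v * r1 (A⁻¹ *ᵥ v) = qf A v • vecMulVec v (A⁻¹ *ᵥ v) := by
    rw [r1, r1, vecMulVec_mul_vecMulVec, vecMulVec_smul]
    rfl
  rw [add_mul, mul_sub, mul_sub, Matrix.mul_smul, Matrix.mul_smul, e1, e2, e3, LA_mul_inv hA, smul_smul]
  have e4 : vecMulVec v (A⁻¹ *ᵥ v) = (1 + qf A v)⁻¹ • vecMulVec v (A⁻¹ *ᵥ v)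
      + ((1 + qf A v)⁻¹ * qf A v) • vecMulVec v (A⁻¹ *ᵥ v) := by
    rw [← add_smul, ← mul_one_add, inv_mul_cancel₀ hq1, one_smul]
  nth_rewrite 2 [e4]
  abel

theorem posDef_add_r1 {n : ℕ} {A : Matrix (Fin n) (Fin n) ℝ} (hA : A.PosDef) (v : Fin n → ℝ) :
    (A + r1 v).PosDef := by
  have h := hA.add_posSemidef (posSemidef_vecMulVec_self_star v)
  rw [star_trivial] at h
  exact h

theorem qf_nonneg {n : ℕ} {A : Matrix (Fin n) (Fin n) ℝ} (hA : A.PosDef) (v : Fin n → ℝ) :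
    0 ≤ qf A v := by
  exact LA_qf_nonneg hA v

theorem ti_nonneg {n : ℕ} {A : Matrix (Fin n) (Fin n) ℝ} (hA : A.PosDef) : 0 ≤ ti A := by
  exact hA.inv.posSemidef.trace_nonneg

theorem ti_add_r1 {n : ℕ} {A : Matrix (Fin n) (Fin n) ℝ} (hA : A.PosDef) (v : Fin n → ℝ) :
    ti (A + r1 v) = ti A - ((A⁻¹ *ᵥ v) ⬝ᵥ (A⁻¹ *ᵥ v)) / (1 + qf A v) := by
  rw [ti, LA_inv hA, trace_sub, trace_smul, r1, trace_vecMulVec, ti, smul_eq_mul, inv_mul_eq_div]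

theorem qf_add_r1 {n : ℕ} {A : Matrix (Fin n) (Fin n) ℝ} (hA : A.PosDef) (v u : Fin n → ℝ) :
    qf (A + r1 v) u = qf A u - (u ⬝ᵥ (A⁻¹ *ᵥ v)) ^ 2 / (1 + qf A v) := by
  rw [qf, LA_inv hA, sub_mulVec, smul_mulVec, LA_r1_mulVec, dotProduct_sub, dotProduct_smul,
    dotProduct_smul, dotProduct_comm (A⁻¹ *ᵥ v) u]
  simp only [smul_eq_mul]
  rw [← sq, inv_mul_eq_div]
  rfl

theorem inv_mulVec_add_r1 {n : ℕ} {A : Matrix (Fin n) (Fin n) ℝ} (hA : A.PosDef)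
    (v : Fin n → ℝ) : (A + r1 v)⁻¹ *ᵥ v = (1 + qf A v)⁻¹ • (A⁻¹ *ᵥ v) := by
  have hq := LA_qf_nonneg hA v
  have hq1 : (1 + qf A v) ≠ 0 := by positivity
  rw [LA_inv hA, sub_mulVec, smul_mulVec, LA_r1_mulVec, dotProduct_comm, smul_smul]
  have e : v ⬝ᵥ (A⁻¹ *ᵥ v) = qf A v := rfl
  rw [e]
  have e4 : (A⁻¹ *ᵥ v) = (1 + qf A v)⁻¹ • (A⁻¹ *ᵥ v)
      + ((1 + qf A v)⁻¹ * qf A v) • (A⁻¹ *ᵥ v) := by
    rw [← add_smul, ← mul_one_add, inv_mul_cancel₀ hq1, one_smul]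
  nth_rewrite 1 [e4]
  abel

theorem qf_anti {n : ℕ} {A B : Matrix (Fin n) (Fin n) ℝ} (hA : A.PosDef) (hB : B.PosDef)
    (h : ∀ w, w ⬝ᵥ (A *ᵥ w) ≤ w ⬝ᵥ (B *ᵥ w)) (v : Fin n → ℝ) : qf B v ≤ qf A v := by
  obtain ⟨w, hw⟩ : ∃ w, w = B⁻¹ *ᵥ v := ⟨_, rfl⟩
  have hB1 : B *ᵥ w = v := by rw [hw, LA_mulVec_inv hB]
  have h1 : w ⬝ᵥ (B *ᵥ w) = qf B v := by
    rw [hB1, hw, dotProduct_comm]
    rfl
  have h2 := h w
  rw [h1] at h2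
  have h3 : v ⬝ᵥ w = qf B v := by rw [hw]; rfl
  obtain ⟨z, hz⟩ : ∃ z, z = A⁻¹ *ᵥ v := ⟨_, rfl⟩
  have hA1 : A *ᵥ z = v := by rw [hz, LA_mulVec_inv hA]
  have h4 := LA_pos hA (w - z)
  rw [mulVec_sub, sub_dotProduct, dotProduct_sub, dotProduct_sub, hA1, LA_symm hA z w, hA1] at h4
  have h5 : z ⬝ᵥ v = qf A v := by rw [hz, dotProduct_comm]; rfl
  rw [h5, dotProduct_comm w v, h3] at h4
  linarith

theorem ti_anti {n : ℕ} {A B : Matrix (Fin n) (Fin n) ℝ} (hA : A.PosDef) (hB : B.PosDef)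
    (h : ∀ w, w ⬝ᵥ (A *ᵥ w) ≤ w ⬝ᵥ (B *ᵥ w)) : ti B ≤ ti A := by
  have key : ∀ {C : Matrix (Fin n) (Fin n) ℝ}, ti C = ∑ i, qf C (Pi.single i 1) := by
    intro C
    rw [ti, trace]
    refine Finset.sum_congr rfl fun i _ => ?_
    rw [qf, single_one_dotProduct, mulVec_single_one]
    rfl
  rw [key, key]
  exact Finset.sum_le_sum fun i _ => qf_anti hA hB h _

theorem qf_le_div {n : ℕ} {A : Matrix (Fin n) (Fin n) ℝ} (hA : A.PosDef) {lam : ℝ}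
    (hlam : 0 < lam) (h : ∀ w, lam * (w ⬝ᵥ w) ≤ w ⬝ᵥ (A *ᵥ w)) (v : Fin n → ℝ) :
    qf A v ≤ (v ⬝ᵥ v) / lam := by
  obtain ⟨z, hz⟩ : ∃ z, z = A⁻¹ *ᵥ v := ⟨_, rfl⟩
  have hA1 : A *ᵥ z = v := by rw [hz, LA_mulVec_inv hA]
  have h5 : z ⬝ᵥ v = qf A v := by rw [hz, dotProduct_comm]; rfl
  have h1 := h z
  rw [hA1, h5] at h1
  have h2 : 0 ≤ (v - lam • z) ⬝ᵥ (v - lam • z) := dotProduct_self_star_nonneg (v - lam • z)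
  rw [sub_dotProduct, dotProduct_sub, dotProduct_sub, smul_dotProduct, smul_dotProduct,
    dotProduct_smul, dotProduct_smul, dotProduct_comm v z, h5] at h2
  simp only [smul_eq_mul] at h2
  rw [le_div_iff₀ hlam]
  have h3 : lam * (lam * (z ⬝ᵥ z)) ≤ lam * qf A v := mul_le_mul_of_nonneg_left h1 hlam.le
  linarith

theorem ti_le_add {n : ℕ} {C : Matrix (Fin n) (Fin n) ℝ} (hC : C.PosDef) {lam : ℝ}
    (hlam : 0 < lam) (h : ∀ w, lam * (w ⬝ᵥ w) ≤ w ⬝ᵥ (C *ᵥ w)) (v : Fin n → ℝ) :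
    ti C ≤ ti (C + r1 v) + 1 / lam := by
  rw [ti_add_r1 hC]
  obtain ⟨z, hz⟩ : ∃ z, z = C⁻¹ *ᵥ v := ⟨_, rfl⟩
  have hA1 : C *ᵥ z = v := by rw [hz, LA_mulVec_inv hC]
  have h5 : z ⬝ᵥ v = qf C v := by rw [hz, dotProduct_comm]; rfl
  have h1 := h z
  rw [hA1, h5] at h1
  rw [← hz]
  have hq := LA_qf_nonneg hC v
  have h2 : (z ⬝ᵥ z) / (1 + qf C v) ≤ 1 / lam := by
    rw [div_le_div_iff₀ (by positivity) hlam]
    linarith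
  linarith

end Pool.Agent.LL
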