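import Pool.Agent.Helper38.LL.Defs

/-!
LL-MG. Exponential moment of a quadratic form in signs, by induction on `n`. Split off the
coordinate `0`: `K = [[a, kᵀ], [k, K']]`, `sᵀ K s = a + 2 s₀ ⟨k, s'⟩ + s'ᵀ K' s'` and
`(e^y + e^(-y))/2 ≤ e^(y²/2)` (`Real.cosh_le_exp_half_sq`), so the average over `s₀` is at most
`exp (θ a + θ s'ᵀ K₁ s')`, `K₁ = K' + 2 θ k kᵀ`. `K₁` is positive semidefinite and again `≤ κ`:
for all `t`, `a t² + 2 t ⟨k, v⟩ + vᵀ K' v ≤ κ t² + κ |v|²`, `a ≥ 0`; `t = ⟨k, v⟩/κ` gives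
`vᵀ K' v + ⟨k, v⟩²/κ ≤ κ |v|²`, and `2 θ ≤ 1/κ`. Finally
`|k|² + a² = |K e₀|² ≤ κ e₀ᵀ K e₀ = κ a` (Cauchy-Schwarz for `K`), so
`θ a + 2 θ tr K₁ = θ a + 2 θ (tr K - a) + 4 θ² |k|² ≤ 2 θ tr K`.
-/

namespace Pool.Agent.LL

open Finset Matrix

/-- The quadratic form at `(t, v)`. -/
theorem mg_cons {n : ℕ} (K : Matrix (Fin (n + 1)) (Fin (n + 1)) ℝ) (hs : K.IsHermitian)
    (t : ℝ) (v : Fin n → ℝ) :
    (Fin.cons t v : Fin (n + 1) → ℝ) ⬝ᵥ (K *ᵥ (Fin.cons t v : Fin (n + 1) → ℝ)) =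
      K 0 0 * t ^ 2 + 2 * t * ((fun i => K 0 (Fin.succ i)) ⬝ᵥ v) +
        v ⬝ᵥ (K.submatrix Fin.succ Fin.succ *ᵥ v) := by
  have hsym : ∀ i j, K i j = K j i := fun i j => by
    have := hs.apply i j
    simpa using this.symm
  simp only [dotProduct, mulVec, Fin.sum_univ_succ, Fin.cons_zero, Fin.cons_succ, submatrix_apply]
  have h1 : ∑ i : Fin n, v i * (K (Fin.succ i) 0 * t + ∑ j : Fin n, K (Fin.succ i) (Fin.succ j) * v j)
      = t * ∑ i : Fin n, K 0 (Fin.succ i) * v i +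
        ∑ i : Fin n, v i * ∑ j : Fin n, K (Fin.succ i) (Fin.succ j) * v j := by
    rw [Finset.mul_sum, ← Finset.sum_add_distrib]
    refine Finset.sum_congr rfl fun i _ => ?_
    rw [hsym (Fin.succ i) 0]
    ring
  rw [h1]
  ring

/-- Sum over the vectors of booleans of length `n + 1`. -/
theorem mg_sum {n : ℕ} (f : (Fin (n + 1) → Bool) → ℝ) :
    ∑ a : Fin (n + 1) → Bool, f a =
      ∑ a : Fin n → Bool, (f (Fin.cons true a) + f (Fin.cons false a)) := by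
  rw [← (Fin.consEquiv (fun _ : Fin (n + 1) => Bool)).sum_comp, Fintype.sum_prod_type]
  simp only [Fintype.sum_bool, Fin.consEquiv, Equiv.coe_fn_mk]
  rw [← Finset.sum_add_distrib]

theorem mg_sv {n : ℕ} (b : Bool) (a : Fin n → Bool) :
    sv (Fin.cons b a : Fin (n + 1) → Bool) = (Fin.cons (sg b) (sv a) : Fin (n + 1) → ℝ) := by
  funext i
  refine Fin.cases ?_ (fun i => ?_) i
  · simp [sv]
  · simp [sv]

theorem mgf {n : ℕ} (K : Matrix (Fin n) (Fin n) ℝ) (hK : K.PosSemidef) {κ θ : ℝ} (hκ : 0 < κ)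
    (hle : ∀ v, v ⬝ᵥ (K *ᵥ v) ≤ κ * (v ⬝ᵥ v)) (hθ : 0 ≤ θ) (h4 : 4 * θ * κ ≤ 1) :
    ∑ a : Fin n → Bool, Real.exp (θ * (sv a ⬝ᵥ (K *ᵥ sv a))) ≤
      2 ^ n * Real.exp (2 * θ * K.trace) := by
  induction n with
  | zero =>
    simp [dotProduct, Matrix.trace]
  | succ n ih =>
    set k : Fin n → ℝ := fun i => K 0 (Fin.succ i) with hk
    set K' : Matrix (Fin n) (Fin n) ℝ := K.submatrix Fin.succ Fin.succ with hK'
    set K₁ : Matrix (Fin n) (Fin n) ℝ := K' + (2 * θ) • vecMulVec k k with hK₁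
    have hcons := mg_cons K hK.isHermitian
    have hquad : ∀ v : Fin n → ℝ, v ⬝ᵥ (K₁ *ᵥ v) = v ⬝ᵥ (K' *ᵥ v) + 2 * θ * (k ⬝ᵥ v) ^ 2 := by
      intro v
      rw [hK₁, add_mulVec, dotProduct_add, smul_mulVec, dotProduct_smul]
      congr 1
      have : vecMulVec k k *ᵥ v = (k ⬝ᵥ v) • k := by
        funext i
        simp only [mulVec, dotProduct, vecMulVec_apply, Pi.smul_apply, smul_eq_mul, Finset.sum_mul]
        refine Finset.sum_congr rfl fun j _ => ?_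
        ring
      rw [this, dotProduct_smul, dotProduct_comm v k]
      simp only [smul_eq_mul]
      ring
    have ha : 0 ≤ K 0 0 := by
      simpa using hK.diag_nonneg (i := 0)
    -- upper bound for `K'`
    have hK'le : ∀ v, v ⬝ᵥ (K' *ᵥ v) ≤ κ * (v ⬝ᵥ v) := by
      intro v
      have h := hle (Fin.cons 0 v : Fin (n + 1) → ℝ)
      rw [hcons] at h
      have h2 : (Fin.cons 0 v : Fin (n + 1) → ℝ) ⬝ᵥ (Fin.cons 0 v : Fin (n + 1) → ℝ) = v ⬝ᵥ v := by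
        simp [dotProduct, Fin.sum_univ_succ]
      rw [h2] at h
      simpa using h
    have hkk : k ⬝ᵥ k ≤ κ * K 0 0 := by
      have h := hK.dotProduct_mulVec_nonneg (Fin.cons (-κ) k : Fin (n + 1) → ℝ)
      rw [star_trivial, hcons] at h
      have h2 := hK'le k
      have h3 : 0 ≤ κ * (κ * K 0 0 - k ⬝ᵥ k) := by
        have : k ⬝ᵥ k = (fun i => K 0 (Fin.succ i)) ⬝ᵥ k := rfl
        nlinarith [h, h2]
      have h4 := nonneg_of_mul_nonneg_right h3 hκ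
      linarith
    have h2θ : 2 * θ ≤ 1 / κ := by
      rw [le_div_iff₀ hκ]
      nlinarith
    have hle₁ : ∀ v, v ⬝ᵥ (K₁ *ᵥ v) ≤ κ * (v ⬝ᵥ v) := by
      intro v
      rw [hquad]
      have h := hle (Fin.cons ((k ⬝ᵥ v) / κ) v : Fin (n + 1) → ℝ)
      rw [hcons] at h
      have h2 : (Fin.cons ((k ⬝ᵥ v) / κ) v : Fin (n + 1) → ℝ) ⬝ᵥ
          (Fin.cons ((k ⬝ᵥ v) / κ) v : Fin (n + 1) → ℝ) = ((k ⬝ᵥ v) / κ) ^ 2 + v ⬝ᵥ v := by
        simp [dotProduct, Fin.sum_univ_succ]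
        ring
      rw [h2] at h
      have h3 : (fun i => K 0 (Fin.succ i)) ⬝ᵥ v = k ⬝ᵥ v := rfl
      rw [h3] at h
      have h5 : κ * (((k ⬝ᵥ v) / κ) ^ 2 + v ⬝ᵥ v) = (k ⬝ᵥ v) ^ 2 / κ + κ * (v ⬝ᵥ v) := by
        field_simp
      have h6 : 2 * ((k ⬝ᵥ v) / κ) * (k ⬝ᵥ v) = 2 * ((k ⬝ᵥ v) ^ 2 / κ) := by
        field_simp
      rw [h5, h6] at h
      have h7 : 0 ≤ K 0 0 * ((k ⬝ᵥ v) / κ) ^ 2 := mul_nonneg ha (sq_nonneg _)
      have h8 : 2 * θ * (k ⬝ᵥ v) ^ 2 ≤ (k ⬝ᵥ v) ^ 2 / κ := by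
        have := mul_le_mul_of_nonneg_right h2θ (sq_nonneg (k ⬝ᵥ v))
        calc 2 * θ * (k ⬝ᵥ v) ^ 2 ≤ 1 / κ * (k ⬝ᵥ v) ^ 2 := this
          _ = (k ⬝ᵥ v) ^ 2 / κ := by ring
      linarith
    have hps : K₁.PosSemidef := by
      refine (hK.submatrix Fin.succ).add ?_
      have h := posSemidef_vecMulVec_self_star k
      rw [star_trivial] at h
      exact h.smul (by positivity)
    have hih := ih K₁ hps hle₁
    have htr : K.trace = K 0 0 + K'.trace := by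
      simp [Matrix.trace, Fin.sum_univ_succ, hK']
    have htr₁ : K₁.trace = K'.trace + 2 * θ * (k ⬝ᵥ k) := by
      rw [hK₁, trace_add, trace_smul]
      simp [Matrix.trace, vecMulVec_apply, dotProduct]
    have hstep : ∀ a : Fin n → Bool,
        Real.exp (θ * (sv (Fin.cons true a : Fin (n + 1) → Bool) ⬝ᵥ
          (K *ᵥ sv (Fin.cons true a : Fin (n + 1) → Bool)))) +
        Real.exp (θ * (sv (Fin.cons false a : Fin (n + 1) → Bool) ⬝ᵥ
          (K *ᵥ sv (Fin.cons false a : Fin (n + 1) → Bool)))) ≤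
        2 * Real.exp (θ * K 0 0) * Real.exp (θ * (sv a ⬝ᵥ (K₁ *ᵥ sv a))) := by
      intro a
      rw [mg_sv, mg_sv, hcons, hcons, hquad]
      have h3 : (fun i => K 0 (Fin.succ i)) ⬝ᵥ sv a = k ⬝ᵥ sv a := rfl
      rw [h3]
      set y := k ⬝ᵥ sv a with hy
      set Q := sv a ⬝ᵥ (K' *ᵥ sv a) with hQ
      have e1 : θ * (K 0 0 * sg true ^ 2 + 2 * sg true * y + Q) =
          (θ * K 0 0 + θ * Q) + 2 * θ * y := by simp [sg]; ring
      have e2 : θ * (K 0 0 * sg false ^ 2 + 2 * sg false * y + Q) =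
          (θ * K 0 0 + θ * Q) + -(2 * θ * y) := by simp [sg]; ring
      rw [e1, e2, Real.exp_add _ (2 * θ * y), Real.exp_add _ (-(2 * θ * y)), ← mul_add]
      have h5 : Real.exp (2 * θ * y) + Real.exp (-(2 * θ * y)) ≤
          2 * Real.exp ((2 * θ * y) ^ 2 / 2) := by
        have := Real.cosh_le_exp_half_sq (2 * θ * y)
        rw [Real.cosh_eq] at this
        linarith
      calc Real.exp (θ * K 0 0 + θ * Q) * (Real.exp (2 * θ * y) + Real.exp (-(2 * θ * y)))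
          ≤ Real.exp (θ * K 0 0 + θ * Q) * (2 * Real.exp ((2 * θ * y) ^ 2 / 2)) :=
            mul_le_mul_of_nonneg_left h5 (Real.exp_pos _).le
        _ = 2 * (Real.exp (θ * K 0 0 + θ * Q) * Real.exp ((2 * θ * y) ^ 2 / 2)) := by ring
        _ = 2 * (Real.exp (θ * K 0 0) * Real.exp (θ * (Q + 2 * θ * y ^ 2))) := by
            rw [← Real.exp_add, ← Real.exp_add]
            congr 2
            ring
        _ = _ := by ring
    rw [mg_sum]
    calc _ ≤ ∑ a : Fin n → Bool,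
          2 * Real.exp (θ * K 0 0) * Real.exp (θ * (sv a ⬝ᵥ (K₁ *ᵥ sv a))) :=
          Finset.sum_le_sum fun a _ => hstep a
      _ = 2 * Real.exp (θ * K 0 0) *
          ∑ a : Fin n → Bool, Real.exp (θ * (sv a ⬝ᵥ (K₁ *ᵥ sv a))) := by
          rw [Finset.mul_sum]
      _ ≤ 2 * Real.exp (θ * K 0 0) * (2 ^ n * Real.exp (2 * θ * K₁.trace)) :=
          mul_le_mul_of_nonneg_left hih (by positivity)
      _ = 2 ^ (n + 1) * Real.exp (θ * K 0 0 + 2 * θ * K₁.trace) := by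
          rw [Real.exp_add]; ring
      _ ≤ 2 ^ (n + 1) * Real.exp (2 * θ * K.trace) := by
          refine mul_le_mul_of_nonneg_left (Real.exp_le_exp.2 ?_) (by positivity)
          rw [htr, htr₁]
          have h6 : 4 * θ ^ 2 * (k ⬝ᵥ k) ≤ θ * K 0 0 := by
            calc 4 * θ ^ 2 * (k ⬝ᵥ k) ≤ 4 * θ ^ 2 * (κ * K 0 0) :=
                  mul_le_mul_of_nonneg_left hkk (by positivity)
              _ = (4 * θ * κ) * (θ * K 0 0) := by ring
              _ ≤ 1 * (θ * K 0 0) := mul_le_mul_of_nonneg_right h4 (mul_nonneg hθ ha)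
              _ = θ * K 0 0 := one_mul _
          nlinarith

end Pool.Agent.LL
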