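import Pool.Agent.Helper38.LL.Defs

/-!
LL-RP. Resampling: `∑_G f G = |α|⁻¹ ∑_G ∑_a f (update G j a)`. Induction on `q` (remove the last
index `r = q`: the other factors do not change under `update G (j q) a`).
-/

namespace Pool.Agent.LL

open Finset

theorem sum_update {α : Type} [Fintype α] [Nonempty α] {N : ℕ} (j : Fin N)
    (f : (Fin N → α) → ℝ) :
    ∑ G : Fin N → α, ∑ a : α, f (Function.update G j a) =
      (Fintype.card α : ℝ) * ∑ G : Fin N → α, f G := by
  classical
  rw [← Fintype.sum_prod_type' (f := fun (G : Fin N → α) (a : α) => f (Function.update G j a))]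
  have hinv : Function.Involutive (fun x : (Fin N → α) × α =>
      ((Function.update x.1 j x.2, x.1 j) : (Fin N → α) × α)) := by
    intro x
    ext i
    · simp
    · simp
  have h := Fintype.sum_equiv hinv.toPerm
    (fun x : (Fin N → α) × α => f (Function.update x.1 j x.2)) (fun x => f x.1)
    (fun x => rfl)
  rw [h, Fintype.sum_prod_type' (f := fun (G : Fin N → α) (_ : α) => f G), Finset.mul_sum]
  refine Finset.sum_congr rfl fun G _ => ?_
  rw [Finset.sum_const, nsmul_eq_mul, Finset.card_univ]

theorem resample {α : Type} [Fintype α] [Nonempty α] {N q : ℕ} (j : Fin q → Fin N)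
    (hj : Function.Injective j) (F : Fin q → (Fin N → α) → ℝ) (h0 : ∀ r G, 0 ≤ F r G)
    (hind : ∀ r s, s ≠ r → ∀ G a, F r (Function.update G (j s) a) = F r G) {c : ℝ} (hc0 : 0 ≤ c)
    (hc : ∀ r G, ∑ a, F r (Function.update G (j r) a) ≤ c * Fintype.card α) :
    ∑ G : Fin N → α, ∏ r, F r G ≤ c ^ q * (Fintype.card α : ℝ) ^ N := by
  classical
  induction q with
  | zero =>
    simp
  | succ q ih =>
    have hcard : (0 : ℝ) < Fintype.card α := by exact_mod_cast Fintype.card_pos
    have hIH := ih (fun r => j r.succ) (fun a b h => Fin.succ_injective _ (hj h))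
      (fun r => F r.succ) (fun r G => h0 _ _)
      (fun r s hrs G a => hind r.succ s.succ (fun h => hrs (Fin.succ_injective _ h)) G a)
      (fun r G => hc r.succ G)
    have h1 := sum_update (j 0) (fun G => ∏ r, F r G)
    have h2 : ∑ G : Fin N → α, ∑ a : α, ∏ r, F r (Function.update G (j 0) a)
        ≤ ∑ G : Fin N → α, c * Fintype.card α * ∏ r : Fin q, F r.succ G := by
      refine Finset.sum_le_sum fun G _ => ?_
      have h3 : ∀ a : α, ∏ r, F r (Function.update G (j 0) a)
          = F 0 (Function.update G (j 0) a) * ∏ r : Fin q, F r.succ G := by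
        intro a
        rw [Fin.prod_univ_succ]
        congr 1
        refine Finset.prod_congr rfl fun r _ => ?_
        exact hind r.succ 0 (Fin.succ_ne_zero r).symm G a
      rw [Finset.sum_congr rfl fun a _ => h3 a, ← Finset.sum_mul]
      exact mul_le_mul_of_nonneg_right (hc 0 G) (Finset.prod_nonneg fun r _ => h0 _ _)
    rw [h1, ← Finset.mul_sum, mul_comm c, mul_assoc] at h2
    have h4 := le_of_mul_le_mul_left h2 hcard
    refine h4.trans ?_
    calc c * ∑ G : Fin N → α, ∏ r : Fin q, F r.succ G ≤ c * (c ^ q * (Fintype.card α : ℝ) ^ N) :=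
          mul_le_mul_of_nonneg_left hIH hc0
      _ = c ^ (q + 1) * (Fintype.card α : ℝ) ^ N := by ring

end Pool.Agent.LL
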