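import Pool.Agent.Helper38.LL.HP
import Pool.Agent.Helper38.LL.MG
import Pool.Agent.Helper38.LL.RP

/-!
LL-LD. `J = {j r}`, `H' r` from `exists_zero` for `H r` and `J` (`J.card = q`). The indicator of the
event is at most `∏_r F r G`,
`F r G = if ti (AG lam (GM G) (H' r)) ≤ T + q/lam then
  exp ((lam/4) (qf (AG lam (GM G) (H' r)) (GM G (j r)) - x)) else 0`.
`AG lam (GM G) (H' r)` does not depend on the rows `j s` of `GM G` (`H' r` vanishes on `J`), so
`resample` applies with `c = exp (- lam x / 8)`: the sum over `a = G (j r)` is bounded by `mgf`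
for `K = (AG ..)⁻¹`, `κ = 1/lam` (`qf_le_div`), `θ = lam/4`:
`exp (- lam x/4 + (lam/2) tr K) ≤ exp (- lam x/8)` because `4 tr K ≤ 4 (T + q/lam) ≤ x`.
-/

namespace Pool.Agent.LL

open Finset Matrix

/-- The matrix `AG` does not see the rows on which `H` vanishes. -/
theorem AG_update {N n : ℕ} (lam : ℝ) (G : Fin N → Fin n → Bool) (H : Matrix (Fin N) (Fin N) ℝ)
    (k : Fin N) (a : Fin n → Bool) (hz : ∀ l, H k l = 0 ∧ H l k = 0) :
    AG lam (GM (Function.update G k a)) H = AG lam (GM G) H := by
  unfold AG
  congr 1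
  ext i i'
  simp only [Matrix.mul_apply, transpose_apply]
  refine Finset.sum_congr rfl fun l _ => ?_
  by_cases hl : l = k
  · have h0 : ∀ Γ : Matrix (Fin N) (Fin n) ℝ, ∑ m, Γ m i * H m l = 0 := fun Γ =>
      Finset.sum_eq_zero fun m _ => by rw [hl, (hz m).2, mul_zero]
    rw [h0, h0, zero_mul, zero_mul]
  · have h1 : GM (Function.update G k a) l i' = GM G l i' := by
      simp [GM, Function.update_of_ne hl]
    rw [h1]
    congr 1
    refine Finset.sum_congr rfl fun m _ => ?_
    by_cases hm : m = k
    · rw [hm, (hz l).1, mul_zero, mul_zero]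
    · have h2 : GM (Function.update G k a) m i = GM G m i := by
        simp [GM, Function.update_of_ne hm]
      rw [h2]

open Classical in
theorem ld {N n q : ℕ} {lam x T : ℝ} (hlam : 0 < lam) (hx : 4 * (T + q / lam) ≤ x)
    (H : Fin q → Matrix (Fin N) (Fin N) ℝ) (hH : ∀ r, (H r).PosSemidef) (j : Fin q → Fin N)
    (hj : Function.Injective j) :
    (((univ : Finset (Fin N → Fin n → Bool)).filter (fun G => ∀ r,
      x < qf (AG lam (GM G) (H r)) (GM G (j r)) ∧ ti (AG lam (GM G) (H r)) ≤ T)).card : ℝ) ≤
      Real.exp (-(q * lam * x / 8)) * 2 ^ (N * n) := by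
  have hcard : (univ.image j).card = q := by
    rw [Finset.card_image_of_injective _ hj]
    simp
  choose H' hpsd hz hcmp using fun r => exists_zero (H r) (hH r) (univ.image j)
  have hzz : ∀ r s l, H' r (j s) l = 0 ∧ H' r l (j s) = 0 := fun r s l =>
    hz r (j s) (Finset.mem_image_of_mem j (Finset.mem_univ s)) l
  set F : Fin q → (Fin N → Fin n → Bool) → ℝ := fun r G =>
    if ti (AG lam (GM G) (H' r)) ≤ T + q / lam then
      Real.exp (lam / 4 * (qf (AG lam (GM G) (H' r)) (GM G (j r)) - x)) else 0 with hF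
  have hF0 : ∀ r G, 0 ≤ F r G := by
    intro r G
    simp only [hF]
    split_ifs
    · exact (Real.exp_pos _).le
    · exact le_rfl
  have hind : ∀ r s, s ≠ r → ∀ G a, F r (Function.update G (j s) a) = F r G := by
    intro r s hsr G a
    simp only [hF]
    rw [AG_update lam G (H' r) (j s) a (hzz r s)]
    have h1 : GM (Function.update G (j s) a) (j r) = GM G (j r) := by
      funext i
      have : j r ≠ j s := fun h => hsr (hj h).symm
      simp [GM, Function.update_of_ne this]
    rw [h1]
  have hc : ∀ r G, ∑ a, F r (Function.update G (j r) a) ≤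
      Real.exp (-(lam * x / 8)) * Fintype.card (Fin n → Bool) := by
    intro r G
    have hcd : (Fintype.card (Fin n → Bool) : ℝ) = 2 ^ n := by simp
    rw [hcd]
    simp only [hF]
    have h1 : ∀ a, AG lam (GM (Function.update G (j r) a)) (H' r) = AG lam (GM G) (H' r) :=
      fun a => AG_update lam G (H' r) (j r) a (hzz r r)
    have h2 : ∀ a, GM (Function.update G (j r) a) (j r) = sv a := by
      intro a
      funext i
      simp [GM, sv]
    simp only [h1, h2]
    have hA := posDef_AG hlam (GM G) (hpsd r)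
    set A := AG lam (GM G) (H' r) with hAdef
    by_cases ht : ti A ≤ T + q / lam
    · simp only [if_pos ht]
      have hm := mgf A⁻¹ hA.inv.posSemidef (κ := 1 / lam) (θ := lam / 4) (by positivity)
        (fun v => by
          have := qf_le_div hA hlam (le_AG lam (GM G) (hpsd r)) v
          rw [qf] at this
          calc v ⬝ᵥ (A⁻¹ *ᵥ v) ≤ (v ⬝ᵥ v) / lam := this
            _ = 1 / lam * (v ⬝ᵥ v) := by ring) (by positivity)
        (by
          apply le_of_eq
          field_simp)
      have h3 : ∀ a : Fin n → Bool, Real.exp (lam / 4 * (qf A (sv a) - x)) =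
          Real.exp (-(lam * x / 4)) * Real.exp (lam / 4 * (sv a ⬝ᵥ (A⁻¹ *ᵥ sv a))) := by
        intro a
        rw [← Real.exp_add, qf]
        congr 1
        ring
      simp only [h3]
      rw [← Finset.mul_sum]
      calc Real.exp (-(lam * x / 4)) * ∑ a : Fin n → Bool,
            Real.exp (lam / 4 * (sv a ⬝ᵥ (A⁻¹ *ᵥ sv a)))
          ≤ Real.exp (-(lam * x / 4)) * (2 ^ n * Real.exp (2 * (lam / 4) * (A⁻¹).trace)) :=
            mul_le_mul_of_nonneg_left hm (Real.exp_pos _).le
        _ = Real.exp (-(lam * x / 4) + 2 * (lam / 4) * ti A) * 2 ^ n := by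
            rw [Real.exp_add, ti]
            ring
        _ ≤ Real.exp (-(lam * x / 8)) * 2 ^ n := by
            refine mul_le_mul_of_nonneg_right (Real.exp_le_exp.2 ?_) (by positivity)
            have h4 : 4 * ti A ≤ x := by linarith
            have h5 : lam * (4 * ti A) ≤ lam * x := mul_le_mul_of_nonneg_left h4 hlam.le
            linarith
    · simp only [if_neg ht, Finset.sum_const_zero]
      positivity
  have hres := resample j hj F hF0 hind (Real.exp_pos _).le hc
  have hle : (((univ : Finset (Fin N → Fin n → Bool)).filter (fun G => ∀ r,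
      x < qf (AG lam (GM G) (H r)) (GM G (j r)) ∧ ti (AG lam (GM G) (H r)) ≤ T)).card : ℝ) ≤
      ∑ G : Fin N → Fin n → Bool, ∏ r, F r G := by
    rw [Finset.card_filter]
    push_cast
    refine Finset.sum_le_sum fun G _ => ?_
    split_ifs with h
    · have h1 : ∀ r ∈ (univ : Finset (Fin q)), (1 : ℝ) ≤ F r G := by
        intro r _
        obtain ⟨hr1, hr2⟩ := h r
        obtain ⟨hq, ht⟩ := hcmp r n (GM G) lam hlam
        rw [hcard] at ht
        simp only [hF]
        rw [if_pos (by linarith)]
        refine Real.one_le_exp ?_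
        have := hq (GM G (j r))
        have h3 : 0 ≤ qf (AG lam (GM G) (H' r)) (GM G (j r)) - x := by linarith
        positivity
      calc (1 : ℝ) = ∏ _r : Fin q, (1 : ℝ) := by simp
        _ ≤ ∏ r, F r G := Finset.prod_le_prod (fun _ _ => zero_le_one) h1
    · exact Finset.prod_nonneg fun r _ => hF0 r G
  refine (hle.trans hres).trans (le_of_eq ?_)
  rw [← Real.exp_nat_mul]
  congr 1
  · congr 1
    ring
  · simp
    rw [← pow_mul, mul_comm]

end Pool.Agent.LL
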