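import Pool.Agent.Helper38.LL.LA
import Pool.Agent.Helper38.LL.LB

/-!
LL-ST. The start. `S0 ≥ ∑ |y i|`, all `y i ≠ 0`. Put `w i = ⌈n |y i|/S0⌉` (`≥ 1`, sum `≤ 2n`). With
`Y` = matrix with rows `Γᵀ a i` and `Z` = matrix with columns `y i`: `Y Z = 1`, so `Z Y = 1`,
`∑ w i (Γᵀ a i)(Γᵀ a i)ᵀ = Yᵀ D Y` is positive definite with inverse `Z D⁻¹ Zᵀ`, whose trace is
`∑ |y i|²/w i ≤ ∑ |y i| S0/n ≤ S0²/n`; adding `lam` decreases the trace of the inverse (`ti_anti`).
-/

namespace Pool.Agent.LL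

open Finset Matrix

theorem start {N n : ℕ} (hn : 1 ≤ n) (Γ : Matrix (Fin N) (Fin n) ℝ) {lam : ℝ} (hlam : 0 < lam)
    (a : Fin n → Fin N → ℝ) (y : Fin n → Fin n → ℝ)
    (hy : ∀ i l, (Γᵀ *ᵥ a i) ⬝ᵥ y l = if i = l then 1 else 0) {S0 : ℝ}
    (hS : ∑ i, Real.sqrt (y i ⬝ᵥ y i) ≤ S0) :
    ∃ w : Fin n → ℕ, (∀ i, 1 ≤ w i) ∧ ∑ i, w i ≤ 2 * n ∧
      ti (AG lam Γ (Hm univ (fun i k => Real.sqrt (w i) * a i k) 0)) ≤ S0 ^ 2 / n := by
  classical
  have hn0 : (0 : ℝ) < n := by exact_mod_cast hn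
  set u : Fin n → Fin n → ℝ := fun i => Γᵀ *ᵥ a i with hu
  let Y : Matrix (Fin n) (Fin n) ℝ := Matrix.of u
  let Z : Matrix (Fin n) (Fin n) ℝ := Matrix.of (fun k l => y l k)
  have hYZ : Y * Z = 1 := by
    ext i l
    rw [Matrix.mul_apply, Matrix.one_apply]
    exact hy i l
  have hZY : Z * Y = 1 := mul_eq_one_comm.1 hYZ
  have hny : ∀ i, 0 < y i ⬝ᵥ y i := by
    intro i
    have h1 : 0 ≤ y i ⬝ᵥ y i := sum_nonneg fun k _ => mul_self_nonneg _
    rcases h1.eq_or_lt with h2 | h2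
    · exfalso
      have h3 : y i = 0 := dotProduct_self_eq_zero.1 h2.symm
      have h4 := hy i i
      rw [h3, dotProduct_zero, if_pos rfl] at h4
      exact zero_ne_one h4
    · exact h2
  set ν : Fin n → ℝ := fun i => Real.sqrt (y i ⬝ᵥ y i) with hν
  have hν0 : ∀ i, 0 < ν i := fun i => Real.sqrt_pos.2 (hny i)
  have hS0 : 0 < S0 := by
    have i0 : Fin n := ⟨0, hn⟩
    exact (hν0 i0).trans_le ((single_le_sum (f := ν) (fun i _ => (hν0 i).le) (mem_univ i0)).trans hS)
  let w : Fin n → ℕ := fun i => ⌈n * ν i / S0⌉₊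
  have hw1 : ∀ i, 1 ≤ w i := fun i => Nat.ceil_pos.2 (by have := hν0 i; positivity)
  have hwlow : ∀ i, n * ν i / S0 ≤ w i := fun i => Nat.le_ceil _
  have hwup : ∀ i, (w i : ℝ) ≤ n * ν i / S0 + 1 :=
    fun i => (Nat.ceil_lt_add_one (by have := hν0 i; positivity)).le
  refine ⟨w, hw1, ?_, ?_⟩
  · have h1 : ((∑ i, w i : ℕ) : ℝ) ≤ ((2 * n : ℕ) : ℝ) := by
      push_cast
      calc ∑ i, (w i : ℝ) ≤ ∑ i, (n * ν i / S0 + 1) := sum_le_sum fun i _ => hwup i
        _ = n / S0 * ∑ i, ν i + n := by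
            rw [sum_add_distrib, mul_sum]
            congr 1
            · exact sum_congr rfl fun i _ => by ring
            · simp
        _ ≤ n / S0 * S0 + n := by
            have : 0 < n / S0 := by positivity
            have := mul_le_mul_of_nonneg_left hS this.le
            linarith
        _ = 2 * n := by
            field_simp
            ring
    exact_mod_cast h1
  · have hw0 : ∀ i, (0 : ℝ) < w i := fun i => by exact_mod_cast hw1 i
    let D : Matrix (Fin n) (Fin n) ℝ := diagonal (fun i => (w i : ℝ))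
    let D' : Matrix (Fin n) (Fin n) ℝ := diagonal (fun i => (w i : ℝ)⁻¹)
    have hDD : D * D' = 1 := by
      change diagonal _ * diagonal _ = 1
      rw [diagonal_mul_diagonal]
      rw [← diagonal_one]
      congr 1
      funext i
      exact mul_inv_cancel₀ (hw0 i).ne'
    let B : Matrix (Fin n) (Fin n) ℝ := Yᵀ * D * Y
    have hB : B.PosDef := by
      have h1 : D.PosDef := Matrix.PosDef.diagonal fun i => hw0 i
      have h2 := h1.conjTranspose_mul_mul_same (B := Y) (by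
        intro x x' h
        have h3 : Z *ᵥ (Y *ᵥ x) = Z *ᵥ (Y *ᵥ x') := congrArg _ h
        rwa [mulVec_mulVec, mulVec_mulVec, hZY, one_mulVec, one_mulVec] at h3)
      rw [conjTranspose_eq_transpose_of_trivial] at h2
      exact h2
    have hBinv : B⁻¹ = Z * D' * Zᵀ := by
      apply Matrix.inv_eq_right_inv
      calc Yᵀ * D * Y * (Z * D' * Zᵀ) = Yᵀ * (D * (Y * Z) * D') * Zᵀ := by
            simp only [Matrix.mul_assoc]
        _ = Yᵀ * Zᵀ := by rw [hYZ, Matrix.mul_one, hDD, Matrix.mul_one]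
        _ = 1 := by rw [← Matrix.transpose_mul, hZY, Matrix.transpose_one]
    have htr : ti B = ∑ l, (w l : ℝ)⁻¹ * (y l ⬝ᵥ y l) := by
      rw [ti, hBinv, Matrix.trace]
      simp only [Matrix.diag_apply, Matrix.mul_apply, Matrix.transpose_apply]
      rw [sum_comm]
      refine sum_congr rfl fun l _ => ?_
      rw [dotProduct, mul_sum]
      refine sum_congr rfl fun k _ => ?_
      have h1 : ∑ j, Z k j * D' j l = Z k l * (w l : ℝ)⁻¹ := by
        rw [← Matrix.mul_apply]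
        exact Matrix.mul_diagonal _ _ _ _
      rw [h1]
      change y l k * (w l : ℝ)⁻¹ * y l k = _
      ring
    set b : Fin n → Fin N → ℝ := fun i k => Real.sqrt (w i) * a i k with hb
    have hAG : AG lam Γ (Hm univ b 0) = lam • (1 : Matrix (Fin n) (Fin n) ℝ) + B := by
      rw [AG_Hm]
      have h1 : ∑ k, (0 : Fin N → ℝ) k • r1 (Γ k) = 0 :=
        sum_eq_zero fun k _ => by rw [Pi.zero_apply, zero_smul]
      rw [h1, add_zero]
      congr 1
      ext p q
      rw [Matrix.sum_apply]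
      have h2 : (Yᵀ * D * Y) p q = ∑ i, u i p * (w i : ℝ) * u i q := by
        rw [Matrix.mul_apply]
        refine sum_congr rfl fun i _ => ?_
        have h3 : (Yᵀ * D) p i = u i p * (w i : ℝ) := Matrix.mul_diagonal _ _ _ _
        rw [h3]
        rfl
      change _ = (Yᵀ * D * Y) p q
      rw [h2]
      refine sum_congr rfl fun i _ => ?_
      have h3 : Γᵀ *ᵥ b i = Real.sqrt (w i) • u i := by
        rw [hu, ← Matrix.mulVec_smul]
        rfl
      rw [h3, r1, vecMulVec_apply, Pi.smul_apply, Pi.smul_apply, smul_eq_mul, smul_eq_mul]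
      have h4 : Real.sqrt (w i) * Real.sqrt (w i) = w i := Real.mul_self_sqrt (hw0 i).le
      calc Real.sqrt (w i) * u i p * (Real.sqrt (w i) * u i q)
          = (Real.sqrt (w i) * Real.sqrt (w i)) * (u i p * u i q) := by ring
        _ = _ := by rw [h4]; ring
    have hH : (Hm univ b (0 : Fin N → ℝ)).PosSemidef := posSemidef_Hm _ _ fun _ => le_rfl
    have h1 : ti (AG lam Γ (Hm univ b 0)) ≤ ti B := by
      refine ti_anti hB (posDef_AG hlam Γ hH) fun z => ?_
      rw [hAG, Matrix.add_mulVec, dotProduct_add, Matrix.smul_mulVec, Matrix.one_mulVec,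
        dotProduct_smul, smul_eq_mul]
      have : 0 ≤ z ⬝ᵥ z := sum_nonneg fun k _ => mul_self_nonneg _
      have := mul_nonneg hlam.le this
      linarith
    refine h1.trans ?_
    rw [htr]
    have h2 : ∀ l, (w l : ℝ)⁻¹ * (y l ⬝ᵥ y l) ≤ S0 / n * ν l := by
      intro l
      have h3 : y l ⬝ᵥ y l = ν l * ν l := (Real.mul_self_sqrt (hny l).le).symm
      rw [h3, inv_mul_le_iff₀ (hw0 l)]
      have h4 := hwlow l
      have h5 := hν0 l
      have h6 : ν l ≤ w l * (S0 / n) := by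
        rw [div_le_iff₀ hS0] at h4
        rw [mul_div_assoc', le_div_iff₀ hn0]
        linarith
      calc ν l * ν l ≤ (w l * (S0 / n)) * ν l := mul_le_mul_of_nonneg_right h6 h5.le
        _ = _ := by ring
    calc ∑ l, (w l : ℝ)⁻¹ * (y l ⬝ᵥ y l) ≤ ∑ l, S0 / n * ν l := sum_le_sum fun l _ => h2 l
      _ = S0 / n * ∑ l, ν l := by rw [mul_sum]
      _ ≤ S0 / n * S0 := mul_le_mul_of_nonneg_left hS (by positivity)
      _ = S0 ^ 2 / n := by ring

end Pool.Agent.LL
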