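import Pool.Agent.Helper38.LL.EX
import Pool.Agent.Helper38.LL.CH
import Pool.Agent.Helper38.LL.ST
import Pool.Agent.Helper91.LB.BD

/-!
LL-MN. Assembly (helper38). `X` = range of `v ↦ (⟨g_j, v⟩)_j` in `ℓ_∞^N`; `bm_data` of helper91 gives
`a i` (`∑_k |a i k| ≤ 1`) and the dual basis `y i` with `∑_i |⟨g_j, y_i⟩| ≤ D`; isotropy gives
`∑ |y i| ≤ 320 D`; if `(320 D)² ≤ n M` then `start` and `chain` give a contradiction. So
`D ≥ √(n M)/320 = c' n^(2/3) (log n)^(-1/6)`.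
-/

namespace Pool.Agent.LL

open Finset Matrix
open scoped RealInnerProductSpace

/-- The spikes as vectors of Euclidean space. -/
noncomputable def gE {N n : ℕ} (G : Fin N → Fin n → Bool) : Fin N → EuclideanSpace ℝ (Fin n) :=
  fun j => WithLp.toLp 2 (GM G j)

theorem inner_gE {N n : ℕ} (G : Fin N → Fin n → Bool) (j : Fin N)
    (v : EuclideanSpace ℝ (Fin n)) : ⟪gE G j, v⟫ = GM G j ⬝ᵥ v.ofLp := by
  rw [EuclideanSpace.inner_eq_star_dotProduct]
  simp only [gE, star_trivial]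
  exact dotProduct_comm _ _

theorem inner_cc {N n : ℕ} (G : Fin N → Fin n → Bool) (α : Fin n → Fin N × Bool → ℝ) (i : Fin n)
    (v : EuclideanSpace ℝ (Fin n)) :
    ⟪LB.cc (LB.sg (gE G)) α i, v⟫ =
      ((GM G)ᵀ *ᵥ (fun k => α i (k, true) - α i (k, false))) ⬝ᵥ v.ofLp := by
  have h1 : LB.cc (LB.sg (gE G)) α i = ∑ k, (α i (k, true) - α i (k, false)) • gE G k := by
    unfold LB.cc
    rw [Fintype.sum_prod_type]
    refine Finset.sum_congr rfl fun j _ => ?_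
    rw [Fintype.sum_bool]
    simp only [LB.sg, if_true, Bool.false_eq_true, if_false]
    rw [smul_neg, ← sub_eq_add_neg, ← sub_smul]
  rw [h1, sum_inner]
  simp only [real_inner_smul_left, inner_gE]
  rw [mulVec_transpose, ← dotProduct_mulVec]
  simp only [dotProduct, mulVec]

theorem far_space : ∃ c : ℝ, 0 < c ∧ ∃ n0 : ℕ, 2 ≤ n0 ∧ ∀ n : ℕ, n0 ≤ n →
    ∃ (N : ℕ) (X : Submodule ℝ (Fin N → ℝ)), Module.finrank ℝ X = n ∧
      ∀ T : X ≃L[ℝ] (Fin n → ℝ),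
        c * (n : ℝ) ^ (2 / 3 : ℝ) / (Real.log n) ^ (1 / 6 : ℝ) ≤
          ‖(T : X →L[ℝ] (Fin n → ℝ))‖ * ‖(T.symm : (Fin n → ℝ) →L[ℝ] X)‖ := by
  obtain ⟨c, hc, n0, H⟩ := exists_good
  refine ⟨c ^ (1 / 6 : ℝ) / 320, by positivity, max n0 2, le_max_right _ _, fun n hn => ?_⟩
  have hn0 : n0 ≤ n := (le_max_left _ _).trans hn
  have hn2 : 2 ≤ n := (le_max_right _ _).trans hn
  have hnR : (2 : ℝ) ≤ n := by exact_mod_cast hn2
  have hlog : 0 < Real.log n := Real.log_pos (by linarith)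
  obtain ⟨N, G, S, hN, hM1, hM2, hM3, hS1, hS2, hiso, hgood, hql⟩ := H n hn0 _ rfl
  set M : ℝ := (c * n / Real.log n) ^ (1 / 3 : ℝ) with hM
  have hNR : (0 : ℝ) < N := by exact_mod_cast hN
  have hinj : Function.Injective (LB.coords (gE G)) := by
    rw [injective_iff_map_eq_zero]
    intro v hv
    have h1 := hiso v.ofLp
    have h2 : ∑ j, |GM G j ⬝ᵥ v.ofLp| = 0 := by
      refine Finset.sum_eq_zero fun j _ => ?_
      rw [← inner_gE]
      have := congrFun hv j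
      change ⟪gE G j, v⟫ = 0 at this
      rw [this, abs_zero]
    rw [h2] at h1
    have h3 : Real.sqrt (v.ofLp ⬝ᵥ v.ofLp) ≤ 0 := by
      by_contra hcon
      push Not at hcon
      have : 0 < (N : ℝ) / 320 * Real.sqrt (v.ofLp ⬝ᵥ v.ofLp) := by positivity
      linarith
    have h4 : v.ofLp ⬝ᵥ v.ofLp ≤ 0 := by
      rw [← Real.sqrt_eq_zero']
      exact le_antisymm h3 (Real.sqrt_nonneg _)
    have h5 : v.ofLp = 0 := by
      have h6 : v.ofLp ⬝ᵥ v.ofLp = 0 :=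
        le_antisymm h4 (Finset.sum_nonneg fun i _ => mul_self_nonneg _)
      exact dotProduct_self_eq_zero.1 h6
    ext i
    rw [h5]
    rfl
  refine ⟨N, LinearMap.range (LB.coords (gE G)), ?_, ?_⟩
  · rw [LinearMap.finrank_range_of_inj hinj, finrank_euclideanSpace_fin]
  intro T
  by_contra hcon
  push Not at hcon
  obtain ⟨α, hα0, hα1, y, hy, hD⟩ := LB.bm_data (gE G) hinj (by omega) T
  set D : ℝ := ‖(T : LinearMap.range (LB.coords (gE G)) →L[ℝ] (Fin n → ℝ))‖ *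
    ‖(T.symm : (Fin n → ℝ) →L[ℝ] LinearMap.range (LB.coords (gE G)))‖ with hDdef
  have hD0 : 0 ≤ D := by positivity
  set a : Fin n → Fin N → ℝ := fun i k => α i (k, true) - α i (k, false) with ha
  have ha1 : ∀ i, ∑ k, |a i k| ≤ 1 := by
    intro i
    rw [← hα1 i, Fintype.sum_prod_type]
    refine Finset.sum_le_sum fun k _ => ?_
    rw [Fintype.sum_bool]
    have h1 := hα0 i (k, true)
    have h2 := hα0 i (k, false)
    rw [abs_le]
    constructor <;> simp only [ha] <;> linarith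
  have hya : ∀ i l, ((GM G)ᵀ *ᵥ a i) ⬝ᵥ (y l).ofLp = if i = l then 1 else 0 := by
    intro i l
    rw [← inner_cc, hy]
  have hsum : ∑ i, Real.sqrt ((y i).ofLp ⬝ᵥ (y i).ofLp) ≤ 320 * D := by
    have h1 : (N : ℝ) / 320 * ∑ i, Real.sqrt ((y i).ofLp ⬝ᵥ (y i).ofLp) ≤ N * D := by
      rw [Finset.mul_sum]
      calc ∑ i, (N : ℝ) / 320 * Real.sqrt ((y i).ofLp ⬝ᵥ (y i).ofLp)
          ≤ ∑ i, ∑ j, |GM G j ⬝ᵥ (y i).ofLp| := Finset.sum_le_sum fun i _ => hiso _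
        _ = ∑ j, ∑ i, |⟪gE G j, y i⟫| := by
            rw [Finset.sum_comm]
            simp only [inner_gE]
        _ ≤ ∑ _j : Fin N, D := Finset.sum_le_sum fun j _ => hD j
        _ = N * D := by simp
    have h2 : (N : ℝ) / 320 * ∑ i, Real.sqrt ((y i).ofLp ⬝ᵥ (y i).ofLp) ≤
        (N : ℝ) / 320 * (320 * D) := by
      refine h1.trans (le_of_eq ?_)
      ring
    exact le_of_mul_le_mul_left h2 (by positivity)
  have hMpos : 0 < M := by linarith
  have hlam : (0 : ℝ) < n / (200 * M ^ 2) := by positivity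
  obtain ⟨w, hw1, hw2, hw3⟩ := start (n := n) (by omega) (GM G) hlam a (fun i => (y i).ofLp) hya
    hsum
  refine chain hN G hM1 hM2 hM3 S hS1 hS2 hgood hql w hw1 hw2 a ha1 (hw3.trans ?_)
  have hnpos : (0 : ℝ) < n := by linarith
  rw [div_le_iff₀ hnpos]
  have h1 : 320 * D ≤ c ^ (1 / 6 : ℝ) * (n : ℝ) ^ (2 / 3 : ℝ) / Real.log n ^ (1 / 6 : ℝ) := by
    have : c ^ (1 / 6 : ℝ) * (n : ℝ) ^ (2 / 3 : ℝ) / Real.log n ^ (1 / 6 : ℝ) =
        320 * (c ^ (1 / 6 : ℝ) / 320 * (n : ℝ) ^ (2 / 3 : ℝ) / Real.log n ^ (1 / 6 : ℝ)) := by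
      ring
    rw [this]
    linarith
  calc (320 * D) ^ 2 ≤
        (c ^ (1 / 6 : ℝ) * (n : ℝ) ^ (2 / 3 : ℝ) / Real.log n ^ (1 / 6 : ℝ)) ^ 2 := by
        gcongr
    _ = M * n := by
        rw [hM, div_pow, mul_pow, ← Real.rpow_natCast, ← Real.rpow_natCast, ← Real.rpow_natCast,
          ← Real.rpow_mul hc.le, ← Real.rpow_mul hnpos.le, ← Real.rpow_mul hlog.le,
          Real.div_rpow (by positivity) hlog.le, Real.mul_rpow hc.le hnpos.le]
        have e1 : (1 / 6 : ℝ) * ((2 : ℕ) : ℝ) = 1 / 3 := by norm_num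
        have e2 : (2 / 3 : ℝ) * ((2 : ℕ) : ℝ) = 1 / 3 + 1 := by norm_num
        rw [e1, e2, Real.rpow_add hnpos, Real.rpow_one]
        ring

end Pool.Agent.LL
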