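import Pool.Agent.Helper38.LL.LA
import Pool.Agent.Helper38.LL.LB

/-!
LL-MR. Rounding of one row (Maurey). Let `Q = B⁻¹`, `u = Γᵀ (√w a)`, `e = (B + u uᵀ)⁻¹ u`. For every
`z`: `ti (B + r1 z) = ti B - |Q z|²/(1 + zᵀ Q z)` and (`| Q z - (1 + zᵀ Q z) e |² ≥ 0`)
`|Q z|²/(1 + zᵀ Q z) ≥ φ z := 2 ⟨Q z, e⟩ - |e|² (1 + zᵀ Q z)`, with equality for `z = u`.
The picks are made one after the other: the remaining picks are replaced by the mean `m = Γᵀ a`;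
the change of `φ` is a linear form (which can be made nonnegative by the choice of the spike with the
largest absolute value, since `∑ |a k| ≤ 1`) minus `|e|² w L⁻² (hᵀ Q h - mᵀ Q m)`.
-/

namespace Pool.Agent.LL

open Finset Matrix

namespace MR

/-- the quadratic functional -/
def ph {n : ℕ} (Q : Matrix (Fin n) (Fin n) ℝ) (e z : Fin n → ℝ) : ℝ :=
  2 * ((Q *ᵥ z) ⬝ᵥ e) - (e ⬝ᵥ e) * (1 + z ⬝ᵥ (Q *ᵥ z))

theorem sg_sq (b : Bool) : sg b * sg b = 1 := by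
  cases b <;> simp [sg]

theorem exists_pick {N n : ℕ} (hN : 0 < N) (Γ : Matrix (Fin N) (Fin n) ℝ) (a : Fin N → ℝ)
    (ha : ∑ k, |a k| ≤ 1) (l : Fin n → ℝ) :
    ∃ k : Fin N, ∃ b : Bool, l ⬝ᵥ (Γᵀ *ᵥ a) ≤ l ⬝ᵥ (sg b • Γ k) := by
  have : Nonempty (Fin N) := ⟨⟨0, hN⟩⟩
  obtain ⟨k, -, hk⟩ := Finset.exists_max_image (univ : Finset (Fin N)) (fun k => |l ⬝ᵥ Γ k|)
    Finset.univ_nonempty
  have h1 : l ⬝ᵥ (Γᵀ *ᵥ a) = ∑ j, a j * (l ⬝ᵥ Γ j) := by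
    simp only [dotProduct, mulVec, transpose_apply, Finset.mul_sum]
    rw [Finset.sum_comm]
    apply Finset.sum_congr rfl
    intro j _
    apply Finset.sum_congr rfl
    intro i _
    ring
  have h2 : l ⬝ᵥ (Γᵀ *ᵥ a) ≤ |l ⬝ᵥ Γ k| := by
    rw [h1]
    calc ∑ j, a j * (l ⬝ᵥ Γ j) ≤ ∑ j, |a j| * |l ⬝ᵥ Γ k| := by
          apply Finset.sum_le_sum
          intro j _
          calc a j * (l ⬝ᵥ Γ j) ≤ |a j * (l ⬝ᵥ Γ j)| := le_abs_self _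
            _ = |a j| * |l ⬝ᵥ Γ j| := abs_mul _ _
            _ ≤ |a j| * |l ⬝ᵥ Γ k| :=
              mul_le_mul_of_nonneg_left (hk j (Finset.mem_univ j)) (abs_nonneg _)
      _ = (∑ j, |a j|) * |l ⬝ᵥ Γ k| := by rw [Finset.sum_mul]
      _ ≤ 1 * |l ⬝ᵥ Γ k| := mul_le_mul_of_nonneg_right ha (abs_nonneg _)
      _ = |l ⬝ᵥ Γ k| := one_mul _
  rcases le_total 0 (l ⬝ᵥ Γ k) with h | h
  · refine ⟨k, true, ?_⟩
    rw [abs_of_nonneg h] at h2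
    simpa [sg] using h2
  · refine ⟨k, false, ?_⟩
    rw [abs_of_nonpos h] at h2
    simpa [sg] using h2

theorem step {N n : ℕ} (hN : 0 < N) (Γ : Matrix (Fin N) (Fin n) ℝ)
    {B : Matrix (Fin n) (Fin n) ℝ} (hB : B.PosDef) (a : Fin N → ℝ)
    (ha : ∑ k, |a k| ≤ 1) {x : ℝ} (hx : ∀ k, qf B (Γ k) ≤ x) (e : Fin n → ℝ) (c : ℝ)
    (r : Fin n → ℝ) :
    ∃ k : Fin N, ∃ b : Bool,
      ph B⁻¹ e (c • (r + Γᵀ *ᵥ a)) - (e ⬝ᵥ e) * c ^ 2 * x ≤ ph B⁻¹ e (c • (r + sg b • Γ k)) := by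
  have hQ := hB.inv
  have hs : (B⁻¹)ᵀ = B⁻¹ := by
    have := hQ.isHermitian
    rwa [Matrix.IsHermitian, Matrix.conjTranspose_eq_transpose_of_trivial] at this
  have hsym : ∀ v w : Fin n → ℝ, v ⬝ᵥ (B⁻¹ *ᵥ w) = w ⬝ᵥ (B⁻¹ *ᵥ v) := by
    intro v w
    rw [Matrix.dotProduct_mulVec, ← Matrix.mulVec_transpose, hs, dotProduct_comm]
  have hE : 0 ≤ e ⬝ᵥ e := by
    simp only [dotProduct]
    exact Finset.sum_nonneg fun i _ => mul_self_nonneg _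
  obtain ⟨k, b, hkb⟩ := exists_pick hN Γ a ha
    ((2 * c) • (B⁻¹ *ᵥ e) - (2 * (e ⬝ᵥ e) * c ^ 2) • (B⁻¹ *ᵥ r))
  refine ⟨k, b, ?_⟩
  set m := Γᵀ *ᵥ a with hm
  set h := sg b • Γ k with hh
  have hhq : h ⬝ᵥ (B⁻¹ *ᵥ h) ≤ x := by
    have h1 : h ⬝ᵥ (B⁻¹ *ᵥ h) = qf B (Γ k) := by
      rw [hh, mulVec_smul, dotProduct_smul, smul_dotProduct, smul_eq_mul, smul_eq_mul, ← mul_assoc,
        sg_sq, one_mul]
      rfl
    rw [h1]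
    exact hx k
  have hmq : 0 ≤ m ⬝ᵥ (B⁻¹ *ᵥ m) := qf_nonneg hB m
  have hexp : ∀ v : Fin n → ℝ, ph B⁻¹ e (c • (r + v)) =
      ph B⁻¹ e (c • r) + ((2 * c) • (B⁻¹ *ᵥ e) - (2 * (e ⬝ᵥ e) * c ^ 2) • (B⁻¹ *ᵥ r)) ⬝ᵥ v
        - (e ⬝ᵥ e) * c ^ 2 * (v ⬝ᵥ (B⁻¹ *ᵥ v)) := by
    intro v
    have e1 : (B⁻¹ *ᵥ v) ⬝ᵥ e = (B⁻¹ *ᵥ e) ⬝ᵥ v := by
      rw [dotProduct_comm, hsym, dotProduct_comm]
    have e2 : (B⁻¹ *ᵥ r) ⬝ᵥ v = v ⬝ᵥ (B⁻¹ *ᵥ r) := dotProduct_comm _ _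
    have e3 : r ⬝ᵥ (B⁻¹ *ᵥ v) = v ⬝ᵥ (B⁻¹ *ᵥ r) := hsym _ _
    simp only [ph, mulVec_smul, mulVec_add, smul_dotProduct, dotProduct_smul, add_dotProduct,
      dotProduct_add, sub_dotProduct, smul_eq_mul, e1, e2, e3]
    ring
  rw [hexp m, hexp h]
  have h5 : (e ⬝ᵥ e) * c ^ 2 * (h ⬝ᵥ (B⁻¹ *ᵥ h)) ≤ (e ⬝ᵥ e) * c ^ 2 * x :=
    mul_le_mul_of_nonneg_left hhq (mul_nonneg hE (sq_nonneg c))
  have h6 : 0 ≤ (e ⬝ᵥ e) * c ^ 2 * (m ⬝ᵥ (B⁻¹ *ᵥ m)) :=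
    mul_nonneg (mul_nonneg hE (sq_nonneg c)) hmq
  linarith

theorem chain {N n : ℕ} (hN : 0 < N) (Γ : Matrix (Fin N) (Fin n) ℝ)
    {B : Matrix (Fin n) (Fin n) ℝ} (hB : B.PosDef) (a : Fin N → ℝ)
    (ha : ∑ k, |a k| ≤ 1) {x : ℝ} (hx : ∀ k, qf B (Γ k) ≤ x) (e : Fin n → ℝ) (c : ℝ) (L : ℕ) :
    ∀ t : ℕ, t ≤ L → ∃ p : ℕ → Fin N × Bool,
      ph B⁻¹ e (c • ((L : ℝ) • (Γᵀ *ᵥ a))) - t * ((e ⬝ᵥ e) * c ^ 2 * x) ≤
        ph B⁻¹ e (c • ((∑ l ∈ range t, sg (p l).2 • Γ (p l).1) +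
          ((L : ℝ) - t) • (Γᵀ *ᵥ a))) := by
  intro t
  induction t with
  | zero =>
    intro _
    exact ⟨fun _ => (⟨0, hN⟩, true), by simp⟩
  | succ t ih =>
    intro ht
    obtain ⟨p, hp⟩ := ih (by omega)
    set S := ∑ l ∈ range t, sg (p l).2 • Γ (p l).1 with hS
    obtain ⟨k, b, hkb⟩ := step hN Γ hB a ha hx e c (S + ((L : ℝ) - t - 1) • (Γᵀ *ᵥ a))
    refine ⟨Function.update p t (k, b), ?_⟩
    have h1 : ∑ l ∈ range (t + 1), sg (Function.update p t (k, b) l).2 •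
        Γ (Function.update p t (k, b) l).1 = S + sg b • Γ k := by
      rw [Finset.sum_range_succ]
      congr 1
      · apply Finset.sum_congr rfl
        intro l hl
        have : l ≠ t := (Finset.mem_range.1 hl).ne
        rw [Function.update_of_ne this]
      · simp
    rw [h1]
    have h2 : S + ((L : ℝ) - t - 1) • (Γᵀ *ᵥ a) + Γᵀ *ᵥ a = S + ((L : ℝ) - t) • (Γᵀ *ᵥ a) := by
      module
    have h3 : S + ((L : ℝ) - t - 1) • (Γᵀ *ᵥ a) + sg b • Γ k =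
        S + sg b • Γ k + ((L : ℝ) - ((t + 1 : ℕ) : ℝ)) • (Γᵀ *ᵥ a) := by
      push_cast
      module
    rw [h2, h3] at hkb
    push_cast at hkb ⊢
    linarith

theorem ti_le {n : ℕ} {B : Matrix (Fin n) (Fin n) ℝ} (hB : B.PosDef) (e z : Fin n → ℝ) :
    ti (B + r1 z) ≤ ti B - ph B⁻¹ e z := by
  rw [ti_add_r1 hB]
  have hq : 0 < 1 + qf B z := by
    have := qf_nonneg hB z
    linarith
  have h1 : ph B⁻¹ e z ≤ ((B⁻¹ *ᵥ z) ⬝ᵥ (B⁻¹ *ᵥ z)) / (1 + qf B z) := by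
    rw [le_div_iff₀ hq]
    have h2 : 0 ≤ (B⁻¹ *ᵥ z - (1 + qf B z) • e) ⬝ᵥ (B⁻¹ *ᵥ z - (1 + qf B z) • e) := by
      simp only [dotProduct]
      exact Finset.sum_nonneg fun i _ => mul_self_nonneg _
    have e1 : e ⬝ᵥ (B⁻¹ *ᵥ z) = (B⁻¹ *ᵥ z) ⬝ᵥ e := dotProduct_comm _ _
    simp only [sub_dotProduct, dotProduct_sub, smul_dotProduct, dotProduct_smul, smul_eq_mul,
      e1] at h2
    have h3 : ph B⁻¹ e z = 2 * ((B⁻¹ *ᵥ z) ⬝ᵥ e) - (e ⬝ᵥ e) * (1 + qf B z) := rfl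
    rw [h3]
    nlinarith [h2]
  linarith

theorem ti_eq {n : ℕ} {B : Matrix (Fin n) (Fin n) ℝ} (hB : B.PosDef) (u : Fin n → ℝ) :
    ti (B + r1 u) = ti B - ph B⁻¹ ((B + r1 u)⁻¹ *ᵥ u) u := by
  rw [ti_add_r1 hB, inv_mulVec_add_r1 hB]
  have hq : 0 < 1 + qf B u := by
    have := qf_nonneg hB u
    linarith
  have h3 : ph B⁻¹ ((1 + qf B u)⁻¹ • (B⁻¹ *ᵥ u)) u =
      2 * ((B⁻¹ *ᵥ u) ⬝ᵥ ((1 + qf B u)⁻¹ • (B⁻¹ *ᵥ u))) -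
      (((1 + qf B u)⁻¹ • (B⁻¹ *ᵥ u)) ⬝ᵥ ((1 + qf B u)⁻¹ • (B⁻¹ *ᵥ u))) * (1 + qf B u) := rfl
  rw [h3]
  simp only [smul_dotProduct, dotProduct_smul, smul_eq_mul]
  field_simp
  ring

end MR

theorem maurey {N n : ℕ} (hN : 0 < N) (Γ : Matrix (Fin N) (Fin n) ℝ)
    {B : Matrix (Fin n) (Fin n) ℝ} (hB : B.PosDef) {w : ℝ} (hw : 0 ≤ w) (a : Fin N → ℝ)
    (ha : ∑ k, |a k| ≤ 1) {x : ℝ} (hx : ∀ k, qf B (Γ k) ≤ x) (L : ℕ) (hL : 1 ≤ L) :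
    ∃ p : Fin L → Fin N × Bool,
      ti (B + r1 (Γᵀ *ᵥ (fun k => Real.sqrt w * ((L : ℝ)⁻¹ *
        ∑ l, if (p l).1 = k then sg (p l).2 else 0)))) ≤
      ti (B + r1 (Γᵀ *ᵥ (fun k => Real.sqrt w * a k))) +
        (((B + r1 (Γᵀ *ᵥ (fun k => Real.sqrt w * a k)))⁻¹ *ᵥ
            (Γᵀ *ᵥ (fun k => Real.sqrt w * a k))) ⬝ᵥ
          ((B + r1 (Γᵀ *ᵥ (fun k => Real.sqrt w * a k)))⁻¹ *ᵥ
            (Γᵀ *ᵥ (fun k => Real.sqrt w * a k)))) * (w * x / L) := by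
  set u := Γᵀ *ᵥ (fun k => Real.sqrt w * a k) with hu
  set e := (B + r1 u)⁻¹ *ᵥ u with he
  have hL0 : (L : ℝ) ≠ 0 := by
    have : L ≠ 0 := by omega
    exact_mod_cast this
  obtain ⟨p, hp⟩ := MR.chain hN Γ hB a ha hx e (Real.sqrt w * (L : ℝ)⁻¹) L L le_rfl
  refine ⟨fun l => p l, ?_⟩
  have h1 : Γᵀ *ᵥ (fun k => Real.sqrt w * ((L : ℝ)⁻¹ *
      ∑ l : Fin L, if (p l).1 = k then sg (p l).2 else 0)) =
      (Real.sqrt w * (L : ℝ)⁻¹) • ((∑ l ∈ range L, sg (p l).2 • Γ (p l).1) +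
          ((L : ℝ) - L) • (Γᵀ *ᵥ a)) := by
    rw [sub_self, zero_smul, add_zero, ← Fin.sum_univ_eq_sum_range
      (fun l => sg (p l).2 • Γ (p l).1) L]
    ext i
    simp only [mulVec, dotProduct, transpose_apply, Pi.smul_apply, Finset.sum_apply, smul_eq_mul]
    have e1 : ∀ k, Γ k i * (Real.sqrt w * ((L : ℝ)⁻¹ *
        ∑ l : Fin L, if (p l).1 = k then sg (p l).2 else 0)) =
        Real.sqrt w * (L : ℝ)⁻¹ * ∑ l : Fin L, if (p l).1 = k then sg (p l).2 * Γ k i else 0 := by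
      intro k
      have : ∑ l : Fin L, (if (p l).1 = k then sg (p l).2 * Γ k i else 0) =
          (∑ l : Fin L, if (p l).1 = k then sg (p l).2 else 0) * Γ k i := by
        rw [Finset.sum_mul]
        apply Finset.sum_congr rfl
        intro l _
        split_ifs <;> simp
      rw [this]
      ring
    simp only [e1]
    rw [← Finset.mul_sum, Finset.sum_comm]
    congr 1
    apply Finset.sum_congr rfl
    intro l _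
    simp
  have h2 : (Real.sqrt w * (L : ℝ)⁻¹) • ((L : ℝ) • (Γᵀ *ᵥ a)) = u := by
    rw [smul_smul, mul_assoc, inv_mul_cancel₀ hL0, mul_one, hu]
    have : (fun k => Real.sqrt w * a k) = Real.sqrt w • a := rfl
    rw [this, mulVec_smul]
  rw [h1]
  rw [h2] at hp
  have h3 := MR.ti_le hB e ((Real.sqrt w * (L : ℝ)⁻¹) • ((∑ l ∈ range L, sg (p l).2 • Γ (p l).1) +
          ((L : ℝ) - L) • (Γᵀ *ᵥ a)))
  have h4 := MR.ti_eq hB u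
  rw [← he] at h4
  have h5 : (L : ℝ) * ((e ⬝ᵥ e) * (Real.sqrt w * (L : ℝ)⁻¹) ^ 2 * x) = (e ⬝ᵥ e) * (w * x / L) := by
    rw [mul_pow, Real.sq_sqrt hw]
    field_simp
  rw [h5] at hp
  linarith

end Pool.Agent.LL
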