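import Pool.Agent.Helper38.LL.SU
import Pool.Agent.Helper38.LL.MR

/-!
LL-PR. The rounding stage. Notation: `W = ∑ w i`, `b i = √(w i) a i`, `T = ti (AG lam Γ (Hm univ b β))`.
State: a set `U` of unrounded rows (`W_U = ∑_{i ∈ U} w i`), new rows `b'` (only those outside `U`
count), a list of `r ≤ q` additions `(i s, j s)`, `s < r`, and `τ` (`τ a = q` for `a ∈ U`; `τ a` = number
of additions made before the row `a` was rounded, for `a ∉ U`). Current design: rows `b' a` for `a ∉ U`,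
`b a` for `a ∈ U`, weights `β + x⁻¹ ·` (indicator of `{j s}`). Invariants:
* `ti (current) ≤ T exp (2 ε (1 - √(W_U/W)))`;
* the numbers of picks satisfy `∑_{a ∉ U} L a ≤ |Uᶜ| + (2 W x/ε)(1 - √(W_U/W))`;
* for every `s < r` the design at the addition `s` (rows `b'` iff `τ a ≤ s`, row `i s` removed,
  weights `β + x⁻¹ ·` indicator of `{j 0, .., j (s-1)}`) satisfies the inequalities of `Bad` with
  `T exp (2 ε) + 1/lam`; the `j s` are distinct.
Moves. (1) If for some `i ∈ U` and some `k` the form of `Γ k` in the current design without row `i` is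
`> x`: add `(i, k)` (`k` is new because of `qf_le_inv` with `c = x⁻¹`; the trace without row `i` is at
most `ti (current) + 1/lam`, `ti_le_add`). If `r + 1 = q` we have the second alternative.
(2) Otherwise, if `U ≠ ∅`: by `sum_sq_le` there is `i ∈ U` with `|K u_i|² ≤ ti (current) · w i/W_U`
(`K` = inverse of the current matrix). Put `η = ε √(W_U/W)`, `L i = ⌈w i x/η⌉` and round the row `i`
with `maurey` (`B` = current matrix without row `i`): the trace is multiplied by at most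
`1 + η w i/W_U = 1 + ε w i/√(W_U W) ≤ exp (2 ε (√W_U - √(W_U - w i))/√W)`. `U := U.erase i`, `τ i := r`.
If `U = ∅` we have the first alternative. Rows never rounded get one pick (`L = 1`) in the second one.
-/

namespace Pool.Agent.LL

open Finset Matrix

/-- Weights after the additions `jj t`, `t < s`. -/
noncomputable def ww {N : ℕ} (β : Fin N → ℝ) (c : ℝ) (jj : ℕ → Fin N) (s : ℕ) : Fin N → ℝ :=
  fun k => β k + c * (((range s).filter (fun t => jj t = k)).card : ℝ)

/-- A row of picks. -/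
noncomputable def pickRow {N : ℕ} (w L : ℕ) (p : Fin L → Fin N × Bool) : Fin N → ℝ :=
  fun k => Real.sqrt w * ((L : ℝ)⁻¹ * ∑ l, if (p l).1 = k then sg (p l).2 else 0)

/-- Total weight of the rows in `U`. -/
noncomputable def wU {n : ℕ} (w : Fin n → ℕ) (U : Finset (Fin n)) : ℝ := ∑ i ∈ U, (w i : ℝ)

/-- `√(W_U/W)`. -/
noncomputable def su {n : ℕ} (w : Fin n → ℕ) (U : Finset (Fin n)) : ℝ :=
  Real.sqrt (wU w U / wU w univ)

theorem ww_nonneg {N : ℕ} {β : Fin N → ℝ} (hβ : ∀ k, 0 ≤ β k) {c : ℝ} (hc : 0 ≤ c)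
    (jj : ℕ → Fin N) (s : ℕ) (k : Fin N) : 0 ≤ ww β c jj s k :=
  add_nonneg (hβ k) (mul_nonneg hc (Nat.cast_nonneg _))

theorem ww_congr {N : ℕ} {β : Fin N → ℝ} {c : ℝ} {jj jj' : ℕ → Fin N} {s : ℕ}
    (h : ∀ t < s, jj t = jj' t) : ww β c jj s = ww β c jj' s := by
  funext k
  unfold ww
  congr 3
  apply congrArg
  apply Finset.filter_congr
  intro t ht
  rw [h t (mem_range.1 ht)]

theorem ww_succ {N : ℕ} (β : Fin N → ℝ) (c : ℝ) (jj : ℕ → Fin N) (s : ℕ) :
    ww β c jj (s + 1) = fun l => ww β c jj s l + if l = jj s then c else 0 := by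
  funext k
  unfold ww
  rw [range_add_one, filter_insert]
  by_cases h : jj s = k
  · rw [if_pos h, card_insert_of_notMem (by simp), if_pos h.symm]
    push_cast
    ring
  · rw [if_neg h, if_neg (fun h' => h h'.symm)]
    ring

theorem su_key {n : ℕ} {w : Fin n → ℕ} (hw : ∀ i, 1 ≤ w i) {U : Finset (Fin n)} {i : Fin n}
    (hi : i ∈ U) : 0 < wU w U ∧ 0 < wU w univ ∧ 0 < su w U ∧ su w (U.erase i) ≤ su w U ∧
      (w i : ℝ) / (wU w univ * su w U) ≤ 2 * (su w U - su w (U.erase i)) ∧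
      su w U ^ 2 = wU w U / wU w univ := by
  have hwi : (0 : ℝ) < w i := by exact_mod_cast hw i
  have h1 : 0 < wU w U := by
    unfold wU
    refine Finset.sum_pos (fun k _ => ?_) ⟨i, hi⟩
    exact_mod_cast hw k
  have h2 : 0 < wU w univ := by
    unfold wU
    refine Finset.sum_pos (fun k _ => ?_) ⟨i, mem_univ i⟩
    exact_mod_cast hw k
  have h3 : 0 < su w U := Real.sqrt_pos.2 (div_pos h1 h2)
  have h4 : wU w (U.erase i) = wU w U - w i := by
    unfold wU
    rw [← Finset.add_sum_erase U _ hi]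
    ring
  have h4' : 0 ≤ wU w (U.erase i) := Finset.sum_nonneg fun k _ => Nat.cast_nonneg _
  have h5 : su w U ^ 2 = wU w U / wU w univ := Real.sq_sqrt (div_nonneg h1.le h2.le)
  have h6 : su w (U.erase i) ^ 2 = wU w (U.erase i) / wU w univ :=
    Real.sq_sqrt (div_nonneg h4' h2.le)
  have h7 : su w (U.erase i) ≤ su w U := by
    apply Real.sqrt_le_sqrt
    rw [h4]
    gcongr
    linarith
  refine ⟨h1, h2, h3, h7, ?_, h5⟩
  have h8 : (w i : ℝ) / wU w univ = su w U ^ 2 - su w (U.erase i) ^ 2 := by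
    rw [h5, h6, h4]
    ring
  have h9 : 0 ≤ su w (U.erase i) := Real.sqrt_nonneg _
  rw [← div_div, h8, div_le_iff₀ h3]
  nlinarith

theorem su_univ {n : ℕ} {w : Fin n → ℕ} (hw : ∀ i, 1 ≤ w i) (hn : 0 < n) :
    su w (univ : Finset (Fin n)) = 1 := by
  have h2 : 0 < wU w univ := (su_key hw (mem_univ (⟨0, hn⟩ : Fin n))).2.1
  unfold su
  rw [div_self h2.ne', Real.sqrt_one]

/-- The invariant of the rounding process. -/
structure Inv {N n : ℕ} (Γ : Matrix (Fin N) (Fin n) ℝ) (lam x ε T : ℝ) (w : Fin n → ℕ)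
    (b : Fin n → Fin N → ℝ) (β : Fin N → ℝ) (q : ℕ) (U : Finset (Fin n))
    (b' : Fin n → Fin N → ℝ) (r : ℕ) (ii : ℕ → Fin n) (jj : ℕ → Fin N) (τ : Fin n → ℕ)
    (L : Fin n → ℕ) : Prop where
  L1 : ∀ i, 1 ≤ L i
  LU : ∀ i ∈ U, L i = 1
  row : ∀ i, ∃ p : Fin (L i) → Fin N × Bool, b' i = pickRow (w i) (L i) p
  sumL : ∑ i ∈ Uᶜ, (L i : ℝ) ≤ (Uᶜ.card : ℝ) + 2 * wU w univ * x / ε * (1 - su w U)
  rq : r ≤ q
  τU : ∀ i ∈ U, τ i = q
  τUc : ∀ i ∉ U, τ i ≤ r
  inj : ∀ s < r, ∀ t < r, jj s = jj t → s = t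
  bad : ∀ s < r,
    x < qf (AG lam Γ (Hm (univ.erase (ii s)) (fun a => if τ a ≤ s then b' a else b a)
      (ww β x⁻¹ jj s))) (Γ (jj s)) ∧
    ti (AG lam Γ (Hm (univ.erase (ii s)) (fun a => if τ a ≤ s then b' a else b a)
      (ww β x⁻¹ jj s))) ≤ T * Real.exp (2 * ε) + 1 / lam
  tr : ti (AG lam Γ (Hm univ (fun a => if a ∈ U then b a else b' a) (ww β x⁻¹ jj r))) ≤
    T * Real.exp (2 * ε * (1 - su w U))

theorem inv_add {N n : ℕ} {Γ : Matrix (Fin N) (Fin n) ℝ} {lam x ε T : ℝ} (hlam : 0 < lam)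
    (hx : 0 < x) (hε : 0 < ε) (hT0 : 0 ≤ T) {w : Fin n → ℕ} {b : Fin n → Fin N → ℝ}
    {β : Fin N → ℝ} (hβ : ∀ k, 0 ≤ β k) {q : ℕ} {U : Finset (Fin n)} {b' : Fin n → Fin N → ℝ}
    {r : ℕ} {ii : ℕ → Fin n} {jj : ℕ → Fin N} {τ : Fin n → ℕ} {L : Fin n → ℕ}
    (h : Inv Γ lam x ε T w b β q U b' r ii jj τ L) (hr : r < q) {i : Fin n} (_hi : i ∈ U)
    {k : Fin N} (hk : x < qf (AG lam Γ (Hm (univ.erase i) (fun a => if a ∈ U then b a else b' a)
      (ww β x⁻¹ jj r))) (Γ k)) :
    Inv Γ lam x ε T w b β q U b' (r + 1) (Function.update ii r i) (Function.update jj r k) τ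
      L := by
  have hx' : 0 < x⁻¹ := inv_pos.2 hx
  have hww : ∀ s k, 0 ≤ ww β x⁻¹ jj s k := fun s k => ww_nonneg hβ hx'.le jj s k
  have hupd : ∀ s ≤ r, ww β x⁻¹ (Function.update jj r k) s = ww β x⁻¹ jj s := by
    intro s hs
    apply ww_congr
    intro t ht
    rw [Function.update_of_ne (by omega)]
  have hnew : ∀ t < r, jj t ≠ k := by
    intro t ht hjt
    have h1 : x⁻¹ ≤ ww β x⁻¹ jj r k := by
      unfold ww
      have h2 : 1 ≤ (((range r).filter (fun t => jj t = k)).card : ℝ) := by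
        have : 0 < ((range r).filter (fun t => jj t = k)).card :=
          Finset.card_pos.2 ⟨t, by simp [ht, hjt]⟩
        exact_mod_cast this
      have h3 := hβ k
      nlinarith
    have h2 := qf_le_inv hlam Γ (univ.erase i) (fun a => if a ∈ U then b a else b' a)
      (hww r) hx' h1
    rw [inv_inv] at h2
    linarith
  have hcur : (fun a => if τ a ≤ r then b' a else b a) = (fun a => if a ∈ U then b a else b' a) := by
    funext a
    by_cases ha : a ∈ U
    · rw [if_pos ha, if_neg (by rw [h.τU a ha]; omega)]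
    · rw [if_neg ha, if_pos (h.τUc a ha)]
  have hsu : 0 ≤ su w U := Real.sqrt_nonneg _
  have hPD : (AG lam Γ (Hm (univ.erase i) (fun a => if a ∈ U then b a else b' a)
      (ww β x⁻¹ jj r))).PosDef := posDef_AG hlam Γ (posSemidef_Hm _ _ (hww r))
  have hPD2 : (AG lam Γ (Hm univ (fun a => if a ∈ U then b a else b' a)
      (ww β x⁻¹ jj r))).PosDef := posDef_AG hlam Γ (posSemidef_Hm _ _ (hww r))
  refine ⟨h.L1, h.LU, h.row, h.sumL, hr, h.τU, fun a ha => (h.τUc a ha).trans (Nat.le_succ r),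
    ?_, ?_, ?_⟩
  · intro s hs t ht hst
    rcases Nat.lt_or_ge s r with hs' | hs' <;> rcases Nat.lt_or_ge t r with ht' | ht'
    · rw [Function.update_of_ne (by omega), Function.update_of_ne (by omega)] at hst
      exact h.inj s hs' t ht' hst
    · obtain rfl : t = r := by omega
      rw [Function.update_of_ne (by omega), Function.update_self] at hst
      exact absurd hst (hnew s hs')
    · obtain rfl : s = r := by omega
      rw [Function.update_self, Function.update_of_ne (by omega)] at hst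
      exact absurd hst.symm (hnew t ht')
    · omega
  · intro s hs
    rcases Nat.lt_or_ge s r with hs' | hs'
    · rw [Function.update_of_ne (by omega), Function.update_of_ne (by omega), hupd s hs'.le]
      exact h.bad s hs'
    · obtain rfl : s = r := by omega
      rw [Function.update_self, Function.update_self, hupd s le_rfl, hcur]
      refine ⟨hk, ?_⟩
      have h1 := ti_le_add hPD hlam (fun v => le_AG lam Γ (posSemidef_Hm _ _ (hww s)) v)
        (Γᵀ *ᵥ (if i ∈ U then b i else b' i))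
      have h2 := AG_Hm_erase lam Γ (S := univ) (mem_univ i) (fun a => if a ∈ U then b a else b' a)
        (ww β x⁻¹ jj s)
      rw [← h2] at h1
      refine h1.trans ?_
      have h3 := h.tr
      have h4 : T * Real.exp (2 * ε * (1 - su w U)) ≤ T * Real.exp (2 * ε) := by
        apply mul_le_mul_of_nonneg_left _ hT0
        apply Real.exp_le_exp.2
        nlinarith
      linarith
  · have h1 : ww β x⁻¹ (Function.update jj r k) (r + 1) =
        fun l => ww β x⁻¹ jj r l + if l = k then x⁻¹ else 0 := by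
      rw [ww_succ, Function.update_self]
      funext l
      rw [hupd r le_rfl]
    rw [h1, AG_Hm_add lam Γ univ _ _ hx'.le k, ti_add_r1 hPD2]
    refine le_trans (sub_le_self _ ?_) h.tr
    refine div_nonneg ?_ ?_
    · exact Finset.sum_nonneg fun l _ => mul_self_nonneg _
    · have := qf_nonneg hPD2 (Real.sqrt x⁻¹ • Γ k)
      linarith

theorem inv_round {N n : ℕ} (hN : 0 < N) {Γ : Matrix (Fin N) (Fin n) ℝ} {lam x ε T : ℝ}
    (hlam : 0 < lam) (hx : 0 < x) (hε : 0 < ε) (hT0 : 0 ≤ T) {w : Fin n → ℕ}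
    (hw : ∀ i, 1 ≤ w i) {a : Fin n → Fin N → ℝ} (ha : ∀ i, ∑ k, |a i k| ≤ 1)
    {β : Fin N → ℝ} (hβ : ∀ k, 0 ≤ β k) {q : ℕ} {U : Finset (Fin n)} {b' : Fin n → Fin N → ℝ}
    {r : ℕ} {ii : ℕ → Fin n} {jj : ℕ → Fin N} {τ : Fin n → ℕ} {L : Fin n → ℕ}
    (h : Inv Γ lam x ε T w (fun i k => Real.sqrt (w i) * a i k) β q U b' r ii jj τ L)
    (hr : r < q) (hU : U.Nonempty)
    (hall : ∀ i ∈ U, ∀ k, qf (AG lam Γ (Hm (univ.erase i)
      (fun c => if c ∈ U then (fun k => Real.sqrt (w c) * a c k) else b' c)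
      (ww β x⁻¹ jj r))) (Γ k) ≤ x) :
    ∃ i ∈ U, ∃ (b'' : Fin n → Fin N → ℝ) (τ' : Fin n → ℕ) (L' : Fin n → ℕ),
      Inv Γ lam x ε T w (fun i k => Real.sqrt (w i) * a i k) β q (U.erase i) b'' r ii jj τ' L' := by
  have hx' : 0 < x⁻¹ := inv_pos.2 hx
  have hww : ∀ k, 0 ≤ ww β x⁻¹ jj r k := fun k => ww_nonneg hβ hx'.le jj r k
  set cur : Fin n → Fin N → ℝ :=
    fun c => if c ∈ U then (fun k => Real.sqrt (w c) * a c k) else b' c with hcur
  set A := AG lam Γ (Hm univ cur (ww β x⁻¹ jj r)) with hA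
  have hPD : A.PosDef := posDef_AG hlam Γ (posSemidef_Hm _ _ hww)
  have hti : 0 ≤ ti A := ti_nonneg hPD
  -- the choice of the row
  obtain ⟨i, hi, hiK⟩ : ∃ i ∈ U, (((A⁻¹ *ᵥ (Γᵀ *ᵥ cur i)) ⬝ᵥ (A⁻¹ *ᵥ (Γᵀ *ᵥ cur i)))) * wU w U ≤
      ti A * w i := by
    by_contra hcon
    push Not at hcon
    have h1 := sum_sq_le hlam Γ cur hww U
    rw [← hA] at h1
    have h2 : ∑ i ∈ U, ti A * (w i : ℝ) < ∑ i ∈ U,
        ((A⁻¹ *ᵥ (Γᵀ *ᵥ cur i)) ⬝ᵥ (A⁻¹ *ᵥ (Γᵀ *ᵥ cur i))) * wU w U :=
      Finset.sum_lt_sum_of_nonempty hU hcon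
    rw [← Finset.mul_sum, ← Finset.sum_mul] at h2
    have h3 : 0 ≤ wU w U := Finset.sum_nonneg fun k _ => Nat.cast_nonneg _
    have h4 := mul_le_mul_of_nonneg_right h1 h3
    have h5 : ∑ i ∈ U, (w i : ℝ) = wU w U := rfl
    rw [h5] at h2
    linarith
  obtain ⟨k1, k2, k3, k4, k5, k6⟩ := su_key hw hi
  have hwi : (0 : ℝ) < w i := by exact_mod_cast hw i
  set η : ℝ := ε * su w U with hη
  have hη0 : 0 < η := mul_pos hε k3
  set Li : ℕ := ⌈(w i : ℝ) * x / η⌉₊ with hLi
  have hLi1 : 1 ≤ Li := Nat.ceil_pos.2 (by positivity)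
  have hLi2 : (w i : ℝ) * x / η ≤ Li := Nat.le_ceil _
  have hLi3 : (Li : ℝ) ≤ (w i : ℝ) * x / η + 1 := (Nat.ceil_lt_add_one (by positivity)).le
  set B := AG lam Γ (Hm (univ.erase i) cur (ww β x⁻¹ jj r)) with hB
  have hPDB : B.PosDef := posDef_AG hlam Γ (posSemidef_Hm _ _ hww)
  have hcuri : cur i = fun k => Real.sqrt (w i) * a i k := by
    simp only [hcur, if_pos hi]
  obtain ⟨p, hp⟩ := maurey hN Γ hPDB (Nat.cast_nonneg (w i)) (a i) (ha i) (hall i hi) Li hLi1
  have hAB : A = B + r1 (Γᵀ *ᵥ (fun k => Real.sqrt (w i) * a i k)) := by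
    rw [hA, AG_Hm_erase lam Γ (mem_univ i) cur, hcuri]
  rw [← hAB, ← hcuri] at hp
  refine ⟨i, hi, Function.update b' i (pickRow (w i) Li p), Function.update τ i r,
    Function.update L i Li, ?_⟩
  have hsu' : 0 ≤ su w (U.erase i) := Real.sqrt_nonneg _
  constructor
  · intro c
    by_cases hc : c = i
    · subst hc
      rw [Function.update_self]
      exact hLi1
    · rw [Function.update_of_ne hc]
      exact h.L1 c
  · intro c hc
    rw [mem_erase] at hc
    rw [Function.update_of_ne hc.1]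
    exact h.LU c hc.2
  · intro c
    by_cases hc : c = i
    · subst hc
      rw [Function.update_self, Function.update_self]
      exact ⟨p, rfl⟩
    · rw [Function.update_of_ne hc, Function.update_of_ne hc]
      exact h.row c
  · have h1 : (U.erase i)ᶜ = insert i Uᶜ := by
      ext c
      simp only [mem_compl, mem_erase, mem_insert, not_and, not_not]
      tauto
    rw [h1, sum_insert (by simpa using hi), card_insert_of_notMem (by simpa using hi),
      Function.update_self]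
    have h2 : ∑ c ∈ Uᶜ, (Function.update L i Li c : ℝ) = ∑ c ∈ Uᶜ, (L c : ℝ) := by
      refine Finset.sum_congr rfl fun c hc => ?_
      rw [Function.update_of_ne]
      rintro rfl
      exact (mem_compl.1 hc) hi
    rw [h2]
    have h3 := h.sumL
    have h4 : (w i : ℝ) * x / η ≤ 2 * wU w univ * x / ε * (su w U - su w (U.erase i)) := by
      have h5 : (w i : ℝ) * x / η = (x * wU w univ / ε) * ((w i : ℝ) / (wU w univ * su w U)) := by
        rw [hη]
        field_simp
      rw [h5]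
      calc _ ≤ (x * wU w univ / ε) * (2 * (su w U - su w (U.erase i))) :=
            mul_le_mul_of_nonneg_left k5 (by positivity)
        _ = _ := by ring
    push_cast
    have h6 : 2 * wU w univ * x / ε * (1 - su w (U.erase i)) =
        2 * wU w univ * x / ε * (1 - su w U) +
          2 * wU w univ * x / ε * (su w U - su w (U.erase i)) := by ring
    rw [h6]
    linarith
  · exact h.rq
  · intro c hc
    rw [mem_erase] at hc
    rw [Function.update_of_ne hc.1]
    exact h.τU c hc.2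
  · intro c hc
    by_cases hci : c = i
    · subst hci
      rw [Function.update_self]
    · rw [Function.update_of_ne hci]
      apply h.τUc c
      intro hcU
      exact hc (mem_erase.2 ⟨hci, hcU⟩)
  · exact h.inj
  · intro s hs
    have h1 : (fun c => if Function.update τ i r c ≤ s then
        Function.update b' i (pickRow (w i) Li p) c else fun k => Real.sqrt (w c) * a c k) =
        (fun c => if τ c ≤ s then b' c else fun k => Real.sqrt (w c) * a c k) := by
      funext c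
      by_cases hc : c = i
      · subst hc
        rw [Function.update_self, if_neg (by omega), if_neg (by rw [h.τU c hi]; omega)]
      · rw [Function.update_of_ne hc, Function.update_of_ne hc]
    rw [h1]
    exact h.bad s hs
  · have h1 : (fun c => if c ∈ U.erase i then (fun k => Real.sqrt (w c) * a c k) else
        Function.update b' i (pickRow (w i) Li p) c) = Function.update cur i (pickRow (w i) Li p) := by
      funext c
      by_cases hc : c = i
      · subst hc
        rw [if_neg (by simp), Function.update_self, Function.update_self]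
      · rw [Function.update_of_ne hc, Function.update_of_ne hc]
        simp only [hcur, mem_erase, ne_eq, hc, not_false_eq_true, true_and]
    rw [h1]
    have h2 : AG lam Γ (Hm univ (Function.update cur i (pickRow (w i) Li p)) (ww β x⁻¹ jj r)) =
        B + r1 (Γᵀ *ᵥ pickRow (w i) Li p) := by
      rw [AG_Hm_erase lam Γ (mem_univ i), Function.update_self, hB]
      congr 2
      unfold Hm
      congr 1
      refine Finset.sum_congr rfl fun c hc => ?_
      rw [Function.update_of_ne (mem_erase.1 hc).1]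
    rw [h2]
    have h3 : ti (B + r1 (Γᵀ *ᵥ pickRow (w i) Li p)) ≤ ti A +
        ((A⁻¹ *ᵥ (Γᵀ *ᵥ cur i)) ⬝ᵥ (A⁻¹ *ᵥ (Γᵀ *ᵥ cur i))) * (w i * x / Li) := hp
    refine h3.trans ?_
    set Q := (A⁻¹ *ᵥ (Γᵀ *ᵥ cur i)) ⬝ᵥ (A⁻¹ *ᵥ (Γᵀ *ᵥ cur i)) with hQ
    have hQ0 : 0 ≤ Q := Finset.sum_nonneg fun l _ => mul_self_nonneg _
    have h4 : (w i : ℝ) * x / Li ≤ η := by
      rw [div_le_iff₀ (by exact_mod_cast hLi1)]
      rw [div_le_iff₀ hη0] at hLi2
      linarith
    have h5 : Q ≤ ti A * (w i / wU w U) := by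
      rw [← mul_div_assoc, le_div_iff₀ k1]
      exact hiK
    have h6 : Q * (w i * x / Li) ≤ ti A * (2 * ε * (su w U - su w (U.erase i))) := by
      calc Q * (w i * x / Li) ≤ (ti A * (w i / wU w U)) * η := by
            apply mul_le_mul h5 h4 (by positivity) (by positivity)
        _ = ti A * (ε * ((w i : ℝ) / (wU w univ * su w U))) := by
            have h7 : wU w U = wU w univ * su w U ^ 2 := by
              rw [k6]
              field_simp
            rw [h7, hη]
            field_simp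
        _ ≤ ti A * (ε * (2 * (su w U - su w (U.erase i)))) := by
            gcongr
        _ = _ := by ring
    have h7 : 1 + 2 * ε * (su w U - su w (U.erase i)) ≤
        Real.exp (2 * ε * (su w U - su w (U.erase i))) := by
      have := Real.add_one_le_exp (2 * ε * (su w U - su w (U.erase i)))
      linarith
    calc ti A + Q * (w i * x / Li) ≤ ti A * (1 + 2 * ε * (su w U - su w (U.erase i))) := by
          linarith
      _ ≤ (T * Real.exp (2 * ε * (1 - su w U))) *
          Real.exp (2 * ε * (su w U - su w (U.erase i))) := by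
          apply mul_le_mul h.tr h7 _ (by positivity)
          have : 0 ≤ su w U - su w (U.erase i) := by linarith
          positivity
      _ = _ := by
          rw [mul_assoc, ← Real.exp_add]
          congr 2
          ring


theorem inv_isPk {N n : ℕ} {Γ : Matrix (Fin N) (Fin n) ℝ} {lam x ε T : ℝ}
    (hx : 0 < x) (hε : 0 < ε) {w : Fin n → ℕ} {b : Fin n → Fin N → ℝ}
    {β : Fin N → ℝ} {q : ℕ} {U : Finset (Fin n)} {b' : Fin n → Fin N → ℝ}
    {r : ℕ} {ii : ℕ → Fin n} {jj : ℕ → Fin N} {τ : Fin n → ℕ} {L : Fin n → ℕ}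
    (h : Inv Γ lam x ε T w b β q U b' r ii jj τ L) {P : ℕ}
    (hP : (n : ℝ) + 2 * (∑ i, (w i : ℝ)) * x / ε < P + 1) : IsPk w P b' := by
  choose p hp using h.row
  refine ⟨L, h.L1, ?_, p, fun i => hp i⟩
  have h1 : (∑ i, (L i : ℝ)) < P + 1 := by
    have h2 : ∑ i, (L i : ℝ) = ∑ i ∈ U, (L i : ℝ) + ∑ i ∈ Uᶜ, (L i : ℝ) :=
      (Finset.sum_add_sum_compl U _).symm
    have h3 : ∑ i ∈ U, (L i : ℝ) = (U.card : ℝ) := by
      rw [Finset.sum_congr rfl (fun i hi => by rw [h.LU i hi])]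
      simp
    have h4 : (U.card : ℝ) + (Uᶜ.card : ℝ) = n := by
      have := Finset.card_add_card_compl U
      rw [Fintype.card_fin] at this
      exact_mod_cast this
    have h5 := h.sumL
    have h6 : 0 ≤ 2 * wU w univ * x / ε := by
      have : 0 ≤ wU w univ := Finset.sum_nonneg fun k _ => Nat.cast_nonneg _
      positivity
    have h7 : 0 ≤ su w U := Real.sqrt_nonneg _
    have h8 : 2 * wU w univ * x / ε * (1 - su w U) ≤ 2 * wU w univ * x / ε := by nlinarith
    have h9 : wU w univ = ∑ i, (w i : ℝ) := rfl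
    rw [h9] at h5 h8
    linarith
  have h2 : (∑ i, L i) < P + 1 := by exact_mod_cast h1
  omega

theorem wadd_eq {N q : ℕ} (β : Fin N → ℝ) (c : ℝ) (jj : ℕ → Fin N) (r : Fin q) :
    wadd β c (fun s : Fin q => jj s) r = ww β c jj r := by
  funext k
  unfold wadd ww
  congr 3
  have : (range (r : ℕ)).filter (fun t => jj t = k) =
      ((univ : Finset (Fin q)).filter (fun s => s < r ∧ jj s = k)).map Fin.valEmbedding := by
    ext t
    simp only [mem_filter, mem_range, mem_map, mem_univ, true_and, Fin.valEmbedding_apply]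
    constructor
    · rintro ⟨h1, h2⟩
      exact ⟨⟨t, h1.trans r.2⟩, ⟨h1, h2⟩, rfl⟩
    · rintro ⟨s, ⟨h1, h2⟩, rfl⟩
      exact ⟨h1, h2⟩
  rw [this, card_map]

/-- The conclusion of `process`. -/
def Concl {N n : ℕ} (Γ : Matrix (Fin N) (Fin n) ℝ) (lam x ε T : ℝ) (w : Fin n → ℕ)
    (b : Fin n → Fin N → ℝ) (β : Fin N → ℝ) (q P : ℕ) : Prop :=
  (∃ (b' : Fin n → Fin N → ℝ) (J : Finset (Fin N)), IsPk w P b' ∧ J.card < q ∧
      ti (AG lam Γ (Hm univ b' (fun k => β k + if k ∈ J then x⁻¹ else 0))) ≤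
        T * Real.exp (2 * ε)) ∨
    (∃ (b' : Fin n → Fin N → ℝ) (τ : Fin n → Fin (q + 1)) (i : Fin q → Fin n)
      (j : Fin q → Fin N), IsPk w P b' ∧ Function.Injective j ∧
      Bad Γ lam x (T * Real.exp (2 * ε) + 1 / lam) b b' τ β i j)

theorem fin_second {N n : ℕ} {Γ : Matrix (Fin N) (Fin n) ℝ} {lam x ε T : ℝ}
    (hx : 0 < x) (hε : 0 < ε) {w : Fin n → ℕ} {b : Fin n → Fin N → ℝ}
    {β : Fin N → ℝ} {q : ℕ} {U : Finset (Fin n)} {b' : Fin n → Fin N → ℝ}
    {ii : ℕ → Fin n} {jj : ℕ → Fin N} {τ : Fin n → ℕ} {L : Fin n → ℕ}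
    (h : Inv Γ lam x ε T w b β q U b' q ii jj τ L) {P : ℕ}
    (hP : (n : ℝ) + 2 * (∑ i, (w i : ℝ)) * x / ε < P + 1) : Concl Γ lam x ε T w b β q P := by
  right
  have hτ : ∀ a, τ a < q + 1 := by
    intro a
    by_cases ha : a ∈ U
    · rw [h.τU a ha]
      omega
    · exact Nat.lt_succ_of_le (h.τUc a ha)
  refine ⟨b', fun a => ⟨τ a, hτ a⟩, fun s => ii s, fun s => jj s, inv_isPk hx hε h hP, ?_, ?_⟩
  · intro s t hst
    exact Fin.ext (h.inj s s.2 t t.2 hst)
  · intro s
    have h1 := h.bad s s.2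
    unfold HA
    rw [wadd_eq]
    exact h1

theorem fin_first {N n : ℕ} {Γ : Matrix (Fin N) (Fin n) ℝ} {lam x ε T : ℝ}
    (hx : 0 < x) (hε : 0 < ε) {w : Fin n → ℕ} {b : Fin n → Fin N → ℝ}
    {β : Fin N → ℝ} {q : ℕ} {b' : Fin n → Fin N → ℝ} {r : ℕ}
    {ii : ℕ → Fin n} {jj : ℕ → Fin N} {τ : Fin n → ℕ} {L : Fin n → ℕ}
    (h : Inv Γ lam x ε T w b β q ∅ b' r ii jj τ L) (hr : r < q) {P : ℕ}
    (hP : (n : ℝ) + 2 * (∑ i, (w i : ℝ)) * x / ε < P + 1) : Concl Γ lam x ε T w b β q P := by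
  left
  refine ⟨b', (range r).image jj, inv_isPk hx hε h hP, ?_, ?_⟩
  · refine lt_of_le_of_lt card_image_le ?_
    rwa [card_range]
  · have h1 := h.tr
    have h2 : su w (∅ : Finset (Fin n)) = 0 := by
      unfold su wU
      simp
    rw [h2] at h1
    simp only [notMem_empty, if_false, sub_zero, mul_one] at h1
    have h3 : ww β x⁻¹ jj r = fun k => β k + if k ∈ (range r).image jj then x⁻¹ else 0 := by
      funext k
      unfold ww
      congr 1
      by_cases hk : k ∈ (range r).image jj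
      · rw [if_pos hk]
        obtain ⟨t, ht, rfl⟩ := mem_image.1 hk
        have h4 : (range r).filter (fun s => jj s = jj t) = {t} := by
          ext s
          simp only [mem_filter, mem_range, mem_singleton]
          constructor
          · rintro ⟨h5, h6⟩
            exact h.inj s h5 t (mem_range.1 ht) h6
          · rintro rfl
            exact ⟨mem_range.1 ht, rfl⟩
        rw [h4]
        simp
      · rw [if_neg hk]
        have h4 : (range r).filter (fun s => jj s = k) = ∅ := by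
          apply filter_eq_empty_iff.2
          intro s hs hsk
          exact hk (mem_image.2 ⟨s, hs, hsk⟩)
        rw [h4]
        simp
    rw [← h3]
    exact h1

theorem run {N n : ℕ} (hN : 0 < N) {Γ : Matrix (Fin N) (Fin n) ℝ} {lam x ε T : ℝ}
    (hlam : 0 < lam) (hx : 0 < x) (hε : 0 < ε) (hT0 : 0 ≤ T) {w : Fin n → ℕ}
    (hw : ∀ i, 1 ≤ w i) {a : Fin n → Fin N → ℝ} (ha : ∀ i, ∑ k, |a i k| ≤ 1)
    {β : Fin N → ℝ} (hβ : ∀ k, 0 ≤ β k) {q : ℕ} {P : ℕ}
    (hP : (n : ℝ) + 2 * (∑ i, (w i : ℝ)) * x / ε < P + 1) (m : ℕ) :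
    ∀ (U : Finset (Fin n)) (b' : Fin n → Fin N → ℝ) (r : ℕ) (ii : ℕ → Fin n) (jj : ℕ → Fin N)
      (τ : Fin n → ℕ) (L : Fin n → ℕ), U.card + (q - r) = m →
      Inv Γ lam x ε T w (fun i k => Real.sqrt (w i) * a i k) β q U b' r ii jj τ L →
      Concl Γ lam x ε T w (fun i k => Real.sqrt (w i) * a i k) β q P := by
  induction m with
  | zero =>
    intro U b' r ii jj τ L hm h
    obtain rfl : r = q := by
      have := h.rq
      omega
    exact fin_second hx hε h hP
  | succ m ih =>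
    intro U b' r ii jj τ L hm h
    rcases h.rq.eq_or_lt with hr | hr
    · subst hr
      exact fin_second hx hε h hP
    · by_cases hadd : ∃ i ∈ U, ∃ k, x < qf (AG lam Γ (Hm (univ.erase i)
          (fun c => if c ∈ U then (fun k => Real.sqrt (w c) * a c k) else b' c)
          (ww β x⁻¹ jj r))) (Γ k)
      · obtain ⟨i, hi, k, hk⟩ := hadd
        exact ih U b' (r + 1) _ _ τ L (by omega) (inv_add hlam hx hε hT0 hβ h hr hi hk)
      · push Not at hadd
        rcases U.eq_empty_or_nonempty with rfl | hU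
        · exact fin_first hx hε h hr hP
        · obtain ⟨i, hi, b'', τ', L', h'⟩ := inv_round hN hlam hx hε hT0 hw ha hβ h hr hU hadd
          refine ih (U.erase i) b'' r ii jj τ' L' ?_ h'
          rw [card_erase_of_mem hi]
          have := Finset.card_pos.2 ⟨i, hi⟩
          omega

theorem process {N n : ℕ} (hN : 0 < N) (Γ : Matrix (Fin N) (Fin n) ℝ) {lam x ε : ℝ}
    (hlam : 0 < lam) (hx : 0 < x) (hε : 0 < ε) (w : Fin n → ℕ) (hw : ∀ i, 1 ≤ w i)
    (a : Fin n → Fin N → ℝ) (ha : ∀ i, ∑ k, |a i k| ≤ 1) (β : Fin N → ℝ) (hβ : ∀ k, 0 ≤ β k)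
    (q : ℕ) (hq : 1 ≤ q) (P : ℕ) (hP : (n : ℝ) + 2 * (∑ i, (w i : ℝ)) * x / ε < P + 1) (T : ℝ)
    (hT : ti (AG lam Γ (Hm univ (fun i k => Real.sqrt (w i) * a i k) β)) ≤ T) :
    (∃ (b' : Fin n → Fin N → ℝ) (J : Finset (Fin N)), IsPk w P b' ∧ J.card < q ∧
      ti (AG lam Γ (Hm univ b' (fun k => β k + if k ∈ J then x⁻¹ else 0))) ≤
        T * Real.exp (2 * ε)) ∨
    (∃ (b' : Fin n → Fin N → ℝ) (τ : Fin n → Fin (q + 1)) (i : Fin q → Fin n)
      (j : Fin q → Fin N), IsPk w P b' ∧ Function.Injective j ∧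
      Bad Γ lam x (T * Real.exp (2 * ε) + 1 / lam) (fun i k => Real.sqrt (w i) * a i k) b' τ β
        i j) := by
  have hPD : (AG lam Γ (Hm univ (fun i k => Real.sqrt (w i) * a i k) β)).PosDef :=
    posDef_AG hlam Γ (posSemidef_Hm _ _ hβ)
  have hT0 : 0 ≤ T := (ti_nonneg hPD).trans hT
  rcases Nat.eq_zero_or_pos n with hn | hn
  · subst hn
    left
    refine ⟨fun i => i.elim0, ∅, ⟨fun _ => 1, fun _ => le_rfl, by simp, fun i => i.elim0,
      fun i => i.elim0⟩, by rw [card_empty]; omega, ?_⟩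
    have h1 : ∀ A : Matrix (Fin 0) (Fin 0) ℝ, ti A = 0 := by
      intro A
      simp [ti, Matrix.trace]
    rw [h1]
    positivity
  · refine run hN hlam hx hε hT0 hw ha hβ hP _ univ
      (fun i => pickRow (w i) 1 (fun _ => (⟨0, hN⟩, true))) 0 (fun _ => ⟨0, hn⟩)
      (fun _ => ⟨0, hN⟩) (fun _ => q) (fun _ => 1) rfl ?_
    have hsu : su w (univ : Finset (Fin n)) = 1 := (su_univ hw hn)
    refine ⟨fun _ => le_rfl, fun _ _ => rfl, fun i => ⟨_, rfl⟩, ?_, Nat.zero_le _,
      fun _ _ => rfl, fun i hi => absurd (mem_univ i) hi, ?_, ?_, ?_⟩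
    · rw [hsu]
      simp
    · intro s hs
      exact absurd hs (Nat.not_lt_zero s)
    · intro s hs
      exact absurd hs (Nat.not_lt_zero s)
    · rw [hsu]
      have h1 : ww β x⁻¹ (fun _ : ℕ => (⟨0, hN⟩ : Fin N)) 0 = β := by
        funext k
        unfold ww
        simp
      rw [h1]
      simp only [mem_univ, if_true, sub_self, mul_zero, Real.exp_zero, mul_one]
      exact hT

end Pool.Agent.LL
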