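import Pool.Agent.Helper38.LL.LA
import Pool.Agent.Helper38.LL.LB

/-!
LL-SU. `sum_sq_le`: with `A = B + ∑ u_k u_kᵀ` and `K = A⁻¹`, `∑ |K u_i|² = tr (K (∑ u u ᵀ) K)
= tr (K (A - B) K) = tr K - tr (K B K) ≤ tr K`; a subset of the rows gives less.
`leverage`: `n = tr (A⁻¹ A) = lam tr A⁻¹ + ∑_i qf A u_i + ∑_k β_k qf A (Γ k)` (`AG_Hm`) and
`1 - qf A u_i = 1 / (1 + qf A_i u_i)` with `A = A_i + u_i u_iᵀ` (`qf_add_r1`, `AG_Hm_erase`).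
-/

namespace Pool.Agent.LL

open Finset Matrix

theorem one_sub_qf {n : ℕ} {B : Matrix (Fin n) (Fin n) ℝ} (hB : B.PosDef) (v : Fin n → ℝ) :
    1 - qf (B + r1 v) v = 1 / (1 + qf B v) := by
  have h0 := qf_nonneg hB v
  rw [qf_add_r1 hB v v]
  have h1 : v ⬝ᵥ (B⁻¹ *ᵥ v) = qf B v := rfl
  rw [h1]
  have h2 : 1 + qf B v ≠ 0 := by positivity
  field_simp
  ring

theorem inv_mul_of_posDef {n : ℕ} {A : Matrix (Fin n) (Fin n) ℝ} (hA : A.PosDef) :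
    A⁻¹ * A = 1 :=
  Matrix.nonsing_inv_mul A ((Matrix.isUnit_iff_isUnit_det A).1 hA.isUnit)

theorem trace_inv_mul_r1 {n : ℕ} (A : Matrix (Fin n) (Fin n) ℝ) (v : Fin n → ℝ) :
    (A⁻¹ * r1 v).trace = qf A v := by
  unfold r1 qf
  rw [Matrix.mul_vecMulVec, Matrix.trace_vecMulVec, dotProduct_comm]

theorem transpose_inv_of_posDef {n : ℕ} {A : Matrix (Fin n) (Fin n) ℝ} (hA : A.PosDef) :
    (A⁻¹)ᵀ = A⁻¹ := by
  have h1 : Aᵀ = A := by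
    have := hA.isHermitian
    rw [Matrix.IsHermitian, Matrix.conjTranspose_eq_transpose_of_trivial] at this
    exact this
  rw [Matrix.transpose_nonsing_inv, h1]

theorem r1_mulVec {n : ℕ} (K : Matrix (Fin n) (Fin n) ℝ) (v : Fin n → ℝ) :
    r1 (K *ᵥ v) = K * r1 v * Kᵀ := by
  unfold r1
  rw [Matrix.mul_vecMulVec, Matrix.vecMulVec_mul, Matrix.vecMul_transpose]

theorem sum_sq_le {N n : ℕ} {lam : ℝ} (hlam : 0 < lam) (Γ : Matrix (Fin N) (Fin n) ℝ)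
    (b : Fin n → Fin N → ℝ) {β : Fin N → ℝ} (hβ : ∀ k, 0 ≤ β k) (S : Finset (Fin n)) :
    ∑ i ∈ S, (((AG lam Γ (Hm univ b β))⁻¹ *ᵥ (Γᵀ *ᵥ b i)) ⬝ᵥ
      ((AG lam Γ (Hm univ b β))⁻¹ *ᵥ (Γᵀ *ᵥ b i))) ≤ ti (AG lam Γ (Hm univ b β)) := by
  set A := AG lam Γ (Hm univ b β) with hA
  set B := AG lam Γ (Hm ∅ b β) with hB
  have hAp : A.PosDef := posDef_AG hlam Γ (posSemidef_Hm _ _ hβ)
  have hBp : B.PosDef := posDef_AG hlam Γ (posSemidef_Hm _ _ hβ)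
  have hAB : A = B + ∑ a, r1 (Γᵀ *ᵥ b a) := by
    rw [hA, hB, AG_Hm, AG_Hm, Finset.sum_empty, add_zero]
  have hKT := transpose_inv_of_posDef hAp
  have hsq : ∀ v : Fin n → ℝ, (A⁻¹ *ᵥ v) ⬝ᵥ (A⁻¹ *ᵥ v) = (A⁻¹ * r1 v * A⁻¹).trace := by
    intro v
    have h1 := r1_mulVec A⁻¹ v
    rw [hKT] at h1
    rw [← h1]
    unfold r1
    rw [Matrix.trace_vecMulVec]
  have hnn : ∀ v : Fin n → ℝ, 0 ≤ v ⬝ᵥ v := fun v => by
    have := dotProduct_star_self_nonneg v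
    simpa using this
  calc ∑ i ∈ S, ((A⁻¹ *ᵥ (Γᵀ *ᵥ b i)) ⬝ᵥ (A⁻¹ *ᵥ (Γᵀ *ᵥ b i)))
      ≤ ∑ i, ((A⁻¹ *ᵥ (Γᵀ *ᵥ b i)) ⬝ᵥ (A⁻¹ *ᵥ (Γᵀ *ᵥ b i))) :=
        Finset.sum_le_sum_of_subset_of_nonneg (Finset.subset_univ S) fun i _ _ => hnn _
    _ = (A⁻¹ * (∑ i, r1 (Γᵀ *ᵥ b i)) * A⁻¹).trace := by
        rw [Finset.mul_sum, Finset.sum_mul, Matrix.trace_sum]
        exact Finset.sum_congr rfl fun i _ => hsq _
    _ = (A⁻¹ * A * A⁻¹).trace - (A⁻¹ * B * A⁻¹).trace := by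
        have h1 : ∑ a, r1 (Γᵀ *ᵥ b a) = A - B := by rw [hAB]; abel
        rw [h1, mul_sub, sub_mul, Matrix.trace_sub]
    _ ≤ ti A := by
        rw [inv_mul_of_posDef hAp, one_mul]
        have h1 : 0 ≤ (A⁻¹ * B * A⁻¹).trace := by
          have h2 := (hBp.posSemidef.mul_mul_conjTranspose_same A⁻¹).trace_nonneg
          rw [Matrix.conjTranspose_eq_transpose_of_trivial, hKT] at h2
          exact h2
        unfold ti
        linarith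

theorem leverage {N n : ℕ} {lam : ℝ} (hlam : 0 < lam) (Γ : Matrix (Fin N) (Fin n) ℝ)
    (b : Fin n → Fin N → ℝ) {β : Fin N → ℝ} (hβ : ∀ k, 0 ≤ β k) :
    ∑ i, 1 / (1 + qf (AG lam Γ (Hm (univ.erase i) b β)) (Γᵀ *ᵥ b i)) =
      lam * ti (AG lam Γ (Hm univ b β)) + ∑ k, β k * qf (AG lam Γ (Hm univ b β)) (Γ k) := by
  set A := AG lam Γ (Hm univ b β) with hA
  have hAp : A.PosDef := posDef_AG hlam Γ (posSemidef_Hm _ _ hβ)
  have h1 : ∀ i, 1 / (1 + qf (AG lam Γ (Hm (univ.erase i) b β)) (Γᵀ *ᵥ b i)) =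
      1 - qf A (Γᵀ *ᵥ b i) := by
    intro i
    have hBp : (AG lam Γ (Hm (univ.erase i) b β)).PosDef :=
      posDef_AG hlam Γ (posSemidef_Hm _ _ hβ)
    rw [← one_sub_qf hBp, hA, AG_Hm_erase lam Γ (Finset.mem_univ i)]
  rw [Finset.sum_congr rfl fun i _ => h1 i, Finset.sum_sub_distrib, Finset.sum_const,
    Finset.card_univ, Fintype.card_fin, nsmul_eq_mul, mul_one]
  have h2 : ((n : ℕ) : ℝ) = (A⁻¹ * A).trace := by
    rw [inv_mul_of_posDef hAp, Matrix.trace_one, Fintype.card_fin]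
  have h3 : (A⁻¹ * A).trace = lam * ti A + ∑ k, β k * qf A (Γ k) +
      ∑ a, qf A (Γᵀ *ᵥ b a) := by
    conv_lhs => rw [show A⁻¹ * A = A⁻¹ * (lam • (1 : Matrix (Fin n) (Fin n) ℝ) +
      ∑ k, β k • r1 (Γ k) + ∑ a ∈ univ, r1 (Γᵀ *ᵥ b a)) from by
        rw [← AG_Hm lam Γ univ b β]]
    rw [mul_add, mul_add, Matrix.trace_add, Matrix.trace_add, Finset.mul_sum, Finset.mul_sum,
      Matrix.trace_sum, Matrix.trace_sum, Matrix.mul_smul, mul_one, Matrix.trace_smul,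
      smul_eq_mul]
    congr 1
    · congr 1
      refine Finset.sum_congr rfl fun k _ => ?_
      rw [Matrix.mul_smul, Matrix.trace_smul, trace_inv_mul_r1, smul_eq_mul]
    · exact Finset.sum_congr rfl fun a _ => trace_inv_mul_r1 A _
  rw [h2, h3]
  ring

end Pool.Agent.LL
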