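import Pool.Agent.Helper38.LL.LD
import Pool.Agent.Helper38.LL.CN
import Pool.Agent.Helper38.LL.LB

/-!
LL-UB. Union bound for one stage: `ld` (`T = 3 M`, `x = xl n lam s`, `q = ql n lam M δ s`) for every
configuration: `w` (`w i ≤ 2n`: `(2n+1)^n`), `b` and `b'` (`card_pk`), `τ` (`(q+1)^n`), `J t`, `t < s`
(`2^(N s)`; only these matter in `wJ`), `i` (`n^q`), `j` (`N^q`). The coefficient matrices are positive
semidefinite by `posSemidef_Hm`.   Proof: helper40.
-/

namespace Pool.Agent.LL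

open Finset Matrix

/-- the weights of the old spikes as a function of finitely many sets -/
private noncomputable def ubW {N : ℕ} (n : ℕ) (lam : ℝ) (s : ℕ) (J : Fin s → Finset (Fin N)) :
    Fin N → ℝ :=
  fun k => ∑ t : Fin s, if k ∈ J t then (xl n lam t)⁻¹ else 0

private theorem ubW_nonneg {N n : ℕ} {lam : ℝ} (hlam : 0 < lam) (s : ℕ)
    (J : Fin s → Finset (Fin N)) (k : Fin N) : 0 ≤ ubW n lam s J k := by
  unfold ubW
  apply Finset.sum_nonneg
  intro t _
  split_ifs
  · unfold xl; positivity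
  · exact le_rfl

private theorem ubW_eq {N n : ℕ} {lam : ℝ} (s : ℕ) (J : ℕ → Finset (Fin N)) :
    wJ n lam s J = ubW n lam s (fun t => J t) := by
  funext k
  unfold wJ ubW
  rw [Finset.sum_range]

open Classical in
theorem stage_bound {N n : ℕ} (hN : 1 ≤ N) {lam M δ : ℝ} (hlam : 0 < lam) (s : ℕ)
    (hx : 4 * (3 * M + ql n lam M δ s / lam) ≤ xl n lam s) (hx0 : 0 < xl n lam s) :
    (((univ : Finset (Fin N → Fin n → Bool)).filter
      (fun G => ¬ Good (GM G) lam M δ s)).card : ℝ) ≤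
      (2 * n + 1 : ℝ) ^ n *
      ((pl n lam M δ (s - 1) + 1 : ℝ) ^ n * (2 * N : ℝ) ^ pl n lam M δ (s - 1)) *
      ((pl n lam M δ s + 1 : ℝ) ^ n * (2 * N : ℝ) ^ pl n lam M δ s) *
      (ql n lam M δ s + 1 : ℝ) ^ n * (2 : ℝ) ^ (N * s) * (n : ℝ) ^ ql n lam M δ s *
      (N : ℝ) ^ ql n lam M δ s *
      (Real.exp (-(ql n lam M δ s * lam * xl n lam s / 8)) * 2 ^ (N * n)) := by
  set q := ql n lam M δ s with hq
  set P := pl n lam M δ (s - 1) with hP
  set P' := pl n lam M δ s with hP'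
  set E : ℝ := Real.exp (-(q * lam * xl n lam s / 8)) * 2 ^ (N * n) with hE
  choose F hF hFc using fun w : Fin n → Fin (2 * n + 1) =>
    card_pk hN (fun i => (w i : ℕ)) P
  choose F' hF' hFc' using fun w : Fin n → Fin (2 * n + 1) =>
    card_pk hN (fun i => (w i : ℕ)) P'
  let R : Type := (Fin n → Fin (q + 1)) × (Fin s → Finset (Fin N)) × (Fin q → Fin n) ×
    (Fin q → Fin N)
  let Ev : (Σ _ : Fin n → Fin (2 * n + 1), ((Fin n → Fin N → ℝ) × (Fin n → Fin N → ℝ))) × R →
      Finset (Fin N → Fin n → Bool) := fun c => univ.filter (fun G =>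
        Function.Injective c.2.2.2.2 ∧ Bad (GM G) lam (xl n lam s) (3 * M) c.1.2.1 c.1.2.2 c.2.1
          (ubW n lam s c.2.2.1) c.2.2.2.1 c.2.2.2.2)
  let Cfg : Finset ((Σ _ : Fin n → Fin (2 * n + 1),
      ((Fin n → Fin N → ℝ) × (Fin n → Fin N → ℝ))) × R) :=
    ((univ : Finset (Fin n → Fin (2 * n + 1))).sigma fun w => F w ×ˢ F' w) ×ˢ (univ : Finset R)
  have hsub : (univ : Finset (Fin N → Fin n → Bool)).filter
      (fun G => ¬ Good (GM G) lam M δ s) ⊆ Cfg.biUnion Ev := by
    intro G hG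
    have hG' := (Finset.mem_filter.mp hG).2
    unfold Good at hG'
    push Not at hG'
    obtain ⟨w, b, b', hw, hb, hb', τ, J, i, j, hj, hbad⟩ := hG'
    have hwi : ∀ k, w k < 2 * n + 1 := by
      intro k
      have := Finset.single_le_sum (f := w) (fun i _ => Nat.zero_le _) (Finset.mem_univ k)
      omega
    rw [Finset.mem_biUnion]
    refine ⟨(⟨fun k => ⟨w k, hwi k⟩, (b, b')⟩, (τ, fun t => J t, i, j)), ?_, ?_⟩
    · simp only [Cfg, Finset.mem_product, Finset.mem_sigma, Finset.mem_univ, true_and, and_true]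
      exact ⟨hF _ _ hb, hF' _ _ hb'⟩
    · simp only [Ev, Finset.mem_filter, Finset.mem_univ, true_and]
      refine ⟨hj, ?_⟩
      rw [← ubW_eq]
      exact hbad
  have hEv : ∀ c, ((Ev c).card : ℝ) ≤ E := by
    rintro ⟨⟨w, b, b'⟩, τ, J, i, j⟩
    by_cases hj : Function.Injective j
    · have h1 := ld (N := N) (n := n) (q := q) (T := 3 * M) hlam hx
        (fun r => HA b b' τ (ubW n lam s J) (xl n lam s)⁻¹ i j r) (by
          intro r
          unfold HA
          apply posSemidef_Hm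
          intro k
          unfold wadd
          have h2 := ubW_nonneg (n := n) hlam s J k
          positivity) j hj
      refine le_trans ?_ h1
      have h3 : (Ev (⟨w, (b, b')⟩, τ, J, i, j)).card ≤
          ((univ : Finset (Fin N → Fin n → Bool)).filter (fun G => ∀ r,
            xl n lam s < qf (AG lam (GM G) (HA b b' τ (ubW n lam s J) (xl n lam s)⁻¹ i j r))
              (GM G (j r)) ∧
            ti (AG lam (GM G) (HA b b' τ (ubW n lam s J) (xl n lam s)⁻¹ i j r)) ≤ 3 * M)).card := by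
        apply Finset.card_le_card
        intro G hG
        simp only [Ev, Finset.mem_filter, Finset.mem_univ, true_and] at hG ⊢
        exact hG.2
      exact_mod_cast h3
    · have h3 : Ev (⟨w, (b, b')⟩, τ, J, i, j) = ∅ := by
        rw [Finset.eq_empty_iff_forall_notMem]
        intro G hG
        simp only [Ev, Finset.mem_filter, Finset.mem_univ, true_and] at hG
        exact hj hG.1
      rw [h3, Finset.card_empty, Nat.cast_zero, hE]
      positivity
  have hcard : ((Cfg.card : ℕ) : ℝ) ≤ (2 * n + 1 : ℝ) ^ n *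
      ((P + 1 : ℝ) ^ n * (2 * N : ℝ) ^ P) * ((P' + 1 : ℝ) ^ n * (2 * N : ℝ) ^ P') *
      (q + 1 : ℝ) ^ n * (2 : ℝ) ^ (N * s) * (n : ℝ) ^ q * (N : ℝ) ^ q := by
    have h1 : Cfg.card = (∑ w : Fin n → Fin (2 * n + 1), (F w).card * (F' w).card) *
        ((q + 1) ^ n * (2 ^ (N * s) * (n ^ q * N ^ q))) := by
      simp only [Cfg, Finset.card_product, Finset.card_sigma]
      congr 1
      rw [Finset.card_univ]
      simp only [R, Fintype.card_prod, Fintype.card_fun, Fintype.card_fin, Fintype.card_finset,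
        ← pow_mul]
    have h2 : ∑ w : Fin n → Fin (2 * n + 1), (F w).card * (F' w).card ≤
        (2 * n + 1) ^ n * (((P + 1) ^ n * (2 * N) ^ P) * ((P' + 1) ^ n * (2 * N) ^ P')) := by
      calc ∑ w : Fin n → Fin (2 * n + 1), (F w).card * (F' w).card
          ≤ ∑ _w : Fin n → Fin (2 * n + 1),
            ((P + 1) ^ n * (2 * N) ^ P) * ((P' + 1) ^ n * (2 * N) ^ P') :=
            Finset.sum_le_sum fun w _ => Nat.mul_le_mul (hFc w) (hFc' w)
        _ = _ := by
            rw [Finset.sum_const, Finset.card_univ, Fintype.card_fun, Fintype.card_fin,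
              Fintype.card_fin, smul_eq_mul]
    have h3 : Cfg.card ≤ (2 * n + 1) ^ n *
        (((P + 1) ^ n * (2 * N) ^ P) * ((P' + 1) ^ n * (2 * N) ^ P')) *
        ((q + 1) ^ n * (2 ^ (N * s) * (n ^ q * N ^ q))) := by
      rw [h1]; exact Nat.mul_le_mul_right _ h2
    have h4 : ((Cfg.card : ℕ) : ℝ) ≤ (((2 * n + 1) ^ n *
        (((P + 1) ^ n * (2 * N) ^ P) * ((P' + 1) ^ n * (2 * N) ^ P')) *
        ((q + 1) ^ n * (2 ^ (N * s) * (n ^ q * N ^ q))) : ℕ) : ℝ) := by exact_mod_cast h3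
    refine h4.trans (le_of_eq ?_)
    push_cast
    ring
  calc (((univ : Finset (Fin N → Fin n → Bool)).filter
      (fun G => ¬ Good (GM G) lam M δ s)).card : ℝ)
      ≤ ((Cfg.biUnion Ev).card : ℝ) := by exact_mod_cast Finset.card_le_card hsub
    _ ≤ ((∑ c ∈ Cfg, (Ev c).card : ℕ) : ℝ) := by exact_mod_cast Finset.card_biUnion_le
    _ = ∑ c ∈ Cfg, ((Ev c).card : ℝ) := by push_cast; rfl
    _ ≤ ∑ _c ∈ Cfg, E := Finset.sum_le_sum fun c _ => hEv c
    _ = (Cfg.card : ℝ) * E := by rw [Finset.sum_const, nsmul_eq_mul]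
    _ ≤ _ := by
        apply mul_le_mul_of_nonneg_right hcard
        rw [hE]; positivity

end Pool.Agent.LL
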